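import Mathlib

/-!
Automorphic Banach spaces: basic transfer principles for quotients.
-/

set_option autoImplicit false

namespace Pool.Agent.H5.Auto

open Function Filter Topology

/-- The property of the problem file: any two isomorphic closed subspaces of infinite codimension
are mapped onto each other by an automorphism of the space. -/
def Automorphic (X : Type*) [NormedAddCommGroup X] [NormedSpace ℝ X] : Prop :=
  ∀ Y Z : Submodule ℝ X, IsClosed (Y : Set X) → IsClosed (Z : Set X) →
    ¬ FiniteDimensional ℝ (X ⧸ Y) → ¬ FiniteDimensional ℝ (X ⧸ Z) →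
    Nonempty (Y ≃L[ℝ] Z) →
    ∃ τ : X ≃L[ℝ] X, τ '' (Y : Set X) = (Z : Set X)

section basic

variable {X Q Q' W : Type*}
  [NormedAddCommGroup X] [NormedSpace ℝ X] [CompleteSpace X]
  [NormedAddCommGroup Q] [NormedSpace ℝ Q] [CompleteSpace Q]
  [NormedAddCommGroup Q'] [NormedSpace ℝ Q'] [CompleteSpace Q']
  [NormedAddCommGroup W] [NormedSpace ℝ W]

/-- A continuous linear map that vanishes on the kernel of a surjection factors through it. -/
theorem factor (T : X →L[ℝ] Q) (hT : Surjective T) (S : X →L[ℝ] W)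
    (h : ∀ x, T x = 0 → S x = 0) : ∃ S' : Q →L[ℝ] W, ∀ x, S' (T x) = S x := by
  obtain ⟨g, hg⟩ := hT.hasRightInverse
  have key : ∀ x y, T x = T y → S x = S y := by
    intro x y hxy
    have : S (x - y) = 0 := h _ (by rw [map_sub, hxy, sub_self])
    rwa [map_sub, sub_eq_zero] at this
  let L : Q →ₗ[ℝ] W :=
    { toFun := fun q => S (g q)
      map_add' := fun a b => by
        rw [← map_add]; apply key; rw [map_add, hg, hg, hg]
      map_smul' := fun c a => by
        rw [RingHom.id_apply, ← map_smul]; apply key; rw [map_smul, hg, hg] }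
  have hL : ∀ x, L (T x) = S x := fun x => key _ _ (hg (T x))
  have hc : Continuous L := by
    rw [(T.isQuotientMap hT).continuous_iff]
    have : (L ∘ T) = S := by
      funext x; exact hL x
    rw [this]; exact S.continuous
  exact ⟨⟨L, hc⟩, hL⟩

/-- Two surjections with the same kernel have isomorphic targets. -/
theorem equiv_of_ker_eq (T : X →L[ℝ] Q) (T' : X →L[ℝ] Q') (hT : Surjective T)
    (hT' : Surjective T') (h : ∀ x, T x = 0 ↔ T' x = 0) :
    ∃ e : Q ≃L[ℝ] Q', ∀ x, e (T x) = T' x := by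
  obtain ⟨F, hF⟩ := factor T hT T' (fun x hx => (h x).1 hx)
  obtain ⟨G, hG⟩ := factor T' hT' T (fun x hx => (h x).2 hx)
  refine ⟨ContinuousLinearEquiv.equivOfInverse F G ?_ ?_, fun x => ?_⟩
  · intro q
    obtain ⟨x, rfl⟩ := hT q
    rw [hF, hG]
  · intro q
    obtain ⟨x, rfl⟩ := hT' q
    rw [hG, hF]
  · simpa using hF x

theorem not_fd_quot {Y : Submodule ℝ X} (T : X →L[ℝ] Q) (hT : Surjective T)
    (hY : ∀ x, x ∈ Y ↔ T x = 0) : FiniteDimensional ℝ (X ⧸ Y) ↔ FiniteDimensional ℝ Q := by
  have hk : Y = LinearMap.ker (T : X →ₗ[ℝ] Q) := by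
    ext x; rw [hY]; simp
  subst hk
  have e := LinearMap.quotKerEquivOfSurjective (T : X →ₗ[ℝ] Q) hT
  exact ⟨fun h => e.finiteDimensional, fun h => e.symm.finiteDimensional⟩

/-- Transfer principle: if the kernel of `T` is isomorphic to the kernel of `T'` (through some
embedding `i` of the kernel of `T` onto the kernel of `T'`), the targets are isomorphic. -/
theorem transfer (hX : Automorphic X) (T : X →L[ℝ] Q) (hT : Surjective T)
    (hQ : ¬ FiniteDimensional ℝ Q) (T' : X →L[ℝ] Q') (hT' : Surjective T')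
    (hQ' : ¬ FiniteDimensional ℝ Q') {K : Type*} [NormedAddCommGroup K] [NormedSpace ℝ K]
    [CompleteSpace K] (i i' : K →L[ℝ] X) (hi : Injective i) (hi' : Injective i')
    (hr : ∀ x, T x = 0 ↔ ∃ k, i k = x) (hr' : ∀ x, T' x = 0 ↔ ∃ k, i' k = x) :
    Nonempty (Q ≃L[ℝ] Q') := by
  have hcl : IsClosed (Set.range i) := by
    have : Set.range i = T ⁻¹' {0} := by
      ext x; simp [hr]
    rw [this]; exact isClosed_singleton.preimage T.continuous
  have hcl' : IsClosed (Set.range i') := by
    have : Set.range i' = T' ⁻¹' {0} := by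
      ext x; simp [hr']
    rw [this]; exact isClosed_singleton.preimage T'.continuous
  have e1 := i.equivRange hi hcl
  have e2 := i'.equivRange hi' hcl'
  obtain ⟨τ, hτ⟩ := hX (LinearMap.range (i : K →ₗ[ℝ] X)) (LinearMap.range (i' : K →ₗ[ℝ] X))
    (by rw [show ((LinearMap.range (i : K →ₗ[ℝ] X) : Submodule ℝ X) : Set X) = Set.range i by
          ext; simp]; exact hcl)
    (by rw [show ((LinearMap.range (i' : K →ₗ[ℝ] X) : Submodule ℝ X) : Set X) = Set.range i' by
          ext; simp]; exact hcl')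
    (by rw [not_fd_quot T hT (fun x => by simp [hr])]; exact hQ)
    (by rw [not_fd_quot T' hT' (fun x => by simp [hr'])]; exact hQ') ⟨e1.symm.trans e2⟩
  obtain ⟨e, -⟩ := equiv_of_ker_eq T (T'.comp (τ : X →L[ℝ] X)) hT
    (hT'.comp τ.surjective) (fun x => by
      constructor
      · intro hx
        have hm : τ x ∈ τ '' ((LinearMap.range (i : K →ₗ[ℝ] X) : Submodule ℝ X) : Set X) := by
          refine ⟨x, ?_, rfl⟩
          simpa using (hr x).1 hx
        rw [hτ] at hm
        have : T' (τ x) = 0 := (hr' _).2 (by simpa using hm)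
        simpa using this
      · intro hx
        have hm : τ x ∈ ((LinearMap.range (i' : K →ₗ[ℝ] X) : Submodule ℝ X) : Set X) := by
          have : T' (τ x) = 0 := by simpa using hx
          simpa using (hr' _).1 this
        rw [← hτ] at hm
        obtain ⟨y, hy, hyx⟩ := hm
        have : y = x := τ.injective hyx
        subst this
        exact (hr y).2 (by simpa using hy))
  exact ⟨e⟩

/-- The automorphic property is an isomorphic invariant. -/
theorem Automorphic.congr (hX : Automorphic X) (e : X ≃L[ℝ] Q) : Automorphic Q := by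
  intro Y Z hY hZ hfY hfZ ⟨f⟩
  set Y' : Submodule ℝ X := Y.comap (e.toLinearEquiv : X →ₗ[ℝ] Q)
  set Z' : Submodule ℝ X := Z.comap (e.toLinearEquiv : X →ₗ[ℝ] Q)
  have hY' : IsClosed (Y' : Set X) := hY.preimage e.continuous
  have hZ' : IsClosed (Z' : Set X) := hZ.preimage e.continuous
  have : IsClosed (Y : Set Q) := hY
  have : IsClosed (Z : Set Q) := hZ
  have fY : ¬ FiniteDimensional ℝ (X ⧸ Y') := by
    intro h
    have e1 : (X ⧸ Y') ≃ₗ[ℝ] (Q ⧸ Y) := Submodule.Quotient.equiv Y' Y e.toLinearEquiv (by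
      ext q
      simp only [Submodule.mem_map, Submodule.mem_comap, Y']
      constructor
      · rintro ⟨y, hy, rfl⟩; exact hy
      · intro hq
        exact ⟨e.symm q, by simpa using hq, by simp⟩)
    exact hfY e1.finiteDimensional
  have fZ : ¬ FiniteDimensional ℝ (X ⧸ Z') := by
    intro h
    have e1 : (X ⧸ Z') ≃ₗ[ℝ] (Q ⧸ Z) := Submodule.Quotient.equiv Z' Z e.toLinearEquiv (by
      ext q
      simp only [Submodule.mem_map, Submodule.mem_comap, Z']
      constructor
      · rintro ⟨y, hy, rfl⟩; exact hy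
      · intro hq
        exact ⟨e.symm q, by simpa using hq, by simp⟩)
    exact hfZ e1.finiteDimensional
  have eY : Y' ≃L[ℝ] Y :=
    ContinuousLinearEquiv.equivOfInverse
      (((e : X →L[ℝ] Q).comp Y'.subtypeL).codRestrict Y (fun y => y.2))
      (((e.symm : Q →L[ℝ] X).comp Y.subtypeL).codRestrict Y' (fun y => by
        simp [Y']))
      (fun y => Subtype.ext (e.symm_apply_apply _)) (fun y => Subtype.ext (e.apply_symm_apply _))
  have eZ : Z' ≃L[ℝ] Z :=
    ContinuousLinearEquiv.equivOfInverse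
      (((e : X →L[ℝ] Q).comp Z'.subtypeL).codRestrict Z (fun y => y.2))
      (((e.symm : Q →L[ℝ] X).comp Z.subtypeL).codRestrict Z' (fun y => by
        simp [Z']))
      (fun y => Subtype.ext (e.symm_apply_apply _)) (fun y => Subtype.ext (e.apply_symm_apply _))
  obtain ⟨τ, hτ⟩ := hX Y' Z' hY' hZ' fY fZ ⟨(eY.trans f).trans eZ.symm⟩
  refine ⟨(e.symm.trans τ).trans e, ?_⟩
  ext q
  constructor
  · rintro ⟨y, hy, rfl⟩
    have : τ (e.symm y) ∈ τ '' (Y' : Set X) := ⟨e.symm y, by simpa [Y'] using hy, rfl⟩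
    rw [hτ] at this
    simpa [Z'] using this
  · intro hq
    have : e.symm q ∈ (Z' : Set X) := by simpa [Z'] using hq
    rw [← hτ] at this
    obtain ⟨x, hx, hxq⟩ := this
    refine ⟨e x, hx, ?_⟩
    simp [hxq]

end basic

section absorb

variable {X Q A : Type*}
  [NormedAddCommGroup X] [NormedSpace ℝ X] [CompleteSpace X]
  [NormedAddCommGroup Q] [NormedSpace ℝ Q] [CompleteSpace Q]
  [NormedAddCommGroup A] [NormedSpace ℝ A] [CompleteSpace A]

/-- Absorption: if `X` is automorphic and isomorphic to `X × A`, every infinite-dimensional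
quotient `Q` of `X` is isomorphic to `Q × A`. -/
theorem absorb (hX : Automorphic X) (e : X ≃L[ℝ] X × A) (T : X →L[ℝ] Q) (hT : Surjective T)
    (hQ : ¬ FiniteDimensional ℝ Q) : Nonempty (Q ≃L[ℝ] Q × A) := by
  have hQA : ¬ FiniteDimensional ℝ (Q × A) := by
    intro h
    exact hQ (FiniteDimensional.of_surjective (LinearMap.fst ℝ Q A) LinearMap.fst_surjective)
  let K : Submodule ℝ X := LinearMap.ker (T : X →ₗ[ℝ] Q)
  have hK : IsClosed (K : Set X) := T.isClosed_ker
  have : CompleteSpace K := hK.completeSpace_coe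
  refine transfer hX T hT hQ ((T.prodMap (ContinuousLinearMap.id ℝ A)).comp (e : X →L[ℝ] X × A))
    ?_ hQA K.subtypeL
    ((e.symm : X × A →L[ℝ] X).comp ((ContinuousLinearMap.inl ℝ X A).comp K.subtypeL)) ?_ ?_ ?_ ?_
  · intro ⟨q, a⟩
    obtain ⟨x, rfl⟩ := hT q
    exact ⟨e.symm (x, a), by simp⟩
  · exact Subtype.val_injective
  · intro a b h
    have h' : e.symm ((a : X), (0 : A)) = e.symm ((b : X), (0 : A)) := by simpa using h
    have h2 := e.symm.injective h'
    exact Subtype.ext (congrArg Prod.fst h2)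
  · intro x
    constructor
    · intro hx; exact ⟨⟨x, by simpa [K] using hx⟩, rfl⟩
    · rintro ⟨k, rfl⟩; simpa [K] using k.2
  · intro x
    constructor
    · intro hx
      have h1 : T (e x).1 = 0 := by
        have := congrArg Prod.fst hx; simpa using this
      have h2 : (e x).2 = 0 := by
        have := congrArg Prod.snd hx; simpa using this
      refine ⟨⟨(e x).1, by simpa [K] using h1⟩, ?_⟩
      simp only [ContinuousLinearMap.coe_comp, comp_apply, Submodule.subtypeL_apply,
        ContinuousLinearMap.inl_apply, ContinuousLinearEquiv.coe_coe]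
      rw [ContinuousLinearEquiv.symm_apply_eq]
      exact Prod.ext rfl h2.symm
    · rintro ⟨k, rfl⟩
      have : T (k : X) = 0 := by simpa [K] using k.2
      simp [this]

end absorb

section selfcopy

variable {X Q R : Type*}
  [NormedAddCommGroup X] [NormedSpace ℝ X] [CompleteSpace X]
  [NormedAddCommGroup Q] [NormedSpace ℝ Q] [CompleteSpace Q]
  [NormedAddCommGroup R] [NormedSpace ℝ R] [CompleteSpace R]

/-- If `X` is automorphic and `0 → X → X → R → 0` is exact with `R` infinite-dimensional, then for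
every infinite-dimensional quotient `Q` of `X` there is an exact sequence `0 → Q → Q → R → 0`. -/
theorem self_extension (hX : Automorphic X) (j : X →L[ℝ] X) (hj : Injective j)
    (r : X →L[ℝ] R) (hr : Surjective r) (hR : ¬ FiniteDimensional ℝ R)
    (hjr : ∀ x, r x = 0 ↔ ∃ y, j y = x)
    (T : X →L[ℝ] Q) (hT : Surjective T) (hQ : ¬ FiniteDimensional ℝ Q) :
    ∃ (φ : Q →L[ℝ] Q) (ψ : Q →L[ℝ] R), Injective φ ∧ Surjective ψ ∧
      ∀ q, ψ q = 0 ↔ ∃ p, φ p = q := by
  -- `j` is a closed embedding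
  have hjcl : IsClosed (Set.range j) := by
    have : Set.range j = r ⁻¹' {0} := by
      ext x; simp [hjr]
    rw [this]; exact isClosed_singleton.preimage r.continuous
  obtain ⟨c, hc⟩ := j.antilipschitz_of_injective_of_isClosed_range hj hjcl
  have hemb : IsClosedEmbedding j := hc.isClosedEmbedding j.uniformContinuous
  let K : Submodule ℝ X := LinearMap.ker (T : X →ₗ[ℝ] Q)
  have hK : IsClosed (K : Set X) := T.isClosed_ker
  have : CompleteSpace K := hK.completeSpace_coe
  let Y' : Submodule ℝ X := K.map (j : X →ₗ[ℝ] X)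
  have hY' : IsClosed (Y' : Set X) := by
    have : (Y' : Set X) = j '' (K : Set X) := by
      simp [Y']
    rw [this]; exact hemb.isClosedMap _ hK
  have : IsClosed (Y' : Set X) := hY'
  have hmk : Surjective (Y'.mkQL : X →L[ℝ] X ⧸ Y') := Submodule.mkQ_surjective Y'
  have hmk0 : ∀ x, Y'.mkQL x = 0 ↔ ∃ y, T y = 0 ∧ j y = x := by
    intro x
    rw [Submodule.mkQL_apply, Submodule.mkQ_apply, Submodule.Quotient.mk_eq_zero]
    simp [Y', K]
  -- the map to `R`
  obtain ⟨p, hp⟩ := factor (Y'.mkQL : X →L[ℝ] X ⧸ Y') hmk r (fun x hx => by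
    obtain ⟨y, -, rfl⟩ := (hmk0 x).1 hx
    exact (hjr _).2 ⟨y, rfl⟩)
  obtain ⟨φ', hφ'⟩ := factor T hT ((Y'.mkQL : X →L[ℝ] X ⧸ Y').comp j) (fun x hx => by
    exact (hmk0 _).2 ⟨x, hx, rfl⟩)
  have hpsurj : Surjective p := by
    intro y
    obtain ⟨x, rfl⟩ := hr y
    exact ⟨_, hp x⟩
  have hQ' : ¬ FiniteDimensional ℝ (X ⧸ Y') := by
    intro h
    exact hR (FiniteDimensional.of_surjective (p : (X ⧸ Y') →ₗ[ℝ] R) hpsurj)
  obtain ⟨e⟩ : Nonempty (Q ≃L[ℝ] (X ⧸ Y')) := by
    refine transfer hX T hT hQ (Y'.mkQL : X →L[ℝ] X ⧸ Y') hmk hQ' K.subtypeL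
      (j.comp K.subtypeL) Subtype.val_injective ?_ ?_ ?_
    · intro a b h
      exact Subtype.ext (hj (by simpa using h))
    · intro x
      constructor
      · intro hx; exact ⟨⟨x, by simpa [K] using hx⟩, rfl⟩
      · rintro ⟨k, rfl⟩; simpa [K] using k.2
    · intro x
      rw [hmk0]
      constructor
      · rintro ⟨y, hy, rfl⟩; exact ⟨⟨y, by simpa [K] using hy⟩, rfl⟩
      · rintro ⟨k, rfl⟩; exact ⟨k, by simpa [K] using k.2, rfl⟩
  refine ⟨(e.symm : (X ⧸ Y') →L[ℝ] Q).comp φ', p.comp (e : Q →L[ℝ] (X ⧸ Y')), ?_, ?_, ?_⟩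
  · have : Injective φ' := by
      rw [injective_iff_map_eq_zero]
      intro q hq
      obtain ⟨x, rfl⟩ := hT q
      rw [hφ'] at hq
      obtain ⟨y, hy, hyx⟩ := (hmk0 _).1 hq
      have : y = x := hj hyx
      subst this; exact hy
    exact e.symm.injective.comp this
  · exact hpsurj.comp e.surjective
  · intro q
    constructor
    · intro h
      obtain ⟨x, hx⟩ := hmk (e q)
      have h' : p (e q) = 0 := by simpa using h
      rw [← hx, hp] at h'
      obtain ⟨y, rfl⟩ := (hjr x).1 h'
      refine ⟨T y, ?_⟩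
      simp only [ContinuousLinearMap.coe_comp, comp_apply, ContinuousLinearEquiv.coe_coe]
      rw [hφ']
      rw [ContinuousLinearEquiv.symm_apply_eq, ← hx]
      rfl
    · rintro ⟨q', rfl⟩
      obtain ⟨x, rfl⟩ := hT q'
      simp only [ContinuousLinearMap.coe_comp, comp_apply, ContinuousLinearEquiv.coe_coe,
        ContinuousLinearEquiv.apply_symm_apply]
      rw [hφ']
      simp only [ContinuousLinearMap.coe_comp, comp_apply]
      rw [hp]
      exact (hjr _).2 ⟨x, rfl⟩

end selfcopy

end Pool.Agent.H5.Auto
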