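import Mathlib

/-!
The Banach space `c₀(E)` (as `ZeroAtInftyContinuousMap ℕ E`), its decompositions, and the
decomposition theorem of Pełczyński for `c₀`.
-/

set_option autoImplicit false

namespace Pool.Agent.H5.Auto

open Function Filter Topology

/-- `c₀(E)`. -/
abbrev c0 (E : Type*) [NormedAddCommGroup E] : Type _ := ZeroAtInftyContinuousMap ℕ E

section c0basic

variable {X E F : Type*}
  [NormedAddCommGroup X] [NormedSpace ℝ X]
  [NormedAddCommGroup E] [NormedSpace ℝ E]
  [NormedAddCommGroup F] [NormedSpace ℝ F]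

omit [NormedSpace ℝ E] in
theorem c0_tendsto (f : c0 E) : Tendsto (fun n => f n) atTop (𝓝 0) := by
  have := f.zero_at_infty'
  rw [cocompact_eq_cofinite, Nat.cofinite_eq_atTop] at this
  exact this

/-- Build an element of `c₀(E)`. -/
def mk0 (f : ℕ → E) (hf : Tendsto f atTop (𝓝 0)) : c0 E :=
  ⟨⟨f, continuous_of_discreteTopology⟩, by
    rw [cocompact_eq_cofinite, Nat.cofinite_eq_atTop]; exact hf⟩

omit [NormedSpace ℝ E] in
@[simp] theorem mk0_apply (f : ℕ → E) (hf : Tendsto f atTop (𝓝 0)) (n : ℕ) :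
    mk0 f hf n = f n := rfl

omit [NormedSpace ℝ E] in
theorem c0_norm_apply_le (f : c0 E) (n : ℕ) : ‖f n‖ ≤ ‖f‖ := by
  rw [← ZeroAtInftyContinuousMap.norm_toBCF_eq_norm]
  exact f.toBCF.norm_coe_le_norm n

omit [NormedSpace ℝ E] in
theorem c0_norm_le {f : c0 E} {C : ℝ} (hC : 0 ≤ C) (h : ∀ n, ‖f n‖ ≤ C) : ‖f‖ ≤ C := by
  rw [← ZeroAtInftyContinuousMap.norm_toBCF_eq_norm]
  exact (BoundedContinuousFunction.norm_le hC).2 h

/-- Evaluation. -/
noncomputable def ev (n : ℕ) : c0 E →L[ℝ] E :=
  LinearMap.mkContinuous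
    { toFun := fun f => f n
      map_add' := fun _ _ => rfl
      map_smul' := fun _ _ => rfl } 1 (fun f => by
        simpa using c0_norm_apply_le f n)

@[simp] theorem ev_apply (n : ℕ) (f : c0 E) : ev n f = f n := rfl

/-- Build a map to `c₀(E)` from its coordinates. -/
noncomputable def toC0 (g : ℕ → X →L[ℝ] E) (C : ℝ) (hC : ∀ n x, ‖g n x‖ ≤ C * ‖x‖)
    (h0 : ∀ x, Tendsto (fun n => g n x) atTop (𝓝 0)) : X →L[ℝ] c0 E :=
  LinearMap.mkContinuous
    { toFun := fun x => mk0 (fun n => g n x) (h0 x)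
      map_add' := fun x y => by
        ext n; simp
      map_smul' := fun c x => by
        ext n; simp } (max C 0) (fun x => by
        refine c0_norm_le (by positivity) (fun n => ?_)
        refine (hC n x).trans ?_
        exact mul_le_mul_of_nonneg_right (le_max_left _ _) (norm_nonneg _))

@[simp] theorem toC0_apply (g : ℕ → X →L[ℝ] E) (C : ℝ) (hC : ∀ n x, ‖g n x‖ ≤ C * ‖x‖)
    (h0 : ∀ x, Tendsto (fun n => g n x) atTop (𝓝 0)) (x : X) (n : ℕ) :
    toC0 g C hC h0 x n = g n x := rfl

/-- Functoriality of `c₀`. -/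
noncomputable def c0map (L : E →L[ℝ] F) : c0 E →L[ℝ] c0 F :=
  toC0 (fun n => L.comp (ev n)) ‖L‖
    (fun n f => by
      simp only [ContinuousLinearMap.coe_comp, comp_apply, ev_apply]
      exact (L.le_opNorm _).trans
        (mul_le_mul_of_nonneg_left (c0_norm_apply_le f n) (norm_nonneg _)))
    (fun f => by
      have := (L.continuous.tendsto 0).comp (c0_tendsto f)
      rw [map_zero] at this
      exact this)

@[simp] theorem c0map_apply (L : E →L[ℝ] F) (f : c0 E) (n : ℕ) : c0map L f n = L (f n) := rfl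

/-- `c₀` of isomorphic spaces. -/
noncomputable def c0congr (e : E ≃L[ℝ] F) : c0 E ≃L[ℝ] c0 F :=
  ContinuousLinearEquiv.equivOfInverse (c0map (e : E →L[ℝ] F)) (c0map (e.symm : F →L[ℝ] E))
    (fun f => by ext n; simp) (fun f => by ext n; simp)

/-- `c₀(E × F) ≅ c₀(E) × c₀(F)`. -/
noncomputable def c0prod : c0 (E × F) ≃L[ℝ] c0 E × c0 F :=
  ContinuousLinearEquiv.equivOfInverse
    ((c0map (ContinuousLinearMap.fst ℝ E F)).prod (c0map (ContinuousLinearMap.snd ℝ E F)))
    ((c0map (ContinuousLinearMap.inl ℝ E F)).coprod (c0map (ContinuousLinearMap.inr ℝ E F)))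
    (fun f => by ext n <;> simp) (fun f => by ext n <;> simp)

/-- `c₀(E) ≅ E × c₀(E)`. -/
noncomputable def c0cons : c0 E ≃L[ℝ] E × c0 E :=
  ContinuousLinearEquiv.equivOfInverse
    ((ev 0).prod (toC0 (fun n => ev (n + 1)) 1 (fun n f => by
      simpa using c0_norm_apply_le f (n + 1)) (fun f =>
        (c0_tendsto f).comp (tendsto_add_atTop_nat 1))))
    (toC0 (fun n => match n with
        | 0 => ContinuousLinearMap.fst ℝ E (c0 E)
        | (n + 1) => (ev n).comp (ContinuousLinearMap.snd ℝ E (c0 E))) 1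
      (fun n x => by
        cases n with
        | zero => simpa using norm_fst_le x
        | succ n => simpa using (c0_norm_apply_le x.2 n).trans (norm_snd_le x))
      (fun x => by
        rw [← tendsto_add_atTop_iff_nat 1]
        simpa using c0_tendsto x.2))
    (fun f => by
      ext n
      cases n with
      | zero => rfl
      | succ n => rfl)
    (fun x => by
      refine Prod.ext rfl ?_
      ext n; rfl)

omit [NormedSpace ℝ E] in
theorem c0_pair_tendsto (f : c0 (c0 E)) :
    Tendsto (fun n : ℕ => f n.unpair.1 n.unpair.2) atTop (𝓝 0) := by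
  rw [← Nat.cofinite_eq_atTop]
  have key : Tendsto (fun p : ℕ × ℕ => f p.1 p.2) cofinite (𝓝 0) := by
    rw [Metric.tendsto_nhds]
    intro ε hε
    have h1 : ∀ᶠ i in atTop, ‖f i‖ < ε := by
      have := c0_tendsto f
      rw [Metric.tendsto_nhds] at this
      simpa using this ε hε
    rw [← Nat.cofinite_eq_atTop, eventually_cofinite] at h1
    have h2 : ∀ i, {j | ¬ ‖f i j‖ < ε}.Finite := by
      intro i
      have := c0_tendsto (f i)
      rw [Metric.tendsto_nhds] at this
      have := this ε hε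
      rw [← Nat.cofinite_eq_atTop, eventually_cofinite] at this
      simpa using this
    rw [eventually_cofinite]
    refine (h1.biUnion (fun i _ => (h2 i).image (fun j => (i, j)))).subset ?_
    rintro ⟨i, j⟩ hij
    simp only [Set.mem_iUnion, Set.mem_image, Set.mem_ofPred_eq]
    have hij' : ¬ ‖f i j‖ < ε := by simpa using hij
    exact ⟨i, fun h => hij' ((c0_norm_apply_le (f i) j).trans_lt h), j, hij', rfl⟩
  have hinj : Injective (Nat.unpair : ℕ → ℕ × ℕ) := Nat.pairEquiv.symm.injective
  exact key.comp hinj.tendsto_cofinite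

/-- `c₀(c₀(E)) ≅ c₀(E)`. -/
noncomputable def c0c0 : c0 (c0 E) ≃L[ℝ] c0 E :=
  ContinuousLinearEquiv.equivOfInverse
    (toC0 (fun n => (ev n.unpair.2).comp (ev n.unpair.1)) 1
      (fun n f => by
        simpa using (c0_norm_apply_le (f n.unpair.1) n.unpair.2).trans
          (c0_norm_apply_le f n.unpair.1))
      (fun f => c0_pair_tendsto f))
    (toC0 (fun i => toC0 (fun j => ev (Nat.pair i j)) 1
        (fun j f => by simpa using c0_norm_apply_le f _)
        (fun f => (c0_tendsto f).comp (tendsto_atTop_mono (fun j => Nat.right_le_pair i j)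
          tendsto_id))) 1
      (fun i f => by
        rw [one_mul]
        exact c0_norm_le (norm_nonneg _) (fun j => c0_norm_apply_le f _))
      (fun f => by
        rw [Metric.tendsto_nhds]
        intro ε hε
        have := c0_tendsto f
        rw [Metric.tendsto_nhds] at this
        obtain ⟨N, hN⟩ := eventually_atTop.1 (this (ε / 2) (half_pos hε))
        filter_upwards [eventually_ge_atTop N] with i hi
        rw [dist_zero_right]
        refine lt_of_le_of_lt (c0_norm_le (half_pos hε).le (fun j => ?_)) (half_lt_self hε)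
        have := hN (Nat.pair i j) (hi.trans (Nat.left_le_pair i j))
        rw [dist_zero_right] at this
        exact this.le))
    (fun f => by
      ext i j
      change f (Nat.pair i j).unpair.1 (Nat.pair i j).unpair.2 = f i j
      rw [Nat.unpair_pair])
    (fun f => by
      ext n
      change f (Nat.pair n.unpair.1 n.unpair.2) = f n
      rw [Nat.pair_unpair])

/-- `c₀ ≅ c₀ × c₀`. -/
theorem c0_sq : Nonempty (c0 ℝ ≃L[ℝ] c0 ℝ × c0 ℝ) := by
  have e1 : c0 ℝ ≃L[ℝ] c0 (c0 ℝ) := c0c0.symm
  have e2 : c0 (c0 ℝ) ≃L[ℝ] c0 (ℝ × c0 ℝ) := c0congr c0cons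
  have e3 : c0 (ℝ × c0 ℝ) ≃L[ℝ] (c0 ℝ × c0 (c0 ℝ)) := c0prod
  have e4 : (c0 ℝ × c0 (c0 ℝ)) ≃L[ℝ] (c0 ℝ × c0 ℝ) :=
    (ContinuousLinearEquiv.refl ℝ (c0 ℝ)).prodCongr c0c0
  exact ⟨((e1.trans e2).trans e3).trans e4⟩

theorem c0_not_fd : ¬ FiniteDimensional ℝ (c0 ℝ) := by
  intro h
  have hli : LinearIndependent ℝ (fun n : ℕ => mk0 (fun k => if k = n then (1 : ℝ) else 0)
      (by
        refine tendsto_const_nhds.congr' ?_
        filter_upwards [eventually_gt_atTop n] with k hk
        rw [if_neg (by omega)])) := by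
    rw [linearIndependent_iff']
    intro s g hg i hi
    have := congrArg (fun f : c0 ℝ => ev i f) hg
    simp only [map_sum, map_smul, ev_apply, mk0_apply, smul_eq_mul, mul_ite, mul_one, mul_zero,
      Finset.sum_ite_eq, hi, if_true] at this
    simpa using this
  exact absurd hli.finite (by rw [not_finite_iff_infinite]; infer_instance)

end c0basic

end Pool.Agent.H5.Auto
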