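import Pool.Agent.H5.Auto.CZero

/-!
Infinite-dimensional closed subspaces of `c₀` contain `c₀` complementably (gliding hump), and
infinite-dimensional complemented subspaces of `c₀` are isomorphic to `c₀`.
-/

set_option autoImplicit false

namespace Pool.Agent.H5.Auto

open Function Filter Topology

section glide

variable {V : Type*} [NormedAddCommGroup V] [NormedSpace ℝ V]

theorem glide_step (ι : V →L[ℝ] c0 ℝ) (hι : Injective ι) (hV : ¬ FiniteDimensional ℝ V)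
    (m : ℕ) (ε : ℝ) (hε : 0 < ε) :
    ∃ (v : V) (k m' : ℕ), (∀ i < m, ι v i = 0) ∧ (∀ i, |ι v i| ≤ 2) ∧ ι v k = 1 ∧ m ≤ k ∧
      k < m' ∧ ∀ i ≥ m', |ι v i| ≤ ε := by
  -- a nonzero vector killed by the first `m` coordinates
  let L : V →ₗ[ℝ] (Fin m → ℝ) := LinearMap.pi (fun i => ((ev (i : ℕ)).comp ι : V →L[ℝ] ℝ))
  have hL : ¬ Injective L := fun h => hV (FiniteDimensional.of_injective L h)
  obtain ⟨v, hv0, hv⟩ : ∃ v, L v = 0 ∧ v ≠ 0 := by
    by_contra hcon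
    push Not at hcon
    exact hL ((injective_iff_map_eq_zero L).2 hcon)
  have hvi : ∀ i < m, ι v i = 0 := by
    intro i hi
    have := congrFun hv0 ⟨i, hi⟩
    simpa [L] using this
  have hf : ι v ≠ 0 := fun h => hv (hι (by rw [h, map_zero]))
  have hfn : 0 < ‖ι v‖ := norm_pos_iff.2 hf
  obtain ⟨k, hk⟩ : ∃ k, ‖ι v‖ / 2 ≤ |ι v k| := by
    by_contra hcon
    push Not at hcon
    have : ‖ι v‖ ≤ ‖ι v‖ / 2 := c0_norm_le (by positivity) (fun n => (hcon n).le)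
    linarith
  have hk0 : 0 < |ι v k| := lt_of_lt_of_le (by positivity) hk
  have hk0' : ι v k ≠ 0 := abs_pos.1 hk0
  set w : V := (ι v k)⁻¹ • v with hw
  have hwi : ∀ i, ι w i = (ι v k)⁻¹ * ι v i := by
    intro i; rw [hw, map_smul]; rfl
  obtain ⟨m', hm'⟩ : ∃ m', k < m' ∧ ∀ i ≥ m', |ι w i| ≤ ε := by
    have := c0_tendsto (ι w)
    rw [Metric.tendsto_nhds] at this
    obtain ⟨N, hN⟩ := eventually_atTop.1 (this ε hε)
    refine ⟨max N (k + 1), by omega, fun i hi => ?_⟩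
    have := hN i ((le_max_left _ _).trans hi)
    rw [dist_zero_right, Real.norm_eq_abs] at this
    exact this.le
  refine ⟨w, k, m', fun i hi => by rw [hwi, hvi i hi, mul_zero], fun i => ?_, ?_, ?_, hm'.1, hm'.2⟩
  · rw [hwi, abs_mul, abs_inv, inv_mul_le_iff₀ hk0]
    have h1 : |ι v i| ≤ ‖ι v‖ := c0_norm_apply_le (ι v) i
    linarith
  · rw [hwi]; exact inv_mul_cancel₀ hk0'
  · by_contra hcon
    exact hk0' (hvi k (by omega))

/-- The sequence produced by the gliding hump. -/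
theorem glide_seq (ι : V →L[ℝ] c0 ℝ) (hι : Injective ι) (hV : ¬ FiniteDimensional ℝ V) :
    ∃ (v : ℕ → V) (k m : ℕ → ℕ), m 0 = 0 ∧ ∀ n, (∀ i < m n, ι (v n) i = 0) ∧
      (∀ i, |ι (v n) i| ≤ 2) ∧ ι (v n) (k n) = 1 ∧ m n ≤ k n ∧ k n < m (n + 1) ∧
      ∀ i ≥ m (n + 1), |ι (v n) i| ≤ (1 / 4 : ℝ) ^ (n + 2) := by
  choose v k m' h1 h2 h3 h4 h5 h6 using fun (m n : ℕ) =>
    glide_step ι hι hV m ((1 / 4 : ℝ) ^ (n + 2)) (by positivity)
  let m : ℕ → ℕ := fun n => Nat.rec 0 (fun n mn => m' mn n) n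
  have hm : ∀ n, m (n + 1) = m' (m n) n := fun n => rfl
  refine ⟨fun n => v (m n) n, fun n => k (m n) n, m, rfl, fun n => ⟨h1 _ _, h2 _ _, h3 _ _,
    h4 _ _, ?_, ?_⟩⟩
  · rw [hm]; exact h5 _ _
  · rw [hm]; exact h6 _ _

theorem sum_quarter (s : Finset ℕ) : ∑ n ∈ s, (1 / 4 : ℝ) ^ (n + 2) ≤ 1 / 12 := by
  have h : HasSum (fun n : ℕ => (1 / 4 : ℝ) ^ (n + 2)) (1 / 12) := by
    have := (hasSum_geometric_of_lt_one (r := (1 / 4 : ℝ)) (by norm_num) (by norm_num)).mul_left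
      ((1 / 4 : ℝ) ^ 2)
    have e1 : (fun n : ℕ => (1 / 4 : ℝ) ^ (n + 2)) = fun n => (1 / 4 : ℝ) ^ 2 * (1 / 4 : ℝ) ^ n := by
      funext n; rw [pow_add]; ring
    have e2 : (1 / 12 : ℝ) = (1 / 4 : ℝ) ^ 2 * (1 - 1 / 4)⁻¹ := by norm_num
    rw [e1, e2]; exact this
  exact sum_le_hasSum s (fun n _ => by positivity) h

/-- If all finite combinations `∑ a n • v n` are bounded by `D * sup |a n|`, then `a ↦ ∑ a n • v n`
defines a bounded operator on `c₀`. -/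
theorem exists_c0_map [CompleteSpace V] (v : ℕ → V) {D : ℝ} (hD : 0 < D)
    (hpart : ∀ (a : ℕ → ℝ) (C : ℝ) (s : Finset ℕ), 0 ≤ C → (∀ n ∈ s, |a n| ≤ C) →
      ‖∑ n ∈ s, a n • v n‖ ≤ D * C) :
    ∃ S : c0 ℝ →L[ℝ] V, ∀ a : c0 ℝ, HasSum (fun n => a n • v n) (S a) := by
  have hsum : ∀ a : c0 ℝ, Summable (fun n => a n • v n) := by
    intro a
    rw [summable_iff_vanishing_norm]
    intro ε hε
    have hta := c0_tendsto a
    rw [← Nat.cofinite_eq_atTop, Metric.tendsto_nhds] at hta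
    have h := hta (ε / (2 * D)) (by positivity)
    rw [eventually_cofinite] at h
    refine ⟨h.toFinset, fun t ht => ?_⟩
    have : ‖∑ n ∈ t, a n • v n‖ ≤ D * (ε / (2 * D)) := by
      refine hpart a _ t (by positivity) (fun n hn => ?_)
      by_contra hcon
      have hmem : n ∈ h.toFinset := by
        rw [Set.Finite.mem_toFinset]
        intro hlt
        rw [dist_zero_right, Real.norm_eq_abs] at hlt
        exact hcon hlt.le
      exact (Finset.disjoint_left.1 ht hn) hmem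
    refine this.trans_lt ?_
    rw [show D * (ε / (2 * D)) = ε / 2 * (D / D) by field_simp, div_self hD.ne']
    linarith
  let S : c0 ℝ →L[ℝ] V := LinearMap.mkContinuous
    { toFun := fun a => ∑' n, a n • v n
      map_add' := fun a b => by
        rw [← (hsum a).tsum_add (hsum b)]
        refine tsum_congr (fun n => ?_)
        rw [ZeroAtInftyContinuousMap.add_apply, add_smul]
      map_smul' := fun r a => by
        rw [RingHom.id_apply, ← (hsum a).tsum_const_smul r]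
        refine tsum_congr (fun n => ?_)
        rw [ZeroAtInftyContinuousMap.smul_apply, smul_eq_mul, mul_smul] } D (fun a => by
      have ht := (hsum a).hasSum.tendsto_sum_nat
      refine le_of_tendsto ht.norm (Eventually.of_forall (fun N => ?_))
      exact hpart a _ _ (norm_nonneg _) (fun n _ => c0_norm_apply_le a n))
  exact ⟨S, fun a => (hsum a).hasSum⟩

/-- An infinite-dimensional Banach space that embeds in `c₀` contains `c₀` complementably. -/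
theorem exists_c0_complemented [CompleteSpace V] (ι : V →L[ℝ] c0 ℝ) {c : ℝ} (hc : 0 < c)
    (hιc : ∀ v, c * ‖v‖ ≤ ‖ι v‖) (hV : ¬ FiniteDimensional ℝ V) :
    ∃ (S : c0 ℝ →L[ℝ] V) (P : V →L[ℝ] c0 ℝ), ∀ a, P (S a) = a := by
  have hι : Injective ι := by
    rw [injective_iff_map_eq_zero]
    intro v hv
    have := hιc v
    rw [hv, norm_zero] at this
    have h2 : ‖v‖ ≤ 0 := by
      by_contra hcon
      push Not at hcon
      have := mul_pos hc hcon
      linarith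
    exact norm_le_zero_iff.1 h2
  obtain ⟨v, k, m, hm0, hall⟩ := glide_seq ι hι hV
  have h1 : ∀ n, ∀ i < m n, ι (v n) i = 0 := fun n => (hall n).1
  have h2 : ∀ n i, |ι (v n) i| ≤ 2 := fun n => (hall n).2.1
  have h3 : ∀ n, ι (v n) (k n) = 1 := fun n => (hall n).2.2.1
  have h4 : ∀ n, m n ≤ k n := fun n => (hall n).2.2.2.1
  have h5 : ∀ n, k n < m (n + 1) := fun n => (hall n).2.2.2.2.1
  have h6 : ∀ n, ∀ i ≥ m (n + 1), |ι (v n) i| ≤ (1 / 4 : ℝ) ^ (n + 2) :=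
    fun n => (hall n).2.2.2.2.2
  have hmono : StrictMono m := strictMono_nat_of_lt_succ (fun n => (h4 n).trans_lt (h5 n))
  have hkt : Tendsto k atTop atTop :=
    tendsto_atTop_mono (fun n => (hmono.id_le n).trans (h4 n)) tendsto_id
  -- each coordinate has small total mass
  have hcoord : ∀ (s : Finset ℕ) (i : ℕ), ∑ n ∈ s, |ι (v n) i| ≤ 3 := by
    intro s i
    obtain ⟨n0, hn0⟩ : ∃ n0, i < m (n0 + 1) ∧ ∀ n < n0, m (n + 1) ≤ i := by
      classical
      have hex : ∃ n, i < m (n + 1) := ⟨i, lt_of_lt_of_le (Nat.lt_succ_self i) (hmono.id_le _)⟩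
      exact ⟨Nat.find hex, Nat.find_spec hex, fun n hn => not_lt.1 (Nat.find_min hex hn)⟩
    have hb : ∀ n, |ι (v n) i| ≤ (if n = n0 then 2 else 0) + (1 / 4 : ℝ) ^ (n + 2) := by
      intro n
      rcases lt_trichotomy n n0 with h | h | h
      · rw [if_neg h.ne, zero_add]
        exact h6 n i (hn0.2 n h)
      · subst h
        rw [if_pos rfl]
        have : (0 : ℝ) ≤ (1 / 4 : ℝ) ^ (n + 2) := by positivity
        linarith [h2 n i]
      · have : i < m n := lt_of_lt_of_le hn0.1 (hmono.monotone h)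
        rw [h1 n i this, abs_zero]
        split_ifs <;> positivity
    calc ∑ n ∈ s, |ι (v n) i| ≤ ∑ n ∈ s, ((if n = n0 then (2 : ℝ) else 0) + (1 / 4 : ℝ) ^ (n + 2)) :=
          Finset.sum_le_sum (fun n _ => hb n)
      _ = ∑ n ∈ s, (if n = n0 then (2 : ℝ) else 0) + ∑ n ∈ s, (1 / 4 : ℝ) ^ (n + 2) :=
          Finset.sum_add_distrib
      _ ≤ 2 + 1 / 12 := by
          refine add_le_add ?_ (sum_quarter s)
          rw [Finset.sum_ite_eq']
          split_ifs <;> norm_num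
      _ ≤ 3 := by norm_num
  have hpart : ∀ (a : ℕ → ℝ) (C : ℝ) (s : Finset ℕ), 0 ≤ C → (∀ n ∈ s, |a n| ≤ C) →
      ‖∑ n ∈ s, a n • v n‖ ≤ 3 / c * C := by
    intro a C s hC ha
    have h := hιc (∑ n ∈ s, a n • v n)
    have hle : ‖ι (∑ n ∈ s, a n • v n)‖ ≤ 3 * C := by
      refine c0_norm_le (by positivity) (fun i => ?_)
      have hi : ι (∑ n ∈ s, a n • v n) i = ∑ n ∈ s, a n * ι (v n) i := by
        change ev i (ι (∑ n ∈ s, a n • v n)) = _
        rw [map_sum, map_sum]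
        refine Finset.sum_congr rfl (fun n _ => ?_)
        rw [map_smul, map_smul]; rfl
      rw [hi, Real.norm_eq_abs]
      calc |∑ n ∈ s, a n * ι (v n) i| ≤ ∑ n ∈ s, |a n * ι (v n) i| :=
            Finset.abs_sum_le_sum_abs _ _
        _ ≤ ∑ n ∈ s, C * |ι (v n) i| := by
            refine Finset.sum_le_sum (fun n hn => ?_)
            rw [abs_mul]
            exact mul_le_mul_of_nonneg_right (ha n hn) (abs_nonneg _)
        _ = C * ∑ n ∈ s, |ι (v n) i| := by rw [Finset.mul_sum]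
        _ ≤ C * 3 := mul_le_mul_of_nonneg_left (hcoord s i) hC
        _ = 3 * C := by ring
    rw [div_mul_eq_mul_div, le_div_iff₀ hc]
    linarith
  obtain ⟨S, hSsum⟩ := exists_c0_map v (D := 3 / c) (by positivity) hpart
  let P0 : V →L[ℝ] c0 ℝ := toC0 (fun n => (ev (k n)).comp ι) ‖ι‖
    (fun n x => (c0_norm_apply_le (ι x) (k n)).trans (ι.le_opNorm x))
    (fun x => (c0_tendsto (ι x)).comp hkt)
  have hP0 : ∀ x n, P0 x n = ι x (k n) := fun x n => rfl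
  have hPS : ∀ (a : c0 ℝ) n, |P0 (S a) n - a n| ≤ 1 / 12 * ‖a‖ := by
    intro a n
    have hs : HasSum (fun l => a l * ι (v l) (k n)) (P0 (S a) n) := by
      have := (hSsum a).mapL ((ev (k n)).comp ι)
      simpa [hP0] using this
    have hs2 : HasSum (fun l => if l = n then a n else 0) (a n) := hasSum_ite_eq n (a n)
    have hs3 := hs.sub hs2
    have hbd : ∀ l, ‖a l * ι (v l) (k n) - (if l = n then a n else 0)‖ ≤
        (1 / 4 : ℝ) ^ (l + 2) * ‖a‖ := by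
      intro l
      have hal : |a l| ≤ ‖a‖ := c0_norm_apply_le a l
      rcases lt_trichotomy l n with h | h | h
      · rw [if_neg h.ne, sub_zero, Real.norm_eq_abs, abs_mul, mul_comm]
        refine mul_le_mul (h6 l (k n) ((hmono.monotone (by omega)).trans (h4 n))) hal
          (abs_nonneg _) (by positivity)
      · subst h
        rw [if_pos rfl, h3, mul_one, sub_self, norm_zero]
        positivity
      · rw [if_neg h.ne', h1 l (k n) ((h5 n).trans_le (hmono.monotone (by omega))), mul_zero,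
          sub_zero, norm_zero]
        positivity
    have hlim := hs3.tendsto_sum_nat
    refine le_of_tendsto hlim.norm (Eventually.of_forall (fun N => ?_))
    calc ‖∑ l ∈ Finset.range N, (a l * ι (v l) (k n) - (if l = n then a n else 0))‖
        ≤ ∑ l ∈ Finset.range N, ‖a l * ι (v l) (k n) - (if l = n then a n else 0)‖ :=
          norm_sum_le _ _
      _ ≤ ∑ l ∈ Finset.range N, (1 / 4 : ℝ) ^ (l + 2) * ‖a‖ :=
          Finset.sum_le_sum (fun l _ => hbd l)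
      _ = (∑ l ∈ Finset.range N, (1 / 4 : ℝ) ^ (l + 2)) * ‖a‖ := by rw [Finset.sum_mul]
      _ ≤ 1 / 12 * ‖a‖ := mul_le_mul_of_nonneg_right (sum_quarter _) (norm_nonneg _)
  have hnorm : ‖(1 : c0 ℝ →L[ℝ] c0 ℝ) - P0.comp S‖ < 1 := by
    have : ‖(1 : c0 ℝ →L[ℝ] c0 ℝ) - P0.comp S‖ ≤ 1 / 12 := by
      refine ContinuousLinearMap.opNorm_le_bound _ (by norm_num) (fun a => ?_)
      refine c0_norm_le (by positivity) (fun n => ?_)
      have h := hPS a n
      rw [abs_sub_comm] at h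
      exact h
    linarith
  let u := Units.oneSub ((1 : c0 ℝ →L[ℝ] c0 ℝ) - P0.comp S) hnorm
  have hu : (u : c0 ℝ →L[ℝ] c0 ℝ) = P0.comp S := by
    simp [u]
  refine ⟨S, ((u⁻¹ : (c0 ℝ →L[ℝ] c0 ℝ)ˣ) : c0 ℝ →L[ℝ] c0 ℝ).comp P0, fun a => ?_⟩
  have h := u.inv_mul
  have h' : ((u⁻¹ : (c0 ℝ →L[ℝ] c0 ℝ)ˣ) : c0 ℝ →L[ℝ] c0 ℝ) ((u : c0 ℝ →L[ℝ] c0 ℝ) a) = a := by
    exact congrArg (fun f : c0 ℝ →L[ℝ] c0 ℝ => f a) h
  rw [hu] at h'
  exact h'

end glide

section pelczynski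

variable {V R S' : Type*} [NormedAddCommGroup V] [NormedSpace ℝ V]
  [NormedAddCommGroup R] [NormedSpace ℝ R]
  [NormedAddCommGroup S'] [NormedSpace ℝ S']

/-- An infinite-dimensional Banach space that embeds in `c₀` absorbs `c₀`. -/
theorem absorbs_c0_of_embeds [CompleteSpace V] (ι : V →L[ℝ] c0 ℝ) {c : ℝ} (hc : 0 < c)
    (hιc : ∀ v, c * ‖v‖ ≤ ‖ι v‖) (hV : ¬ FiniteDimensional ℝ V) :
    Nonempty (V ≃L[ℝ] V × c0 ℝ) := by
  obtain ⟨S, P, hPS⟩ := exists_c0_complemented ι hc hιc hV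
  have e1 : V ≃L[ℝ] c0 ℝ × P.ker := ContinuousLinearEquiv.equivOfRightInverse P S hPS
  obtain ⟨e2⟩ := c0_sq
  have e3 : (c0 ℝ × P.ker) ≃L[ℝ] ((c0 ℝ × c0 ℝ) × P.ker) :=
    e2.prodCongr (ContinuousLinearEquiv.refl ℝ P.ker)
  have e4 : ((c0 ℝ × c0 ℝ) × P.ker) ≃L[ℝ] (c0 ℝ × (c0 ℝ × P.ker)) :=
    ContinuousLinearEquiv.prodAssoc ℝ _ _ _
  have e5 : (c0 ℝ × (c0 ℝ × P.ker)) ≃L[ℝ] (c0 ℝ × V) :=
    (ContinuousLinearEquiv.refl ℝ (c0 ℝ)).prodCongr e1.symm
  exact ⟨(((e1.trans e3).trans e4).trans e5).trans (ContinuousLinearEquiv.prodComm ℝ _ _)⟩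

/-- **Pełczyński**: an infinite-dimensional complemented subspace of `c₀` is isomorphic to
`c₀`. -/
theorem equiv_c0_of_complemented [CompleteSpace R] (e : c0 ℝ ≃L[ℝ] R × S')
    (hR : ¬ FiniteDimensional ℝ R) : Nonempty (R ≃L[ℝ] c0 ℝ) := by
  -- `R` embeds in `c₀`
  let ι : R →L[ℝ] c0 ℝ := (e.symm : (R × S') →L[ℝ] c0 ℝ).comp (ContinuousLinearMap.inl ℝ R S')
  obtain ⟨c, hc, hιc⟩ : ∃ c : ℝ, 0 < c ∧ ∀ v, c * ‖v‖ ≤ ‖ι v‖ := by
    refine ⟨(‖(e : c0 ℝ →L[ℝ] R × S')‖ + 1)⁻¹, by positivity, fun v => ?_⟩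
    rw [inv_mul_le_iff₀ (by positivity)]
    have h1 : ‖e (ι v)‖ ≤ ‖(e : c0 ℝ →L[ℝ] R × S')‖ * ‖ι v‖ :=
      (e : c0 ℝ →L[ℝ] R × S').le_opNorm (ι v)
    have h2 : e (ι v) = (v, 0) := by simp [ι]
    rw [h2] at h1
    have h3 : ‖v‖ ≤ ‖((v, 0) : R × S')‖ := norm_fst_le ((v, 0) : R × S')
    have h4 : 0 ≤ ‖ι v‖ := norm_nonneg _
    nlinarith
  obtain ⟨e1⟩ := absorbs_c0_of_embeds ι hc hιc hR
  -- `c₀ ≅ c₀(c₀) ≅ c₀(R × S') ≅ c₀(R) × c₀(S') ≅ R × c₀(R) × c₀(S') ≅ R × c₀`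
  have f1 : c0 ℝ ≃L[ℝ] c0 R × c0 S' := (c0c0.symm.trans (c0congr e)).trans c0prod
  have f2 : (c0 R × c0 S') ≃L[ℝ] ((R × c0 R) × c0 S') :=
    c0cons.prodCongr (ContinuousLinearEquiv.refl ℝ (c0 S'))
  have f3 : ((R × c0 R) × c0 S') ≃L[ℝ] (R × (c0 R × c0 S')) :=
    ContinuousLinearEquiv.prodAssoc ℝ _ _ _
  have f4 : (R × (c0 R × c0 S')) ≃L[ℝ] (R × c0 ℝ) :=
    (ContinuousLinearEquiv.refl ℝ R).prodCongr f1.symm
  exact ⟨e1.trans (((f1.trans f2).trans f3).trans f4).symm⟩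

end pelczynski

end Pool.Agent.H5.Auto
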