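import Mathlib

/-!
Separable infinite-dimensional Hilbert spaces, their quotients and closed subspaces.
-/

set_option autoImplicit false

namespace Pool.Agent.H5.Auto

open Function Filter Topology Metric

/-- `ℓ²`. -/
abbrev l2 : Type := lp (fun _ : ℕ => ℝ) 2

section hilb

variable {H : Type*} [NormedAddCommGroup H] [InnerProductSpace ℝ H] [CompleteSpace H]

theorem equiv_l2 [TopologicalSpace.SeparableSpace H] (hH : ¬ FiniteDimensional ℝ H) :
    Nonempty (H ≃L[ℝ] l2) := by
  classical
  obtain ⟨w, b, hb⟩ := exists_hilbertBasis ℝ H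
  have hort : Orthonormal ℝ ((↑) : w → H) := by rw [← hb]; exact b.orthonormal
  have hdist : ∀ x ∈ w, ∀ y ∈ w, x ≠ y → 1 ≤ dist x y := by
    intro x hx y hy hxy
    have h1 : inner ℝ x y = 0 := hort.2 (i := ⟨x, hx⟩) (j := ⟨y, hy⟩) (by
      intro h; exact hxy (congrArg Subtype.val h))
    have hx1 : ‖x‖ = 1 := hort.1 ⟨x, hx⟩
    have hy1 : ‖y‖ = 1 := hort.1 ⟨y, hy⟩
    rw [dist_eq_norm]
    have h2 : ‖x - y‖ ^ 2 = 2 := by
      rw [@norm_sub_sq_real, h1, hx1, hy1]; norm_num
    nlinarith [norm_nonneg (x - y)]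
  have hcount : w.Countable := by
    refine Set.PairwiseDisjoint.countable_of_isOpen (s := fun x : H => ball x (1 / 2)) ?_
      (fun i _ => isOpen_ball) (fun i _ => ⟨i, mem_ball_self (by norm_num)⟩)
    intro x hx y hy hxy
    refine ball_disjoint_ball ?_
    have := hdist x hx y hy hxy
    norm_num; exact this
  have hinf : Infinite w := by
    by_contra hcon
    rw [not_infinite_iff_finite] at hcon
    have : Fintype w := Fintype.ofFinite w
    exact hH b.toOrthonormalBasis.toBasis.finiteDimensional_of_finite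
  have hc : Countable w := hcount.to_subtype
  obtain ⟨e⟩ : Nonempty (w ≃ ℕ) := ⟨(nonempty_denumerable w).some.eqv⟩
  let v : ℕ → H := fun n => b (e.symm n)
  have hv : Orthonormal ℝ v := b.orthonormal.comp _ e.symm.injective
  have hspan : ⊤ ≤ (Submodule.span ℝ (Set.range v)).topologicalClosure := by
    have : Set.range v = Set.range b := e.symm.surjective.range_comp b
    rw [this, b.dense_span]
  exact ⟨(HilbertBasis.mk hv hspan).repr.toContinuousLinearEquiv⟩

variable {V : Type*} [NormedAddCommGroup V] [NormedSpace ℝ V]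

/-- A separable infinite-dimensional Banach space which embeds in a Hilbert space is isomorphic
to `ℓ²`. -/
theorem equiv_l2_of_embeds [CompleteSpace V] [TopologicalSpace.SeparableSpace V]
    (ι : V →L[ℝ] H) (hι : Injective ι) (hcl : IsClosed (Set.range ι))
    (hV : ¬ FiniteDimensional ℝ V) : Nonempty (V ≃L[ℝ] l2) := by
  let e := ι.equivRange hι hcl
  have hcl' : IsClosed ((LinearMap.range (ι : V →ₗ[ℝ] H) : Submodule ℝ H) : Set H) := by
    rw [show ((LinearMap.range (ι : V →ₗ[ℝ] H) : Submodule ℝ H) : Set H) = Set.range ι by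
      ext; simp]; exact hcl
  have : CompleteSpace (LinearMap.range (ι : V →ₗ[ℝ] H)) := hcl'.completeSpace_coe
  have : TopologicalSpace.SeparableSpace (LinearMap.range (ι : V →ₗ[ℝ] H)) :=
    e.surjective.denseRange.separableSpace e.continuous
  have hfd : ¬ FiniteDimensional ℝ (LinearMap.range (ι : V →ₗ[ℝ] H)) := by
    intro h
    exact hV (e.symm.toLinearEquiv.finiteDimensional)
  obtain ⟨f⟩ := equiv_l2 hfd
  exact ⟨e.trans f⟩

/-- A quotient of a Hilbert space is isomorphic to a closed subspace of it. -/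
theorem embeds_of_quotient [CompleteSpace V] (ψ : H →L[ℝ] V) (hψ : Surjective ψ) :
    ∃ ι : V →L[ℝ] H, ∀ v, ψ (ι v) = v := by
  let K : Submodule ℝ H := LinearMap.ker (ψ : H →ₗ[ℝ] V)
  have hK : IsClosed (K : Set H) := ψ.isClosed_ker
  have : CompleteSpace K := hK.completeSpace_coe
  let r : Kᗮ →L[ℝ] V := ψ.comp Kᗮ.subtypeL
  have hker : LinearMap.ker (r : Kᗮ →ₗ[ℝ] V) = ⊥ := by
    rw [LinearMap.ker_eq_bot']
    intro x hx
    have h1 : (x : H) ∈ K := by simpa [K, r] using hx
    have h2 : inner ℝ (x : H) (x : H) = 0 := (Submodule.mem_orthogonal _ _).1 x.2 _ h1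
    exact Subtype.ext (inner_self_eq_zero.1 h2)
  have hran : LinearMap.range (r : Kᗮ →ₗ[ℝ] V) = ⊤ := by
    rw [LinearMap.range_eq_top]
    intro v
    obtain ⟨x, rfl⟩ := hψ v
    obtain ⟨y, hy, z, hz, rfl⟩ := K.exists_add_mem_mem_orthogonal x
    refine ⟨⟨z, hz⟩, ?_⟩
    have : ψ y = 0 := by simpa [K] using hy
    simp [r, this]
  let e := ContinuousLinearEquiv.ofBijective r hker hran
  refine ⟨Kᗮ.subtypeL.comp (e.symm : V →L[ℝ] Kᗮ), fun v => ?_⟩
  exact e.apply_symm_apply v

end hilb

end Pool.Agent.H5.Auto
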