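import Pool.Agent.H5.Auto.CZero

/-!
If `ℓ¹` embeds in the dual of a separable Banach space `X`, then `c₀` is a quotient of `X`.
-/

set_option autoImplicit false

namespace Pool.Agent.H5.Auto

open Function Filter Topology Metric

section surj

variable {E F : Type*} [NormedAddCommGroup E] [NormedSpace ℝ E] [CompleteSpace E]
  [NormedAddCommGroup F] [NormedSpace ℝ F]

/-- If every `y` can be approximated by images of controlled elements, the map is onto. -/
theorem surjective_of_approx (f : E →L[ℝ] F) (C : ℝ)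
    (hC : ∀ y, ∃ x, ‖f x - y‖ ≤ 1 / 2 * ‖y‖ ∧ ‖x‖ ≤ C * ‖y‖) : Surjective f := by
  choose g hg using hC
  let h : F → F := fun y => y - f (g y)
  have hle : ∀ y, ‖h y‖ ≤ 1 / 2 * ‖y‖ := by
    intro y
    rw [← norm_neg]
    simpa [h] using (hg y).1
  intro y
  have hnle : ∀ n : ℕ, ‖h^[n] y‖ ≤ (1 / 2) ^ n * ‖y‖ := by
    intro n
    induction n with
    | zero => simp
    | succ n IH =>
      rw [iterate_succ']
      refine le_trans (hle _) ?_
      rw [pow_succ', mul_assoc]
      gcongr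
  let u : ℕ → E := fun n => g (h^[n] y)
  have hC0 : 0 ≤ C ∨ ‖y‖ = 0 := by
    by_contra hcon
    push Not at hcon
    have h1 := (hg y).2
    have h2 : 0 < ‖y‖ := lt_of_le_of_ne (norm_nonneg _) (Ne.symm hcon.2)
    have h3 : C * ‖y‖ < 0 := mul_neg_of_neg_of_pos hcon.1 h2
    linarith [norm_nonneg (g y)]
  have ule : ∀ n, ‖u n‖ ≤ (1 / 2) ^ n * (max C 0 * ‖y‖) := fun n => by
    refine le_trans (hg _).2 ?_
    calc C * ‖h^[n] y‖ ≤ max C 0 * ‖h^[n] y‖ :=
          mul_le_mul_of_nonneg_right (le_max_left _ _) (norm_nonneg _)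
      _ ≤ max C 0 * ((1 / 2) ^ n * ‖y‖) :=
          mul_le_mul_of_nonneg_left (hnle n) (le_max_right _ _)
      _ = (1 / 2) ^ n * (max C 0 * ‖y‖) := by ring
  have sNu : Summable fun n => ‖u n‖ := by
    refine .of_nonneg_of_le (fun n => norm_nonneg _) ule ?_
    exact Summable.mul_right _ (summable_geometric_of_lt_one (by norm_num) (by norm_num))
  have su : Summable u := sNu.of_norm
  have fsumeq : ∀ n : ℕ, f (∑ i ∈ Finset.range n, u i) = y - h^[n] y := by
    intro n
    induction n with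
    | zero => simp [f.map_zero]
    | succ n IH => rw [Finset.sum_range_succ, f.map_add, IH, iterate_succ_apply', sub_add]
  have L₁ : Tendsto (fun n => f (∑ i ∈ Finset.range n, u i)) atTop (𝓝 (f (tsum u))) :=
    (f.continuous.tendsto _).comp su.hasSum.tendsto_sum_nat
  simp only [fsumeq] at L₁
  have L₂ : Tendsto (fun n => y - h^[n] y) atTop (𝓝 (y - 0)) := by
    refine tendsto_const_nhds.sub ?_
    rw [tendsto_iff_norm_sub_tendsto_zero]
    simp only [sub_zero]
    refine squeeze_zero (fun _ => norm_nonneg _) hnle ?_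
    rw [← zero_mul ‖y‖]
    refine (tendsto_pow_atTop_nhds_zero_of_lt_one ?_ ?_).mul tendsto_const_nhds <;> norm_num
  exact ⟨tsum u, by rw [tendsto_nhds_unique L₁ L₂, sub_zero]⟩

/-- If the adjoint is bounded below, the map is onto. -/
theorem surjective_of_dual (f : E →L[ℝ] F) {c : ℝ} (hc : 0 < c)
    (h : ∀ φ : StrongDual ℝ F, c * ‖φ‖ ≤ ‖φ.comp f‖) : Surjective f := by
  refine surjective_of_approx f (1 / c) (fun y => ?_)
  rcases eq_or_ne y 0 with rfl | hy
  · exact ⟨0, by simp, by simp⟩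
  have hy0 : 0 < ‖y‖ := norm_pos_iff.2 hy
  have hmem : y ∈ closure (f '' closedBall 0 (‖y‖ / c)) := by
    by_contra hcon
    have hconv : Convex ℝ (closure (f '' closedBall 0 (‖y‖ / c))) :=
      ((convex_closedBall (0 : E) (‖y‖ / c)).is_linear_image
        (f : E →ₗ[ℝ] F).isLinear).closure
    obtain ⟨φ, u, hφ, huy⟩ := geometric_hahn_banach_closed_point hconv isClosed_closure hcon
    have hu0 : 0 < u := by
      have : φ (f 0) < u := hφ _ (subset_closure ⟨0, by simp; positivity, rfl⟩)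
      simpa using this
    have h1 : ‖φ.comp f‖ ≤ u * c / ‖y‖ := by
      refine ContinuousLinearMap.opNorm_le_bound _ (by positivity) (fun x => ?_)
      have key : ∀ x : E, φ (f x) ≤ u * c / ‖y‖ * ‖x‖ := by
        intro x
        rcases eq_or_ne x 0 with rfl | hx
        · simp
        have hx0 : 0 < ‖x‖ := norm_pos_iff.2 hx
        have : φ (f ((‖y‖ / c / ‖x‖) • x)) < u := by
          refine hφ _ (subset_closure ⟨_, ?_, rfl⟩)
          rw [mem_closedBall, dist_zero_right, norm_smul, Real.norm_eq_abs,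
            abs_of_nonneg (by positivity), div_mul_cancel₀ _ hx0.ne']
        rw [map_smul, map_smul, smul_eq_mul] at this
        have h2 : (‖y‖ / c / ‖x‖) * φ (f x) ≤ u := this.le
        rw [div_div, div_mul_eq_mul_div, div_le_iff₀ (by positivity)] at h2
        rw [div_mul_eq_mul_div, le_div_iff₀ hy0]
        linarith
      rw [Real.norm_eq_abs, abs_le]
      constructor
      · have := key (-x)
        rw [map_neg, map_neg, norm_neg] at this
        simp only [ContinuousLinearMap.coe_comp, comp_apply]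
        linarith
      · exact key x
    have h2 := h φ
    have h3 : φ y ≤ ‖φ‖ * ‖y‖ := (le_abs_self _).trans (φ.le_opNorm y)
    have h4 : c * ‖φ‖ ≤ u * c / ‖y‖ := h2.trans h1
    rw [le_div_iff₀ hy0] at h4
    have h5 : ‖φ‖ * ‖y‖ ≤ u := by
      have : c * (‖φ‖ * ‖y‖) ≤ c * u := by linarith
      exact le_of_mul_le_mul_left this hc
    linarith
  obtain ⟨z, ⟨x, hx, rfl⟩, hz⟩ := Metric.mem_closure_iff.1 hmem (1 / 2 * ‖y‖) (by positivity)
  refine ⟨x, ?_, ?_⟩
  · rw [dist_comm, dist_eq_norm] at hz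
    exact hz.le
  · rw [mem_closedBall, dist_zero_right] at hx
    rw [div_mul_eq_mul_div, one_mul]; exact hx

end surj

section l1

variable {X : Type*} [NormedAddCommGroup X] [NormedSpace ℝ X]

/-- `c₀` unit vectors. -/
noncomputable def e0 (n : ℕ) : c0 ℝ := mk0 (fun k => if k = n then (1 : ℝ) else 0) (by
  refine tendsto_const_nhds.congr' ?_
  filter_upwards [eventually_gt_atTop n] with k hk
  rw [if_neg (by omega)])

@[simp] theorem e0_apply (n k : ℕ) : e0 n k = if k = n then (1 : ℝ) else 0 := rfl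

theorem c0_sum_apply (s : Finset ℕ) (b : ℕ → ℝ) (k : ℕ) :
    (∑ n ∈ s, b n • e0 n) k = if k ∈ s then b k else 0 := by
  change ev k (∑ n ∈ s, b n • e0 n) = _
  rw [map_sum]
  simp only [map_smul, ev_apply, e0_apply, smul_eq_mul, mul_ite, mul_one, mul_zero]
  rw [Finset.sum_ite_eq]

theorem c0_hasSum (a : c0 ℝ) : Tendsto (fun N => ∑ n ∈ Finset.range N, a n • e0 n) atTop (𝓝 a) := by
  rw [Metric.tendsto_nhds]
  intro ε hε
  have := c0_tendsto a
  rw [Metric.tendsto_nhds] at this
  obtain ⟨N, hN⟩ := eventually_atTop.1 (this (ε / 2) (half_pos hε))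
  filter_upwards [eventually_ge_atTop N] with n hn
  rw [dist_eq_norm]
  refine lt_of_le_of_lt (c0_norm_le (half_pos hε).le (fun k => ?_)) (half_lt_self hε)
  change ‖(∑ n ∈ Finset.range n, a n • e0 n) k - a k‖ ≤ ε / 2
  rw [c0_sum_apply]
  split_ifs with hk
  · rw [sub_self, norm_zero]; positivity
  · rw [Finset.mem_range, not_lt] at hk
    have := hN k (hn.trans hk)
    rw [dist_zero_right] at this
    rw [zero_sub, norm_neg]; exact this.le

theorem c0_dual_sum_le (φ : StrongDual ℝ (c0 ℝ)) (s : Finset ℕ) :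
    ∑ n ∈ s, |φ (e0 n)| ≤ ‖φ‖ := by
  let b : ℕ → ℝ := fun n => SignType.sign (φ (e0 n))
  have h1 : φ (∑ n ∈ s, b n • e0 n) = ∑ n ∈ s, |φ (e0 n)| := by
    rw [map_sum]
    refine Finset.sum_congr rfl (fun n _ => ?_)
    rw [map_smul, smul_eq_mul]
    exact sign_mul_self _
  have h2 : ‖∑ n ∈ s, b n • e0 n‖ ≤ 1 := by
    refine c0_norm_le zero_le_one (fun k => ?_)
    rw [c0_sum_apply]
    split_ifs
    · rw [Real.norm_eq_abs]
      rcases lt_trichotomy (φ (e0 k)) 0 with h | h | h
      · simp [b, sign_neg h]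
      · simp [b, h]
      · simp [b, sign_pos h]
    · simp
  rw [← h1]
  calc φ (∑ n ∈ s, b n • e0 n) ≤ ‖φ (∑ n ∈ s, b n • e0 n)‖ := le_abs_self _
    _ ≤ ‖φ‖ * ‖∑ n ∈ s, b n • e0 n‖ := φ.le_opNorm _
    _ ≤ ‖φ‖ * 1 := mul_le_mul_of_nonneg_left h2 φ.opNorm_nonneg
    _ = ‖φ‖ := mul_one _

/-- If a bounded sequence `(g n)` of functionals on `X` tends weak-* to zero and is bounded below
by the `ℓ¹` norm, then `c₀` is a quotient of `X`. -/
theorem c0_quotient_of_null [CompleteSpace X] (g : ℕ → StrongDual ℝ X) {M c : ℝ}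
    (hM : ∀ n, ‖g n‖ ≤ M) (hc : 0 < c) (h0 : ∀ x, Tendsto (fun n => g n x) atTop (𝓝 0))
    (hg : ∀ (s : Finset ℕ) (a : ℕ → ℝ), c * ∑ n ∈ s, |a n| ≤ ‖∑ n ∈ s, a n • g n‖) :
    ∃ T : X →L[ℝ] c0 ℝ, Surjective T := by
  have hM0 : 0 ≤ M := (norm_nonneg _).trans (hM 0)
  let T : X →L[ℝ] c0 ℝ := toC0 g M
    (fun n x => ((g n).le_opNorm x).trans (mul_le_mul_of_nonneg_right (hM n) (norm_nonneg _))) h0
  refine ⟨T, surjective_of_dual T hc (fun φ => ?_)⟩
  set a : ℕ → ℝ := fun n => φ (e0 n) with ha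
  have hsumm : Summable (fun n => |a n|) := by
    refine summable_of_sum_le (fun n => abs_nonneg _) (fun s => c0_dual_sum_le φ s)
  -- `φ ∘ T = ∑ a n • g n`
  have hsg : Summable (fun n => a n • g n) := by
    refine Summable.of_norm_bounded (hsumm.mul_right M) (fun n => ?_)
    rw [norm_smul, Real.norm_eq_abs]
    exact mul_le_mul_of_nonneg_left (hM n) (abs_nonneg _)
  have hlim : Tendsto (fun N => ∑ n ∈ Finset.range N, a n • g n) atTop (𝓝 (φ.comp T)) := by
    have h1 := hsg.hasSum.tendsto_sum_nat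
    have h2 : ∑' n, a n • g n = φ.comp T := by
      ext x
      have h3 : Tendsto (fun N => (∑ n ∈ Finset.range N, a n • g n) x) atTop
          (𝓝 ((∑' n, a n • g n) x)) :=
        ((ContinuousLinearMap.apply ℝ ℝ x).continuous.tendsto _).comp h1
      have h4 : Tendsto (fun N => φ (∑ n ∈ Finset.range N, (T x) n • e0 n)) atTop
          (𝓝 (φ (T x))) := (φ.continuous.tendsto _).comp (c0_hasSum (T x))
      refine tendsto_nhds_unique h3 (h4.congr (fun N => ?_))
      rw [map_sum, sum_apply]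
      refine Finset.sum_congr rfl (fun n _ => ?_)
      rw [map_smul]
      change (g n x) * a n = a n * g n x
      ring
    rw [← h2]; exact h1
  have hφle : ‖φ‖ ≤ ∑' n, |a n| := by
    refine ContinuousLinearMap.opNorm_le_bound _ (tsum_nonneg (fun n => abs_nonneg _))
      (fun y => ?_)
    have h4 : Tendsto (fun N => ‖φ (∑ n ∈ Finset.range N, y n • e0 n)‖) atTop
        (𝓝 ‖φ y‖) := ((φ.continuous.tendsto _).comp (c0_hasSum y)).norm
    refine le_of_tendsto h4 (Eventually.of_forall (fun N => ?_))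
    rw [map_sum]
    calc ‖∑ n ∈ Finset.range N, φ (y n • e0 n)‖ ≤ ∑ n ∈ Finset.range N, ‖φ (y n • e0 n)‖ :=
          norm_sum_le _ _
      _ ≤ ∑ n ∈ Finset.range N, |a n| * ‖y‖ := by
          refine Finset.sum_le_sum (fun n _ => ?_)
          rw [map_smul, norm_smul, mul_comm]
          exact mul_le_mul_of_nonneg_left (c0_norm_apply_le y n) (norm_nonneg _)
      _ = (∑ n ∈ Finset.range N, |a n|) * ‖y‖ := by rw [Finset.sum_mul]
      _ ≤ (∑' n, |a n|) * ‖y‖ :=
          mul_le_mul_of_nonneg_right (hsumm.sum_le_tsum _ (fun n _ => abs_nonneg _))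
            (norm_nonneg _)
  have h5 : c * ∑' n, |a n| ≤ ‖φ.comp T‖ := by
    have h6 : Tendsto (fun N => c * ∑ n ∈ Finset.range N, |a n|) atTop
        (𝓝 (c * ∑' n, |a n|)) := (hsumm.hasSum.tendsto_sum_nat).const_mul c
    exact le_of_tendsto_of_tendsto' h6 hlim.norm (fun N => hg _ a)
  exact (mul_le_mul_of_nonneg_left hφle hc.le).trans h5

/-- If the dual of the separable Banach space `X` contains a copy of `ℓ¹`, then `c₀` is a quotient
of `X`. -/
theorem c0_quotient_of_l1 [CompleteSpace X] [TopologicalSpace.SeparableSpace X]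
    (f : ℕ → StrongDual ℝ X) {M c : ℝ}
    (hM : ∀ n, ‖f n‖ ≤ M) (hc : 0 < c)
    (hf : ∀ (s : Finset ℕ) (a : ℕ → ℝ), c * ∑ n ∈ s, |a n| ≤ ‖∑ n ∈ s, a n • f n‖) :
    ∃ T : X →L[ℝ] c0 ℝ, Surjective T := by
  have hM0 : 0 ≤ M := (norm_nonneg _).trans (hM 0)
  have hseq := WeakDual.isSeqCompact_closedBall ℝ X (0 : StrongDual ℝ X) M
  obtain ⟨f', -, ψ, hψ, hlim⟩ := hseq (x := fun k => StrongDual.toWeakDual (f k))
    (fun k => by
      simp only [Set.mem_preimage, Metric.mem_closedBall, dist_zero_right]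
      exact hM k)
  have hev : ∀ z : X, Tendsto (fun k => f (ψ k) z) atTop (𝓝 (f' z)) := by
    intro z
    exact ((WeakDual.eval_continuous z).tendsto f').comp hlim
  refine c0_quotient_of_null (fun n => f (ψ (2 * n)) - f (ψ (2 * n + 1))) (M := 2 * M) (c := c)
    (fun n => (norm_sub_le _ _).trans (by linarith [hM (ψ (2 * n)), hM (ψ (2 * n + 1))])) hc
    (fun x => ?_) (fun s a => ?_)
  · have t1 : Tendsto (fun n : ℕ => 2 * n) atTop atTop :=
      tendsto_atTop_mono (fun n => by simp only [id]; omega) tendsto_id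
    have t2 : Tendsto (fun n : ℕ => 2 * n + 1) atTop atTop :=
      tendsto_atTop_mono (fun n => by simp only [id]; omega) tendsto_id
    have := ((hev x).comp t1).sub ((hev x).comp t2)
    rw [sub_self] at this
    exact this
  · -- rewrite as a combination of `f`
    classical
    have hinj : Injective ψ := hψ.injective
    let s1 : Finset ℕ := s.image (fun n => ψ (2 * n))
    let s2 : Finset ℕ := s.image (fun n => ψ (2 * n + 1))
    have i1 : Injective (fun n => ψ (2 * n)) := fun a b h => by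
      have := hinj h; omega
    have i2 : Injective (fun n => ψ (2 * n + 1)) := fun a b h => by
      have := hinj h; omega
    have hdisj : Disjoint s1 s2 := by
      rw [Finset.disjoint_left]
      intro x hx1 hx2
      obtain ⟨n, -, hn⟩ := Finset.mem_image.1 hx1
      obtain ⟨m, -, hm⟩ := Finset.mem_image.1 hx2
      have := hinj (hn.trans hm.symm)
      omega
    let b : ℕ → ℝ := fun k => if h : ∃ n ∈ s, ψ (2 * n) = k then a h.choose else
      if h : ∃ n ∈ s, ψ (2 * n + 1) = k then - a h.choose else 0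
    have hb1 : ∀ n ∈ s, b (ψ (2 * n)) = a n := by
      intro n hn
      have h : ∃ m ∈ s, ψ (2 * m) = ψ (2 * n) := ⟨n, hn, rfl⟩
      simp only [b]
      rw [dif_pos h]
      congr 1
      exact i1 h.choose_spec.2
    have hb2 : ∀ n ∈ s, b (ψ (2 * n + 1)) = - a n := by
      intro n hn
      have h : ∃ m ∈ s, ψ (2 * m + 1) = ψ (2 * n + 1) := ⟨n, hn, rfl⟩
      have h' : ¬ ∃ m ∈ s, ψ (2 * m) = ψ (2 * n + 1) := by
        rintro ⟨m, -, hm⟩
        have := hinj hm; omega
      simp only [b]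
      rw [dif_neg h', dif_pos h]
      congr 2
      exact i2 h.choose_spec.2
    have key := hf (s1 ∪ s2) b
    rw [Finset.sum_union hdisj, Finset.sum_union hdisj, Finset.sum_image (fun x _ y _ h => i1 h),
      Finset.sum_image (fun x _ y _ h => i2 h), Finset.sum_image (fun x _ y _ h => i1 h),
      Finset.sum_image (fun x _ y _ h => i2 h)] at key
    have e1 : ∑ n ∈ s, |b (ψ (2 * n))| = ∑ n ∈ s, |a n| :=
      Finset.sum_congr rfl (fun n hn => by rw [hb1 n hn])
    have e2 : ∑ n ∈ s, |b (ψ (2 * n + 1))| = ∑ n ∈ s, |a n| :=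
      Finset.sum_congr rfl (fun n hn => by rw [hb2 n hn, abs_neg])
    have e3 : ∑ n ∈ s, b (ψ (2 * n)) • f (ψ (2 * n)) + ∑ n ∈ s, b (ψ (2 * n + 1)) •
        f (ψ (2 * n + 1)) = ∑ n ∈ s, a n • (f (ψ (2 * n)) - f (ψ (2 * n + 1))) := by
      rw [← Finset.sum_add_distrib]
      refine Finset.sum_congr rfl (fun n hn => ?_)
      rw [hb1 n hn, hb2 n hn]
      ext x
      simp only [add_apply, smul_apply, sub_apply, smul_eq_mul]
      ring
    rw [e1, e2, e3] at key
    have h0 : 0 ≤ ∑ n ∈ s, |a n| := Finset.sum_nonneg (fun _ _ => abs_nonneg _)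
    nlinarith

end l1

end Pool.Agent.H5.Auto
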