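import Pool.Agent.H5.Auto.CZero

/-!
Sobczyk's theorem: operators into `c₀` defined on a subspace of a separable Banach space extend.
-/

set_option autoImplicit false

namespace Pool.Agent.H5.Auto

open Function Filter Topology

section sob

variable {E : Type*} [NormedAddCommGroup E] [NormedSpace ℝ E]

/-- A bounded sequence of functionals which tends to zero on a dense sequence tends to zero
pointwise. -/
theorem tendsto_zero_of_dense (h : ℕ → StrongDual ℝ E) {M : ℝ} (hM : ∀ n, ‖h n‖ ≤ M)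
    (D : Set E) (hD : Dense D) (h0 : ∀ x ∈ D, Tendsto (fun n => h n x) atTop (𝓝 0)) (x : E) :
    Tendsto (fun n => h n x) atTop (𝓝 0) := by
  have hM0 : 0 ≤ M := (norm_nonneg _).trans (hM 0)
  rw [Metric.tendsto_nhds]
  intro ε hε
  obtain ⟨y, hy, hxy⟩ := Metric.dense_iff.1 hD x (ε / (2 * (M + 1))) (by positivity)
  have hy' := h0 y hxy
  rw [Metric.tendsto_nhds] at hy'
  filter_upwards [hy' (ε / 2) (half_pos hε)] with n hn
  rw [dist_zero_right] at hn ⊢
  have h1 : h n x = h n (x - y) + h n y := by rw [map_sub]; ring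
  rw [h1]
  have h2 : ‖h n (x - y)‖ ≤ M * (ε / (2 * (M + 1))) := by
    refine ((h n).le_opNorm _).trans ?_
    refine mul_le_mul (hM n) ?_ (norm_nonneg _) hM0
    rw [← dist_eq_norm, dist_comm]
    exact (Metric.mem_ball.1 hy).le
  have h3 : M * (ε / (2 * (M + 1))) < ε / 2 := by
    rw [show M * (ε / (2 * (M + 1))) = (M / (M + 1)) * (ε / 2) by field_simp]
    have : M / (M + 1) < 1 := by rw [div_lt_one (by linarith)]; linarith
    nlinarith
  calc ‖h n (x - y) + h n y‖ ≤ ‖h n (x - y)‖ + ‖h n y‖ := norm_add_le _ _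
    _ < ε := by linarith

theorem sobczyk [TopologicalSpace.SeparableSpace E] (F : Submodule ℝ E) (T : F →L[ℝ] c0 ℝ) :
    ∃ T' : E →L[ℝ] c0 ℝ, ∀ y : F, T' y = T y := by
  classical
  set M : ℝ := ‖T‖ with hMdef
  have hM0 : 0 ≤ M := T.opNorm_nonneg
  have hext : ∀ n : ℕ, ∃ g : StrongDual ℝ E, (∀ y : F, g y = T y n) ∧ ‖g‖ ≤ M := by
    intro n
    obtain ⟨g, hg, hgn⟩ := exists_extension_norm_eq F ((ev n).comp T : F →L[ℝ] ℝ)
    refine ⟨g, fun y => by simpa using hg y, ?_⟩
    rw [hgn]
    refine ContinuousLinearMap.opNorm_le_bound _ hM0 (fun y => ?_)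
    exact (c0_norm_apply_le (T y) n).trans (T.le_opNorm y)
  choose f hf hfM using hext
  -- dense sequence
  have hdense := TopologicalSpace.denseRange_denseSeq E
  set x : ℕ → E := TopologicalSpace.denseSeq E with hx
  let P : ℕ → ℕ → Prop := fun n K => ∃ g : StrongDual ℝ E, ‖g‖ ≤ M ∧ (∀ y : F, g y = 0) ∧
    ∀ i < K, |f n (x i) - g (x i)| ≤ 1 / ((K : ℝ) + 1)
  have hP0 : ∀ n, P n 0 := fun n => ⟨0, by simpa using hM0, fun y => rfl, fun i hi => absurd hi (by omega)⟩
  have hP : ∀ K, ∃ N, ∀ n ≥ N, P n K := by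
    intro K
    by_contra hcon
    push Not at hcon
    obtain ⟨φ, hφ, hφP⟩ := Filter.extraction_of_frequently_atTop (P := fun n => ¬ P n K) (by
      rw [Filter.frequently_atTop]
      intro N
      obtain ⟨n, hn, hn'⟩ := hcon N
      exact ⟨n, hn, hn'⟩)
    have hseq := WeakDual.isSeqCompact_closedBall ℝ E (0 : StrongDual ℝ E) M
    obtain ⟨g, hgmem, ψ, hψ, hlim⟩ := hseq (x := fun k => StrongDual.toWeakDual (f (φ k)))
      (fun k => by
        simp only [Set.mem_preimage, Metric.mem_closedBall, dist_zero_right]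
        exact hfM (φ k))
    have hgM : ‖WeakDual.toStrongDual g‖ ≤ M := by
      simpa [Set.mem_preimage, Metric.mem_closedBall, dist_zero_right] using hgmem
    have hev : ∀ z : E, Tendsto (fun k => f (φ (ψ k)) z) atTop (𝓝 (g z)) := by
      intro z
      exact ((WeakDual.eval_continuous z).tendsto g).comp hlim
    have hsub : Tendsto (fun k => φ (ψ k)) atTop atTop :=
      hφ.tendsto_atTop.comp hψ.tendsto_atTop
    have hgF : ∀ y : F, g y = 0 := by
      intro y
      have h1 := hev (y : E)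
      have h2 : Tendsto (fun k => f (φ (ψ k)) (y : E)) atTop (𝓝 0) := by
        have := (c0_tendsto (T y)).comp hsub
        refine this.congr (fun k => ?_)
        exact (hf (φ (ψ k)) y).symm
      exact tendsto_nhds_unique h1 h2
    have hevent : ∀ᶠ k in atTop, ∀ i < K, |f (φ (ψ k)) (x i) - g (x i)| ≤ 1 / ((K : ℝ) + 1) := by
      have hi : ∀ i ∈ Finset.range K, ∀ᶠ k in atTop,
          |f (φ (ψ k)) (x i) - g (x i)| ≤ 1 / ((K : ℝ) + 1) := by
        intro i _
        have := hev (x i)
        rw [Metric.tendsto_nhds] at this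
        filter_upwards [this (1 / ((K : ℝ) + 1)) (by positivity)] with k hk
        rw [Real.dist_eq] at hk
        exact hk.le
      have := (Filter.eventually_all_finset (Finset.range K)).2 hi
      filter_upwards [this] with k hk i hiK
      exact hk i (Finset.mem_range.2 hiK)
    obtain ⟨k, hk⟩ := hevent.exists
    exact hφP (ψ k) ⟨WeakDual.toStrongDual g, hgM, hgF, hk⟩
  -- diagonal choice
  let kk : ℕ → ℕ := fun n => Nat.findGreatest (P n) n
  have hkk : ∀ n, P n (kk n) := fun n => Nat.findGreatest_spec (Nat.zero_le n) (hP0 n)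
  have hkt : Tendsto kk atTop atTop := by
    rw [tendsto_atTop]
    intro K
    obtain ⟨N, hN⟩ := hP K
    filter_upwards [eventually_ge_atTop (max N K)] with n hn
    exact Nat.le_findGreatest ((le_max_right _ _).trans hn) (hN n ((le_max_left _ _).trans hn))
  choose g hgM hgF hg using hkk
  have hdn : ∀ n, ‖f n - g n‖ ≤ 2 * M := fun n =>
    (norm_sub_le _ _).trans (by linarith [hfM n, hgM n])
  have htend : ∀ z, Tendsto (fun n => (f n - g n) z) atTop (𝓝 0) := by
    refine tendsto_zero_of_dense (fun n => f n - g n) hdn (Set.range x) hdense ?_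
    rintro _ ⟨i, rfl⟩
    have hb : Tendsto (fun n => 1 / ((kk n : ℝ) + 1)) atTop (𝓝 0) :=
      tendsto_one_div_add_atTop_nhds_zero_nat.comp hkt
    refine squeeze_zero_norm' ?_ hb
    filter_upwards [hkt.eventually_gt_atTop i] with n hn
    exact hg n i hn
  refine ⟨toC0 (fun n => f n - g n) (2 * M) (fun n z => ?_) htend, fun y => ?_⟩
  · exact ((f n - g n).le_opNorm z).trans (mul_le_mul_of_nonneg_right (hdn n) (norm_nonneg _))
  · ext n
    rw [toC0_apply, sub_apply, hf, hgF, sub_zero]

/-- Sobczyk's theorem for embeddings: every closed copy of `c₀` in a separable Banach space is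
complemented. -/
theorem sobczyk_leftInverse [CompleteSpace E] [TopologicalSpace.SeparableSpace E]
    (φ : c0 ℝ →L[ℝ] E) (hφ : Injective φ) (hcl : IsClosed (Set.range φ)) :
    ∃ ψ : E →L[ℝ] c0 ℝ, ∀ a, ψ (φ a) = a := by
  have e := φ.equivRange hφ hcl
  obtain ⟨ψ, hψ⟩ := sobczyk (LinearMap.range (φ : c0 ℝ →ₗ[ℝ] E))
    ((φ.equivRange hφ hcl).symm : _ →L[ℝ] c0 ℝ)
  refine ⟨ψ, fun a => ?_⟩
  have h := hψ (φ.equivRange hφ hcl a)
  have h1 : ((φ.equivRange hφ hcl a : _) : E) = φ a := rfl
  rw [h1] at h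
  rw [h]
  exact (φ.equivRange hφ hcl).symm_apply_apply a

end sob

end Pool.Agent.H5.Auto
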