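import Pool.Agent.H5.Auto.Basic
import Pool.Agent.H5.Auto.Glide
import Pool.Agent.H5.Auto.Sobczyk
import Pool.Agent.H5.Auto.Quot
import Pool.Agent.H5.Auto.Hilb

/-!
Automorphic spaces `X` such that `X × X` embeds in `X`.
-/

set_option autoImplicit false

namespace Pool.Agent.H5.Auto

open Function Filter Topology

section general

variable {X : Type*} [NormedAddCommGroup X] [NormedSpace ℝ X] [CompleteSpace X]

/-- Bounded below maps are injective with closed range. -/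
theorem inj_closed_of_bddBelow {E F : Type*} [NormedAddCommGroup E] [NormedSpace ℝ E]
    [CompleteSpace E] [NormedAddCommGroup F] [NormedSpace ℝ F] (f : E →L[ℝ] F) {c : ℝ}
    (hc : 0 < c) (h : ∀ x, c * ‖x‖ ≤ ‖f x‖) : Injective f ∧ IsClosed (Set.range f) := by
  have ha : AntilipschitzWith (Real.toNNReal c⁻¹) f := by
    refine ContinuousLinearMap.antilipschitz_of_bound f (fun x => ?_)
    rw [Real.coe_toNNReal _ (inv_nonneg.2 hc.le), ← div_eq_inv_mul, le_div_iff₀ hc, mul_comm]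
    exact h x
  exact ⟨ha.injective, ha.isClosed_range f.uniformContinuous⟩

theorem bddBelow_of_inj_closed {E F : Type*} [NormedAddCommGroup E] [NormedSpace ℝ E]
    [CompleteSpace E] [NormedAddCommGroup F] [NormedSpace ℝ F] [CompleteSpace F]
    (f : E →L[ℝ] F) (hf : Injective f) (hcl : IsClosed (Set.range f)) :
    ∃ c : ℝ, 0 < c ∧ ∀ x, c * ‖x‖ ≤ ‖f x‖ := by
  obtain ⟨K, hK⟩ := f.antilipschitz_of_injective_of_isClosed_range hf hcl
  refine ⟨((K : ℝ) + 1)⁻¹, by positivity, fun x => ?_⟩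
  rw [inv_mul_le_iff₀ (by positivity)]
  have h1 : ‖x‖ ≤ K * ‖f x‖ := by
    have := hK.le_mul_dist x 0
    simpa using this
  nlinarith [norm_nonneg (f x), K.coe_nonneg]

/-- Let `k : X × X → X` be an embedding and `R` the quotient of `X` by the image of `X × 0`. Then
`X` embeds in `R`. -/
theorem embeds_in_quotient (k : (X × X) →L[ℝ] X) (hk : Injective k)
    (hkcl : IsClosed (Set.range k)) {R : Type*} [NormedAddCommGroup R] [NormedSpace ℝ R]
    [CompleteSpace R] (r : X →L[ℝ] R) (hr : Surjective r)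
    (hrk : ∀ x, r x = 0 ↔ ∃ y, k (y, 0) = x) :
    ∃ c : ℝ, 0 < c ∧ ∀ x, c * ‖x‖ ≤ ‖r (k (0, x))‖ := by
  obtain ⟨c, hc, hkc⟩ := bddBelow_of_inj_closed k hk hkcl
  obtain ⟨C, hC, hrC⟩ := r.exists_preimage_norm_le hr
  refine ⟨c / C, by positivity, fun x => ?_⟩
  obtain ⟨z, hz, hzn⟩ := hrC (r (k (0, x)))
  have h1 : r (z - k (0, x)) = 0 := by rw [map_sub, hz, sub_self]
  obtain ⟨y, hy⟩ := (hrk _).1 h1
  have h2 : z = k (y, x) := by
    have : z = k (y, 0) + k (0, x) := by rw [hy]; abel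
    rw [this, ← map_add]; simp
  have h3 : c * ‖x‖ ≤ ‖z‖ := by
    rw [h2]
    refine le_trans ?_ (hkc (y, x))
    exact mul_le_mul_of_nonneg_left (norm_snd_le (y, x)) hc.le
  rw [div_mul_eq_mul_div, div_le_iff₀ hC, mul_comm _ C]
  exact h3.trans hzn

/-- In an exact sequence `0 → c₀ → c₀ → R → 0` with `R` infinite-dimensional, `R ≅ c₀`. -/
theorem equiv_c0_of_exact {R : Type*} [NormedAddCommGroup R] [NormedSpace ℝ R] [CompleteSpace R]
    (hR : ¬ FiniteDimensional ℝ R) (hsep : TopologicalSpace.SeparableSpace (c0 ℝ))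
    (φ : c0 ℝ →L[ℝ] c0 ℝ) (ψ : c0 ℝ →L[ℝ] R) (hφ : Injective φ) (hψ : Surjective ψ)
    (h : ∀ q, ψ q = 0 ↔ ∃ p, φ p = q) : Nonempty (R ≃L[ℝ] c0 ℝ) := by
  have hcl : IsClosed (Set.range φ) := by
    have : Set.range φ = ψ ⁻¹' {0} := by
      ext x; simp [h]
    rw [this]; exact isClosed_singleton.preimage ψ.continuous
  obtain ⟨ρ, hρ⟩ := sobczyk_leftInverse φ hφ hcl
  let F : c0 ℝ →L[ℝ] R × c0 ℝ := ψ.prod ρ
  have hker : LinearMap.ker (F : c0 ℝ →ₗ[ℝ] R × c0 ℝ) = ⊥ := by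
    rw [LinearMap.ker_eq_bot']
    intro a ha
    have h1 : ψ a = 0 := congrArg Prod.fst ha
    have h2 : ρ a = 0 := congrArg Prod.snd ha
    obtain ⟨p, rfl⟩ := (h a).1 h1
    rw [hρ] at h2
    rw [h2, map_zero]
  have hran : LinearMap.range (F : c0 ℝ →ₗ[ℝ] R × c0 ℝ) = ⊤ := by
    rw [LinearMap.range_eq_top]
    rintro ⟨y, b⟩
    obtain ⟨a, rfl⟩ := hψ y
    refine ⟨φ b + a - φ (ρ a), ?_⟩
    have h1 : ∀ p, ψ (φ p) = 0 := fun p => (h _).2 ⟨p, rfl⟩
    refine Prod.ext ?_ ?_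
    · change ψ (φ b + a - φ (ρ a)) = ψ a
      rw [map_sub, map_add, h1, h1]; abel
    · change ρ (φ b + a - φ (ρ a)) = b
      rw [map_sub, map_add, hρ, hρ]; abel
  exact equiv_c0_of_complemented (ContinuousLinearEquiv.ofBijective F hker hran) hR

end general

theorem c0_separable : TopologicalSpace.SeparableSpace (c0 ℝ) := by
  -- finitely supported rational sequences, through the unit vectors
  have hdense : Dense ((Submodule.span ℝ (Set.range (e0 : ℕ → c0 ℝ)) : Submodule ℝ (c0 ℝ)) :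
      Set (c0 ℝ)) := by
    intro a
    refine mem_closure_of_tendsto (c0_hasSum a) (Eventually.of_forall (fun N => ?_))
    exact Submodule.sum_mem _ (fun n _ => Submodule.smul_mem _ _
      (Submodule.subset_span ⟨n, rfl⟩))
  have hs : TopologicalSpace.IsSeparable (Set.range (e0 : ℕ → c0 ℝ)) :=
    (Set.countable_range _).isSeparable
  have h2 : TopologicalSpace.IsSeparable
      ((Submodule.span ℝ (Set.range (e0 : ℕ → c0 ℝ)) : Submodule ℝ (c0 ℝ)) : Set (c0 ℝ)) :=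
    hs.span
  have h3 := h2.closure
  rw [hdense.closure_eq] at h3
  exact TopologicalSpace.isSeparable_univ_iff.1 h3

section main

variable {X : Type*} [NormedAddCommGroup X] [NormedSpace ℝ X] [CompleteSpace X]

/-- If the automorphic space `X` has the quotient `c₀`, the quotient of `X` by a copy of `X` of
infinite codimension is `c₀`. -/
theorem selfquot_c0 (hX : Automorphic X) (T : X →L[ℝ] c0 ℝ) (hT : Surjective T)
    {R : Type*} [NormedAddCommGroup R] [NormedSpace ℝ R] [CompleteSpace R]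
    (hR : ¬ FiniteDimensional ℝ R) (j : X →L[ℝ] X) (hj : Injective j)
    (r : X →L[ℝ] R) (hr : Surjective r) (hjr : ∀ x, r x = 0 ↔ ∃ y, j y = x) :
    Nonempty (R ≃L[ℝ] c0 ℝ) := by
  obtain ⟨φ, ψ, hφ, hψ, h⟩ := self_extension hX j hj r hr hR hjr T hT c0_not_fd
  exact equiv_c0_of_exact hR c0_separable φ ψ hφ hψ h

/-- If the automorphic space `X` has an infinite-dimensional Hilbertian quotient, the quotient of
`X` by a copy of `X` of infinite codimension is Hilbertian. -/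
theorem selfquot_hilb (hX : Automorphic X) {H : Type*} [NormedAddCommGroup H]
    [InnerProductSpace ℝ H] [CompleteSpace H] (hH : ¬ FiniteDimensional ℝ H)
    (T : X →L[ℝ] H) (hT : Surjective T)
    {R : Type*} [NormedAddCommGroup R] [NormedSpace ℝ R] [CompleteSpace R]
    (hR : ¬ FiniteDimensional ℝ R) (j : X →L[ℝ] X) (hj : Injective j)
    (r : X →L[ℝ] R) (hr : Surjective r) (hjr : ∀ x, r x = 0 ↔ ∃ y, j y = x) :
    ∃ (ι : R →L[ℝ] H) (ψ : H →L[ℝ] R), ∀ v, ψ (ι v) = v := by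
  obtain ⟨φ, ψ, hφ, hψ, h⟩ := self_extension hX j hj r hr hR hjr T hT hH
  obtain ⟨ι, hι⟩ := embeds_of_quotient ψ hψ
  exact ⟨ι, ψ, hι⟩

theorem bddBelow_of_leftInverse {E F : Type*} [NormedAddCommGroup E] [NormedSpace ℝ E]
    [NormedAddCommGroup F] [NormedSpace ℝ F] (f : E →L[ℝ] F) (g : F →L[ℝ] E)
    (h : ∀ x, g (f x) = x) : ∃ c : ℝ, 0 < c ∧ ∀ x, c * ‖x‖ ≤ ‖f x‖ := by
  refine ⟨(‖g‖ + 1)⁻¹, by positivity, fun x => ?_⟩
  rw [inv_mul_le_iff₀ (by positivity)]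
  have h1 : ‖g (f x)‖ ≤ ‖g‖ * ‖f x‖ := g.le_opNorm _
  rw [h] at h1
  nlinarith [norm_nonneg (f x)]

/-- **Main theorem, `c₀` side.** -/
theorem double_c0 (hX : Automorphic X) (hXf : ¬ FiniteDimensional ℝ X)
    (T : X →L[ℝ] c0 ℝ) (hT : Surjective T)
    (k : (X × X) →L[ℝ] X) (hk : Injective k) (hkcl : IsClosed (Set.range k)) :
    Nonempty (X ≃L[ℝ] c0 ℝ) := by
  -- the quotient by `k (X × 0)`
  let j : X →L[ℝ] X := k.comp (ContinuousLinearMap.inl ℝ X X)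
  have hjk : ∀ y, j y = k (y, 0) := fun y => rfl
  obtain ⟨c, hc, hkc⟩ := bddBelow_of_inj_closed k hk hkcl
  obtain ⟨hj, hjcl⟩ := inj_closed_of_bddBelow j hc (fun x => by
    rw [hjk]
    refine le_trans ?_ (hkc (x, 0))
    exact mul_le_mul_of_nonneg_left (norm_fst_le ((x, 0) : X × X)) hc.le)
  let Z : Submodule ℝ X := LinearMap.range (j : X →ₗ[ℝ] X)
  have hZ : IsClosed (Z : Set X) := by
    rw [show (Z : Set X) = Set.range j by ext; simp [Z]]; exact hjcl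
  have : IsClosed (Z : Set X) := hZ
  have hmk : Surjective (Z.mkQL : X →L[ℝ] X ⧸ Z) := Submodule.mkQ_surjective Z
  have hjr : ∀ x, Z.mkQL x = 0 ↔ ∃ y, j y = x := by
    intro x
    rw [Submodule.mkQL_apply, Submodule.mkQ_apply, Submodule.Quotient.mk_eq_zero]
    simp [Z]
  obtain ⟨c1, hc1, hkc1⟩ := embeds_in_quotient k hk hkcl (Z.mkQL : X →L[ℝ] X ⧸ Z) hmk hjr
  let ι1 : X →L[ℝ] X ⧸ Z := (Z.mkQL : X →L[ℝ] X ⧸ Z).comp (k.comp (ContinuousLinearMap.inr ℝ X X))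
  have hι1 : Injective ι1 := (inj_closed_of_bddBelow ι1 hc1 hkc1).1
  have hR : ¬ FiniteDimensional ℝ (X ⧸ Z) := fun h =>
    hXf (FiniteDimensional.of_injective (ι1 : X →ₗ[ℝ] X ⧸ Z) hι1)
  obtain ⟨e1⟩ := selfquot_c0 hX T hT hR j hj (Z.mkQL : X →L[ℝ] X ⧸ Z) hmk hjr
  -- `X` embeds in `c₀`
  let ι : X →L[ℝ] c0 ℝ := (e1 : (X ⧸ Z) →L[ℝ] c0 ℝ).comp ι1
  obtain ⟨c2, hc2, hc2'⟩ := bddBelow_of_leftInverse (e1 : (X ⧸ Z) →L[ℝ] c0 ℝ)
    (e1.symm : c0 ℝ →L[ℝ] X ⧸ Z) (fun x => by simp)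
  have hι : ∀ x, (c2 * c1) * ‖x‖ ≤ ‖ι x‖ := by
    intro x
    refine le_trans ?_ (hc2' (ι1 x))
    rw [mul_assoc]
    exact mul_le_mul_of_nonneg_left (hkc1 x) hc2.le
  obtain ⟨e2⟩ := absorbs_c0_of_embeds ι (mul_pos hc2 hc1) hι hXf
  obtain ⟨hιi, hιcl⟩ := inj_closed_of_bddBelow ι (mul_pos hc2 hc1) hι
  -- second embedding, with quotient `X × (c₀ / ι X)`
  let Z2 : Submodule ℝ (c0 ℝ) := LinearMap.range (ι : X →ₗ[ℝ] c0 ℝ)
  have hZ2 : IsClosed (Z2 : Set (c0 ℝ)) := by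
    rw [show (Z2 : Set (c0 ℝ)) = Set.range ι by ext; simp [Z2]]; exact hιcl
  have : IsClosed (Z2 : Set (c0 ℝ)) := hZ2
  have hmk2 : Surjective (Z2.mkQL : c0 ℝ →L[ℝ] c0 ℝ ⧸ Z2) := Submodule.mkQ_surjective Z2
  let r2 : X →L[ℝ] X × (c0 ℝ ⧸ Z2) :=
    ((ContinuousLinearMap.id ℝ X).prodMap (Z2.mkQL : c0 ℝ →L[ℝ] c0 ℝ ⧸ Z2)).comp
      (e2 : X →L[ℝ] X × c0 ℝ)
  let j2 : X →L[ℝ] X := (e2.symm : (X × c0 ℝ) →L[ℝ] X).comp
    ((ContinuousLinearMap.inr ℝ X (c0 ℝ)).comp ι)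
  have hj2 : Injective j2 := by
    intro a b hab
    have h1 : e2.symm ((0 : X), ι a) = e2.symm ((0 : X), ι b) := hab
    exact hιi (congrArg Prod.snd (e2.symm.injective h1))
  have hr2 : Surjective r2 := by
    rintro ⟨x, q⟩
    obtain ⟨a, rfl⟩ := hmk2 q
    exact ⟨e2.symm (x, a), by simp [r2]⟩
  have hjr2 : ∀ x, r2 x = 0 ↔ ∃ y, j2 y = x := by
    intro x
    constructor
    · intro hx
      have h1 : (e2 x).1 = 0 := congrArg Prod.fst hx
      have h2 : Z2.mkQL (e2 x).2 = 0 := congrArg Prod.snd hx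
      rw [Submodule.mkQL_apply, Submodule.mkQ_apply, Submodule.Quotient.mk_eq_zero] at h2
      obtain ⟨y, hy⟩ := h2
      refine ⟨y, ?_⟩
      change e2.symm ((0 : X), ι y) = x
      rw [ContinuousLinearEquiv.symm_apply_eq]
      exact Prod.ext h1.symm hy
    · rintro ⟨y, rfl⟩
      change ((e2 (e2.symm ((0 : X), ι y))).1, Z2.mkQL (e2 (e2.symm ((0 : X), ι y))).2) = 0
      rw [ContinuousLinearEquiv.apply_symm_apply]
      refine Prod.ext rfl ?_
      change Z2.mkQL (ι y) = 0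
      rw [Submodule.mkQL_apply, Submodule.mkQ_apply, Submodule.Quotient.mk_eq_zero]
      exact ⟨y, rfl⟩
  have hR2 : ¬ FiniteDimensional ℝ (X × (c0 ℝ ⧸ Z2)) := fun h =>
    hXf (FiniteDimensional.of_surjective (LinearMap.fst ℝ X (c0 ℝ ⧸ Z2))
      LinearMap.fst_surjective)
  obtain ⟨e3⟩ := selfquot_c0 hX T hT hR2 j2 hj2 r2 hr2 hjr2
  exact equiv_c0_of_complemented e3.symm hXf

/-- **Main theorem, Hilbert side.** -/
theorem double_hilb [TopologicalSpace.SeparableSpace X] (hX : Automorphic X)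
    (hXf : ¬ FiniteDimensional ℝ X)
    {H : Type*} [NormedAddCommGroup H] [InnerProductSpace ℝ H] [CompleteSpace H]
    (hH : ¬ FiniteDimensional ℝ H) (T : X →L[ℝ] H) (hT : Surjective T)
    (k : (X × X) →L[ℝ] X) (hk : Injective k) (hkcl : IsClosed (Set.range k)) :
    Nonempty (X ≃L[ℝ] l2) := by
  let j : X →L[ℝ] X := k.comp (ContinuousLinearMap.inl ℝ X X)
  have hjk : ∀ y, j y = k (y, 0) := fun y => rfl
  obtain ⟨c, hc, hkc⟩ := bddBelow_of_inj_closed k hk hkcl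
  obtain ⟨hj, hjcl⟩ := inj_closed_of_bddBelow j hc (fun x => by
    rw [hjk]
    refine le_trans ?_ (hkc (x, 0))
    exact mul_le_mul_of_nonneg_left (norm_fst_le ((x, 0) : X × X)) hc.le)
  let Z : Submodule ℝ X := LinearMap.range (j : X →ₗ[ℝ] X)
  have hZ : IsClosed (Z : Set X) := by
    rw [show (Z : Set X) = Set.range j by ext; simp [Z]]; exact hjcl
  have : IsClosed (Z : Set X) := hZ
  have hmk : Surjective (Z.mkQL : X →L[ℝ] X ⧸ Z) := Submodule.mkQ_surjective Z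
  have hjr : ∀ x, Z.mkQL x = 0 ↔ ∃ y, j y = x := by
    intro x
    rw [Submodule.mkQL_apply, Submodule.mkQ_apply, Submodule.Quotient.mk_eq_zero]
    simp [Z]
  obtain ⟨c1, hc1, hkc1⟩ := embeds_in_quotient k hk hkcl (Z.mkQL : X →L[ℝ] X ⧸ Z) hmk hjr
  let ι1 : X →L[ℝ] X ⧸ Z := (Z.mkQL : X →L[ℝ] X ⧸ Z).comp (k.comp (ContinuousLinearMap.inr ℝ X X))
  have hι1 : Injective ι1 := (inj_closed_of_bddBelow ι1 hc1 hkc1).1
  have hR : ¬ FiniteDimensional ℝ (X ⧸ Z) := fun h =>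
    hXf (FiniteDimensional.of_injective (ι1 : X →ₗ[ℝ] X ⧸ Z) hι1)
  obtain ⟨ι2, ψ, hψ⟩ := selfquot_hilb hX hH T hT hR j hj (Z.mkQL : X →L[ℝ] X ⧸ Z) hmk hjr
  obtain ⟨c2, hc2, hc2'⟩ := bddBelow_of_leftInverse ι2 ψ hψ
  obtain ⟨h1, h2⟩ := inj_closed_of_bddBelow (ι2.comp ι1) (mul_pos hc2 hc1) (fun x => by
    refine le_trans ?_ (hc2' (ι1 x))
    rw [mul_assoc]
    exact mul_le_mul_of_nonneg_left (hkc1 x) hc2.le)
  exact equiv_l2_of_embeds (ι2.comp ι1) h1 h2 hXf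

end main

end Pool.Agent.H5.Auto
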