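import Mathlib

/-!
Khintchine's inequality (first moment), over the signs indexed by the subsets of a finite set.
-/

set_option autoImplicit false

namespace Pool.Agent.H5.Auto

open Finset

/-- The signed sum: `+` on `t`, `-` outside. -/
noncomputable def ssum (c : ℕ → ℝ) (s t : Finset ℕ) : ℝ := ∑ i ∈ s, (if i ∈ t then c i else - c i)

theorem ssum_insert_left (c : ℕ → ℝ) {a : ℕ} {s t : Finset ℕ} (ha : a ∉ s) (ht : t ⊆ s) :
    ssum c (insert a s) t = - c a + ssum c s t := by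
  unfold ssum
  rw [sum_insert ha, if_neg (fun h => ha (ht h))]

theorem ssum_insert_right (c : ℕ → ℝ) {a : ℕ} {s t : Finset ℕ} (ha : a ∉ s) :
    ssum c (insert a s) (insert a t) = c a + ssum c s t := by
  unfold ssum
  rw [sum_insert ha, if_pos (mem_insert_self a t)]
  congr 1
  refine sum_congr rfl (fun i hi => ?_)
  have hia : i ≠ a := fun h => ha (h ▸ hi)
  simp [mem_insert, hia]

theorem sum_ssum_sq (c : ℕ → ℝ) (s : Finset ℕ) :
    ∑ t ∈ s.powerset, ssum c s t ^ 2 = 2 ^ s.card * ∑ i ∈ s, c i ^ 2 := by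
  induction s using Finset.induction_on with
  | empty => simp [ssum]
  | insert a s ha ih =>
    rw [sum_powerset_insert ha, card_insert_of_notMem ha, sum_insert ha]
    have h1 : ∑ t ∈ s.powerset, ssum c (insert a s) t ^ 2 =
        ∑ t ∈ s.powerset, (- c a + ssum c s t) ^ 2 :=
      sum_congr rfl (fun t ht => by rw [ssum_insert_left c ha (mem_powerset.1 ht)])
    have h2 : ∑ t ∈ s.powerset, ssum c (insert a s) (insert a t) ^ 2 =
        ∑ t ∈ s.powerset, (c a + ssum c s t) ^ 2 :=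
      sum_congr rfl (fun t ht => by rw [ssum_insert_right c ha])
    rw [h1, h2, ← sum_add_distrib]
    have h3 : ∑ t ∈ s.powerset, ((- c a + ssum c s t) ^ 2 + (c a + ssum c s t) ^ 2) =
        ∑ t ∈ s.powerset, (2 * c a ^ 2 + 2 * ssum c s t ^ 2) :=
      sum_congr rfl (fun t _ => by ring)
    rw [h3, sum_add_distrib, ← mul_sum, ← mul_sum, ih, sum_const, card_powerset, nsmul_eq_mul]
    push_cast
    ring

theorem sum_ssum_four (c : ℕ → ℝ) (s : Finset ℕ) :
    ∑ t ∈ s.powerset, ssum c s t ^ 4 ≤ 2 ^ s.card * (3 * (∑ i ∈ s, c i ^ 2) ^ 2) := by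
  induction s using Finset.induction_on with
  | empty => simp [ssum]
  | insert a s ha ih =>
    rw [sum_powerset_insert ha, card_insert_of_notMem ha, sum_insert ha]
    have h1 : ∑ t ∈ s.powerset, ssum c (insert a s) t ^ 4 =
        ∑ t ∈ s.powerset, (- c a + ssum c s t) ^ 4 :=
      sum_congr rfl (fun t ht => by rw [ssum_insert_left c ha (mem_powerset.1 ht)])
    have h2 : ∑ t ∈ s.powerset, ssum c (insert a s) (insert a t) ^ 4 =
        ∑ t ∈ s.powerset, (c a + ssum c s t) ^ 4 :=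
      sum_congr rfl (fun t ht => by rw [ssum_insert_right c ha])
    rw [h1, h2, ← sum_add_distrib]
    have h3 : ∑ t ∈ s.powerset, ((- c a + ssum c s t) ^ 4 + (c a + ssum c s t) ^ 4) =
        ∑ t ∈ s.powerset, (2 * c a ^ 4 + (12 * c a ^ 2) * ssum c s t ^ 2 + 2 * ssum c s t ^ 4) :=
      sum_congr rfl (fun t _ => by ring)
    have hpos : (0 : ℝ) < 2 ^ s.card := by positivity
    set A := ∑ i ∈ s, c i ^ 2 with hA
    have hA0 : 0 ≤ A := sum_nonneg (fun i _ => sq_nonneg _)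
    have h4 : ∑ t ∈ s.powerset, (2 * c a ^ 4 + (12 * c a ^ 2) * ssum c s t ^ 2 +
        2 * ssum c s t ^ 4) = 2 ^ s.card * (2 * c a ^ 4) + 12 * c a ^ 2 * (2 ^ s.card * A) +
        2 * ∑ t ∈ s.powerset, ssum c s t ^ 4 := by
      rw [sum_add_distrib, sum_add_distrib, sum_const, card_powerset, nsmul_eq_mul,
        ← mul_sum (a := 12 * c a ^ 2), ← mul_sum (a := (2 : ℝ)), sum_ssum_sq]
      push_cast
      rfl
    rw [h3, h4]
    have : (2 : ℝ) ^ s.card * (2 * c a ^ 4) + 12 * c a ^ 2 * (2 ^ s.card * A) +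
        2 * ∑ t ∈ s.powerset, ssum c s t ^ 4 ≤
        (2 : ℝ) ^ s.card * (2 * c a ^ 4) + 12 * c a ^ 2 * (2 ^ s.card * A) +
        2 * (2 ^ s.card * (3 * A ^ 2)) := by linarith
    refine this.trans ?_
    have e1 : (2 : ℝ) ^ (s.card + 1) * (3 * (c a ^ 2 + A) ^ 2) =
        (2 : ℝ) ^ s.card * (2 * c a ^ 4) + 12 * c a ^ 2 * (2 ^ s.card * A) +
        2 * (2 ^ s.card * (3 * A ^ 2)) + 4 * (2 ^ s.card * c a ^ 4) := by ring
    rw [e1]
    have : 0 ≤ 4 * ((2 : ℝ) ^ s.card * c a ^ 4) := by positivity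
    linarith

/-- Khintchine's inequality, with constant `√3`. -/
theorem khintchine (c : ℕ → ℝ) (s : Finset ℕ) :
    2 ^ s.card * √(∑ i ∈ s, c i ^ 2) ≤ √3 * ∑ t ∈ s.powerset, |ssum c s t| := by
  set A := ∑ i ∈ s, c i ^ 2 with hA
  have hA0 : 0 ≤ A := sum_nonneg (fun i _ => sq_nonneg _)
  rcases hA0.eq_or_lt with h0 | hpos
  · rw [← h0, Real.sqrt_zero, mul_zero]
    exact mul_nonneg (Real.sqrt_nonneg _) (sum_nonneg (fun t _ => abs_nonneg _))
  set x0 := √(3 * A) with hx0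
  have hx0pos : 0 < x0 := Real.sqrt_pos.2 (by positivity)
  have hx0sq : x0 ^ 2 = 3 * A := Real.sq_sqrt (by positivity)
  have hpt : ∀ x : ℝ, 3 * x0 ^ 2 * x ^ 2 - x ^ 4 ≤ 2 * x0 ^ 3 * |x| := by
    intro x
    have hx : 0 ≤ |x| := abs_nonneg x
    have e2 : x ^ 2 = |x| ^ 2 := (sq_abs x).symm
    have e4 : x ^ 4 = |x| ^ 4 := by
      rw [show x ^ 4 = (x ^ 2) ^ 2 by ring, e2]; ring
    rw [e2, e4]
    set y := |x|
    have : 0 ≤ y * ((y - x0) ^ 2 * (y + 2 * x0)) := by positivity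
    nlinarith [this]
  have hsum : ∑ t ∈ s.powerset, (3 * x0 ^ 2 * ssum c s t ^ 2 - ssum c s t ^ 4) ≤
      ∑ t ∈ s.powerset, 2 * x0 ^ 3 * |ssum c s t| := sum_le_sum (fun t _ => hpt _)
  rw [sum_sub_distrib, ← mul_sum, ← mul_sum, sum_ssum_sq] at hsum
  have h4 := sum_ssum_four c s
  rw [← hA] at hsum h4
  set B1 := ∑ t ∈ s.powerset, |ssum c s t| with hS1
  have hkey : 3 * x0 ^ 2 * (2 ^ s.card * A) - 2 ^ s.card * (3 * A ^ 2) ≤ 2 * x0 ^ 3 * B1 := by
    linarith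
  rw [hx0sq, show x0 ^ 3 = x0 ^ 2 * x0 by ring, hx0sq] at hkey
  -- `6 A² 2^n ≤ 6 A x0 B1`
  have h5 : 2 ^ s.card * A ≤ x0 * B1 := by
    have : (6 * A) * (2 ^ s.card * A) ≤ (6 * A) * (x0 * B1) := by nlinarith
    exact le_of_mul_le_mul_left this (by positivity)
  have h6 : x0 = √3 * √A := by rw [hx0, Real.sqrt_mul (by norm_num)]
  rw [h6] at h5
  have hsA : 0 < √A := Real.sqrt_pos.2 hpos
  have h7 : A = √A * √A := (Real.mul_self_sqrt hA0).symm
  have h8 : √A * (2 ^ s.card * √A) ≤ √A * (√3 * B1) := by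
    calc √A * (2 ^ s.card * √A) = 2 ^ s.card * (√A * √A) := by ring
      _ = 2 ^ s.card * A := by rw [← h7]
      _ ≤ √3 * √A * B1 := h5
      _ = √A * (√3 * B1) := by ring
  exact le_of_mul_le_mul_left h8 hsA

end Pool.Agent.H5.Auto
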