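import Pool.Agent.H5.Auto.Quot
import Pool.Agent.H5.Auto.Khin

/-!
The space `ℓ¹`.
-/

set_option autoImplicit false

namespace Pool.Agent.H5.Auto

open Function Filter Topology
open scoped ENNReal

/-- `ℓ¹`. -/
abbrev l1 : Type := lp (fun _ : ℕ => ℝ) 1

section basic

variable {X V : Type*} [NormedAddCommGroup X] [NormedSpace ℝ X]
  [NormedAddCommGroup V] [NormedSpace ℝ V]

theorem l1_summable (a : l1) : Summable (fun n => |a n|) := by
  have := (memℓp_gen_iff (p := 1) (by norm_num)).1 (lp.memℓp a)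
  simpa using this

theorem l1_norm (a : l1) : ‖a‖ = ∑' n, |a n| := by
  have := lp.norm_eq_tsum_rpow (p := 1) (by norm_num) a
  simpa using this

theorem l1_sum_le (a : l1) (s : Finset ℕ) : ∑ n ∈ s, |a n| ≤ ‖a‖ := by
  rw [l1_norm]
  exact (l1_summable a).sum_le_tsum _ (fun n _ => abs_nonneg _)

theorem l1_norm_le {a : l1} {C : ℝ} (h : ∀ s : Finset ℕ, ∑ n ∈ s, |a n| ≤ C) : ‖a‖ ≤ C := by
  rw [l1_norm]
  exact (l1_summable a).tsum_le_of_sum_le h

/-- Build an element of `ℓ¹`. -/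
def mkl1 (f : ℕ → ℝ) (hf : Summable (fun n => |f n|)) : l1 :=
  ⟨f, by
    refine (memℓp_gen_iff (p := 1) (by norm_num)).2 ?_
    simpa using hf⟩

@[simp] theorem mkl1_apply (f : ℕ → ℝ) (hf : Summable (fun n => |f n|)) (n : ℕ) :
    mkl1 f hf n = f n := rfl

theorem summable_of_bdd {f : ℕ → ℝ} {C : ℝ} (h : ∀ s : Finset ℕ, ∑ n ∈ s, |f n| ≤ C) :
    Summable (fun n => |f n|) :=
  summable_of_sum_le (fun n => abs_nonneg _) h

/-- Evaluation. -/
noncomputable def ev1 (n : ℕ) : l1 →L[ℝ] ℝ :=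
  LinearMap.mkContinuous
    { toFun := fun f => f n
      map_add' := fun _ _ => rfl
      map_smul' := fun _ _ => rfl } 1 (fun f => by
        have := l1_sum_le f {n}
        rw [Finset.sum_singleton] at this
        rw [one_mul]
        exact this)

@[simp] theorem ev1_apply (n : ℕ) (f : l1) : ev1 n f = f n := rfl

/-- Build a map to `ℓ¹` from its coordinates. -/
noncomputable def toL1 (g : ℕ → X →L[ℝ] ℝ) (C : ℝ)
    (hC : ∀ (x : X) (s : Finset ℕ), ∑ n ∈ s, |g n x| ≤ C * ‖x‖) : X →L[ℝ] l1 :=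
  LinearMap.mkContinuous
    { toFun := fun x => mkl1 (fun n => g n x) (summable_of_bdd (hC x))
      map_add' := fun x y => by
        ext n; simp
      map_smul' := fun c x => by
        ext n; simp } C (fun x => l1_norm_le (hC x))

@[simp] theorem toL1_apply (g : ℕ → X →L[ℝ] ℝ) (C : ℝ)
    (hC : ∀ (x : X) (s : Finset ℕ), ∑ n ∈ s, |g n x| ≤ C * ‖x‖) (x : X) (n : ℕ) :
    toL1 g C hC x n = g n x := rfl

/-- The map `ℓ¹ → V` which sends the unit vectors to a given bounded sequence. -/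
theorem exists_fromL1 [CompleteSpace V] (v : ℕ → V) {C : ℝ} (hC : 0 ≤ C) (hv : ∀ n, ‖v n‖ ≤ C) :
    ∃ S : l1 →L[ℝ] V, ∀ a : l1, HasSum (fun n => a n • v n) (S a) := by
  have hb : ∀ (a : l1) n, ‖a n • v n‖ ≤ C * |a n| := by
    intro a n
    rw [norm_smul, mul_comm]
    exact mul_le_mul_of_nonneg_right (hv n) (norm_nonneg _)
  have hs : ∀ a : l1, Summable (fun n => a n • v n) := fun a =>
    Summable.of_norm_bounded ((l1_summable a).mul_left C) (hb a)
  let S : l1 →L[ℝ] V := LinearMap.mkContinuous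
    { toFun := fun a => ∑' n, a n • v n
      map_add' := fun a b => by
        rw [← (hs a).tsum_add (hs b)]
        refine tsum_congr (fun n => ?_)
        rw [lp.coeFn_add, Pi.add_apply, add_smul]
      map_smul' := fun r a => by
        rw [RingHom.id_apply, ← (hs a).tsum_const_smul r]
        refine tsum_congr (fun n => ?_)
        rw [lp.coeFn_smul, Pi.smul_apply, smul_eq_mul, mul_smul] } C (fun a => by
      rw [l1_norm, ← tsum_mul_left]
      exact tsum_of_norm_bounded ((l1_summable a).mul_left C).hasSum (hb a))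
  exact ⟨S, fun a => (hs a).hasSum⟩

/-- Unit vectors of `ℓ¹`. -/
noncomputable def s1 (n : ℕ) : l1 := mkl1 (fun k => if k = n then (1 : ℝ) else 0) (by
  refine summable_of_ne_finset_zero (s := {n}) (fun k hk => ?_)
  rw [Finset.mem_singleton] at hk
  simp [hk])

@[simp] theorem s1_apply (n k : ℕ) : s1 n k = if k = n then (1 : ℝ) else 0 := rfl

theorem l1_sum_apply (s : Finset ℕ) (b : ℕ → ℝ) (k : ℕ) :
    (∑ n ∈ s, b n • s1 n : l1) k = if k ∈ s then b k else 0 := by
  change ev1 k (∑ n ∈ s, b n • s1 n) = _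
  rw [map_sum]
  simp only [map_smul, ev1_apply, s1_apply, smul_eq_mul, mul_ite, mul_one, mul_zero]
  rw [Finset.sum_ite_eq]

theorem l1_sum_norm (s : Finset ℕ) (b : ℕ → ℝ) : ‖(∑ n ∈ s, b n • s1 n : l1)‖ = ∑ n ∈ s, |b n| := by
  rw [l1_norm]
  have : (fun k => |(∑ n ∈ s, b n • s1 n : l1) k|) = fun k => if k ∈ s then |b k| else 0 := by
    funext k
    rw [l1_sum_apply]
    split_ifs <;> simp
  rw [this, tsum_eq_sum (s := s) (fun k hk => if_neg hk)]
  exact Finset.sum_congr rfl (fun k hk => if_pos hk)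

theorem l1_not_fd : ¬ FiniteDimensional ℝ l1 := by
  intro h
  have hli : LinearIndependent ℝ s1 := by
    rw [linearIndependent_iff']
    intro s g hg i hi
    have := congrArg (fun f : l1 => ev1 i f) hg
    simp only [map_sum, map_smul, ev1_apply, s1_apply, smul_eq_mul, mul_ite, mul_one, mul_zero,
      Finset.sum_ite_eq, hi, if_true] at this
    simpa using this
  exact absurd hli.finite (by rw [not_finite_iff_infinite]; infer_instance)

/-- Interleaving. -/
theorem l1_sq : Nonempty (l1 ≃L[ℝ] l1 × l1) := by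
  have ie : Injective (fun n : ℕ => 2 * n) := fun a b h => by simpa using h
  have io : Injective (fun n : ℕ => 2 * n + 1) := fun a b h => by simpa using h
  let A : l1 →L[ℝ] l1 := toL1 (fun n => ev1 (2 * n)) 1 (fun x s => by
    rw [one_mul]
    calc ∑ n ∈ s, |ev1 (2 * n) x| = ∑ k ∈ s.image (fun n => 2 * n), |x k| := by
          rw [Finset.sum_image (fun a _ b _ h => ie h)]; rfl
      _ ≤ ‖x‖ := l1_sum_le x _)
  let B : l1 →L[ℝ] l1 := toL1 (fun n => ev1 (2 * n + 1)) 1 (fun x s => by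
    rw [one_mul]
    calc ∑ n ∈ s, |ev1 (2 * n + 1) x| = ∑ k ∈ s.image (fun n => 2 * n + 1), |x k| := by
          rw [Finset.sum_image (fun a _ b _ h => io h)]; rfl
      _ ≤ ‖x‖ := l1_sum_le x _)
  have hfst : ∀ p : l1 × l1, ‖p.1‖ + ‖p.2‖ ≤ 2 * ‖p‖ := fun p => by
    linarith [norm_fst_le p, norm_snd_le p]
  let C : (l1 × l1) →L[ℝ] l1 := toL1 (fun n => if n % 2 = 0 then
      (ev1 (n / 2)).comp (ContinuousLinearMap.fst ℝ l1 l1)
      else (ev1 (n / 2)).comp (ContinuousLinearMap.snd ℝ l1 l1)) 2 (fun x s => by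
    have hsplit := Finset.sum_filter_add_sum_filter_not s (fun n => n % 2 = 0)
      (fun n => |(if n % 2 = 0 then (ev1 (n / 2)).comp (ContinuousLinearMap.fst ℝ l1 l1)
      else (ev1 (n / 2)).comp (ContinuousLinearMap.snd ℝ l1 l1)) x|)
    rw [← hsplit]
    refine le_trans (add_le_add ?_ ?_) (hfst x)
    · calc ∑ n ∈ s with n % 2 = 0, |(if n % 2 = 0 then
            (ev1 (n / 2)).comp (ContinuousLinearMap.fst ℝ l1 l1)
            else (ev1 (n / 2)).comp (ContinuousLinearMap.snd ℝ l1 l1)) x|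
          = ∑ n ∈ s with n % 2 = 0, |x.1 (n / 2)| := by
            refine Finset.sum_congr rfl (fun n hn => ?_)
            rw [if_pos (Finset.mem_filter.1 hn).2]; rfl
        _ = ∑ k ∈ ({n ∈ s | n % 2 = 0} : Finset ℕ).image (fun n => n / 2), |x.1 k| := by
            rw [Finset.sum_image]
            intro a ha b hb hab
            have h1 := (Finset.mem_filter.1 ha).2
            have h2 := (Finset.mem_filter.1 hb).2
            simp only at hab
            omega
        _ ≤ ‖x.1‖ := l1_sum_le _ _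
    · calc ∑ n ∈ s with ¬ n % 2 = 0, |(if n % 2 = 0 then
            (ev1 (n / 2)).comp (ContinuousLinearMap.fst ℝ l1 l1)
            else (ev1 (n / 2)).comp (ContinuousLinearMap.snd ℝ l1 l1)) x|
          = ∑ n ∈ s with ¬ n % 2 = 0, |x.2 (n / 2)| := by
            refine Finset.sum_congr rfl (fun n hn => ?_)
            rw [if_neg (Finset.mem_filter.1 hn).2]; rfl
        _ = ∑ k ∈ ({n ∈ s | ¬ n % 2 = 0} : Finset ℕ).image (fun n => n / 2), |x.2 k| := by
            rw [Finset.sum_image]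
            intro a ha b hb hab
            have h1 := (Finset.mem_filter.1 ha).2
            have h2 := (Finset.mem_filter.1 hb).2
            simp only at hab
            omega
        _ ≤ ‖x.2‖ := l1_sum_le _ _)
  have hC : ∀ (p : l1 × l1) (n : ℕ), C p n = if n % 2 = 0 then p.1 (n / 2) else p.2 (n / 2) := by
    intro p n
    change (if n % 2 = 0 then (ev1 (n / 2)).comp (ContinuousLinearMap.fst ℝ l1 l1)
      else (ev1 (n / 2)).comp (ContinuousLinearMap.snd ℝ l1 l1)) p = _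
    split_ifs <;> rfl
  refine ⟨ContinuousLinearEquiv.equivOfInverse (A.prod B) C (fun x => ?_) (fun p => ?_)⟩
  · ext n
    rw [hC]
    change (if n % 2 = 0 then x (2 * (n / 2)) else x (2 * (n / 2) + 1)) = x n
    split_ifs with h
    · rw [show 2 * (n / 2) = n by omega]
    · rw [show 2 * (n / 2) + 1 = n by omega]
  · refine Prod.ext ?_ ?_
    · ext n
      change C p (2 * n) = p.1 n
      rw [hC, if_pos (by omega), show 2 * n / 2 = n by omega]
    · ext n
      change C p (2 * n + 1) = p.2 n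
      rw [hC, if_neg (by omega), show (2 * n + 1) / 2 = n by omega]

end basic

section mink

/-- Minkowski's inequality for finite sums. -/
theorem mink (s K : Finset ℕ) (w : ℕ → ℕ → ℝ) :
    √(∑ i ∈ s, (∑ k ∈ K, w k i) ^ 2) ≤ ∑ k ∈ K, √(∑ i ∈ s, (w k i) ^ 2) := by
  let W : ℕ → EuclideanSpace ℝ s := fun k => WithLp.toLp 2 (fun i : s => w k i)
  have h1 : ∀ k, ‖W k‖ = √(∑ i ∈ s, (w k i) ^ 2) := by
    intro k
    rw [EuclideanSpace.norm_eq]
    congr 1
    rw [← Finset.sum_coe_sort s]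
    refine Finset.sum_congr rfl (fun i _ => ?_)
    simp [W]
  have h2 : ‖∑ k ∈ K, W k‖ = √(∑ i ∈ s, (∑ k ∈ K, w k i) ^ 2) := by
    rw [EuclideanSpace.norm_eq]
    congr 1
    rw [← Finset.sum_coe_sort s]
    refine Finset.sum_congr rfl (fun i _ => ?_)
    simp [W]
  rw [← h2]
  refine (norm_sum_le _ _).trans_eq (Finset.sum_congr rfl (fun k _ => h1 k))

end mink

/-- `c₀` and `ℓ¹` are not isomorphic. -/
theorem not_equiv_c0_l1 (e : c0 ℝ ≃L[ℝ] l1) : False := by
  classical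
  set v : ℕ → l1 := fun i => e (e0 i) with hv
  set M : ℝ := ‖(e : c0 ℝ →L[ℝ] l1)‖ with hM
  set m : ℝ := ‖(e.symm : l1 →L[ℝ] c0 ℝ)‖ with hm
  have hM0 : 0 ≤ M := (e : c0 ℝ →L[ℝ] l1).opNorm_nonneg
  have hm0 : 0 ≤ m := (e.symm : l1 →L[ℝ] c0 ℝ).opNorm_nonneg
  have hvlow : ∀ i, 1 ≤ m * ‖v i‖ := by
    intro i
    have h1 : ‖e.symm (v i)‖ ≤ m * ‖v i‖ := (e.symm : l1 →L[ℝ] c0 ℝ).le_opNorm _
    rw [hv] at h1
    simp only [ContinuousLinearEquiv.symm_apply_apply] at h1
    have h2 : ‖(e0 i) i‖ ≤ ‖e0 i‖ := c0_norm_apply_le (e0 i) i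
    rw [e0_apply, if_pos rfl, norm_one] at h2
    exact h2.trans h1
  have hmpos : 0 < m := by
    rcases hm0.eq_or_lt with h | h
    · have := hvlow 0
      rw [← h, zero_mul] at this
      linarith
    · exact h
  have hvlow' : ∀ i, 1 / m ≤ ‖v i‖ := by
    intro i
    rw [div_le_iff₀ hmpos, mul_comm]
    exact hvlow i
  -- the number of vectors
  obtain ⟨N, hN⟩ : ∃ N : ℕ, (2 * m * √3 * M) ^ 2 < N := exists_nat_gt _
  set s := Finset.range N with hs
  -- cut-off
  obtain ⟨K, hK⟩ : ∃ K : Finset ℕ, ∀ i ∈ s, 1 / (2 * m) ≤ ∑ k ∈ K, |v i k| := by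
    have h1 : ∀ i ∈ s, ∀ᶠ K in (atTop : Filter (Finset ℕ)), 1 / (2 * m) < ∑ k ∈ K, |v i k| := by
      intro i _
      have h2 : HasSum (fun k => |v i k|) ‖v i‖ := by
        rw [l1_norm]; exact (l1_summable (v i)).hasSum
      refine h2.eventually_const_lt ?_
      refine lt_of_lt_of_le ?_ (hvlow' i)
      rw [div_lt_div_iff₀ (by positivity) hmpos]
      linarith
    obtain ⟨K, hK⟩ := ((Filter.eventually_all_finset s).2 h1).exists
    exact ⟨K, fun i hi => (hK i hi).le⟩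
  -- upper bound
  have hup : ∀ t ∈ s.powerset, ∑ k ∈ K, |ssum (fun i => v i k) s t| ≤ M := by
    intro t _
    let θ : ℕ → ℝ := fun i => if i ∈ t then 1 else -1
    have h1 : e (∑ i ∈ s, θ i • e0 i) = ∑ i ∈ s, θ i • v i := by
      rw [map_sum]
      exact Finset.sum_congr rfl (fun i _ => by rw [map_smul])
    have h2 : ‖(∑ i ∈ s, θ i • e0 i : c0 ℝ)‖ ≤ 1 := by
      refine c0_norm_le zero_le_one (fun k => ?_)
      rw [c0_sum_apply]
      by_cases h : k ∈ s
      · rw [if_pos h]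
        by_cases h' : k ∈ t <;> simp [θ, h']
      · rw [if_neg h]; simp
    have h3 : ‖∑ i ∈ s, θ i • v i‖ ≤ M := by
      rw [← h1]
      refine ((e : c0 ℝ →L[ℝ] l1).le_opNorm _).trans ?_
      calc M * ‖(∑ i ∈ s, θ i • e0 i : c0 ℝ)‖ ≤ M * 1 := mul_le_mul_of_nonneg_left h2 hM0
        _ = M := mul_one _
    refine le_trans (le_of_eq ?_) ((l1_sum_le (∑ i ∈ s, θ i • v i) K).trans h3)
    refine Finset.sum_congr rfl (fun k _ => ?_)
    congr 1
    change _ = ev1 k (∑ i ∈ s, θ i • v i)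
    rw [map_sum]
    unfold ssum
    refine Finset.sum_congr rfl (fun i _ => ?_)
    rw [map_smul, ev1_apply, smul_eq_mul]
    simp only [θ]
    split_ifs <;> ring
  have hcard : (s.powerset.card : ℝ) = 2 ^ s.card := by
    rw [Finset.card_powerset]; push_cast; rfl
  have hup2 : ∑ t ∈ s.powerset, ∑ k ∈ K, |ssum (fun i => v i k) s t| ≤ 2 ^ s.card * M := by
    calc ∑ t ∈ s.powerset, ∑ k ∈ K, |ssum (fun i => v i k) s t| ≤ ∑ t ∈ s.powerset, M :=
          Finset.sum_le_sum hup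
      _ = 2 ^ s.card * M := by rw [Finset.sum_const, nsmul_eq_mul, hcard]
  rw [Finset.sum_comm] at hup2
  have hlow : 2 ^ s.card * ∑ k ∈ K, √(∑ i ∈ s, (v i k) ^ 2) ≤
      √3 * ∑ k ∈ K, ∑ t ∈ s.powerset, |ssum (fun i => v i k) s t| := by
    rw [Finset.mul_sum, Finset.mul_sum]
    exact Finset.sum_le_sum (fun k _ => khintchine (fun i => v i k) s)
  have h2pos : (0 : ℝ) < 2 ^ s.card := by positivity
  have hbound : ∑ k ∈ K, √(∑ i ∈ s, (v i k) ^ 2) ≤ √3 * M := by
    have : 2 ^ s.card * ∑ k ∈ K, √(∑ i ∈ s, (v i k) ^ 2) ≤ 2 ^ s.card * (√3 * M) := by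
      refine hlow.trans ?_
      calc √3 * ∑ k ∈ K, ∑ t ∈ s.powerset, |ssum (fun i => v i k) s t| ≤
            √3 * (2 ^ s.card * M) := mul_le_mul_of_nonneg_left hup2 (Real.sqrt_nonneg _)
        _ = 2 ^ s.card * (√3 * M) := by ring
    exact le_of_mul_le_mul_left this h2pos
  have hmk := mink s K (fun k i => |v i k|)
  have e1 : ∑ k ∈ K, √(∑ i ∈ s, |v i k| ^ 2) = ∑ k ∈ K, √(∑ i ∈ s, (v i k) ^ 2) := by
    simp only [sq_abs]
  rw [e1] at hmk
  have h5 : √(∑ i ∈ s, (1 / (2 * m)) ^ 2) ≤ √(∑ i ∈ s, (∑ k ∈ K, |v i k|) ^ 2) := by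
    refine Real.sqrt_le_sqrt (Finset.sum_le_sum (fun i hi => ?_))
    exact pow_le_pow_left₀ (by positivity) (hK i hi) 2
  have h6 : √(∑ i ∈ s, (1 / (2 * m)) ^ 2) = √N * (1 / (2 * m)) := by
    rw [Finset.sum_const, hs, Finset.card_range, nsmul_eq_mul, Real.sqrt_mul (Nat.cast_nonneg _),
      Real.sqrt_sq (by positivity)]
  have h7 : √N * (1 / (2 * m)) ≤ √3 * M := by
    rw [← h6]; exact (h5.trans hmk).trans hbound
  have h8 : √(N : ℝ) ≤ 2 * m * √3 * M := by
    rw [mul_one_div, div_le_iff₀ (by positivity)] at h7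
    linarith
  have h9 : (N : ℝ) ≤ (2 * m * √3 * M) ^ 2 := by
    have := pow_le_pow_left₀ (Real.sqrt_nonneg _) h8 2
    rwa [Real.sq_sqrt (Nat.cast_nonneg _)] at this
  linarith

end Pool.Agent.H5.Auto
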