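import Pool.Agent.H5.Auto.Double

/-!
Automorphic spaces that contain `c₀`: operators from subspaces of `c₀` extend, and the
finite-dimensional subspaces factor uniformly through `c₀`.
-/

set_option autoImplicit false

namespace Pool.Agent.H5.Auto

open Function Filter Topology Metric

section sob

variable {V E : Type*} [NormedAddCommGroup V] [NormedSpace ℝ V] [CompleteSpace V]
  [NormedAddCommGroup E] [NormedSpace ℝ E] [CompleteSpace E]

/-- Sobczyk's theorem for embeddings. -/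
theorem sobczyk_embedding [TopologicalSpace.SeparableSpace E]
    (Θ : V →L[ℝ] E) (hΘ : Injective Θ) (hcl : IsClosed (Set.range Θ)) (U : V →L[ℝ] c0 ℝ) :
    ∃ S : E →L[ℝ] c0 ℝ, ∀ v, S (Θ v) = U v := by
  obtain ⟨S, hS⟩ := sobczyk (LinearMap.range (Θ : V →ₗ[ℝ] E))
    (U.comp ((Θ.equivRange hΘ hcl).symm : _ →L[ℝ] V))
  refine ⟨S, fun v => ?_⟩
  have h := hS (Θ.equivRange hΘ hcl v)
  have h1 : ((Θ.equivRange hΘ hcl v : _) : E) = Θ v := rfl
  rw [h1] at h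
  rw [h]
  change U ((Θ.equivRange hΘ hcl).symm (Θ.equivRange hΘ hcl v)) = U v
  rw [(Θ.equivRange hΘ hcl).symm_apply_apply]

end sob

section ext

variable {X : Type*} [NormedAddCommGroup X] [NormedSpace ℝ X] [CompleteSpace X]

/-- Let `X` be automorphic with `X ≅ X × c₀`. Every operator into `X` from a Banach space that is
embedded into `c₀` extends to `c₀`. -/
theorem extend_c0 (hX : Automorphic X) (hXf : ¬ FiniteDimensional ℝ X) (e : X ≃L[ℝ] X × c0 ℝ)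
    {V : Type*} [NormedAddCommGroup V] [NormedSpace ℝ V] [CompleteSpace V]
    (Θ : V →L[ℝ] c0 ℝ) (hΘ : Injective Θ) (hcl : IsClosed (Set.range Θ)) (T : V →L[ℝ] X) :
    ∃ T' : c0 ℝ →L[ℝ] X, ∀ v, T' (Θ v) = T v := by
  obtain ⟨c, hc, hΘc⟩ := bddBelow_of_inj_closed Θ hΘ hcl
  have hW : Automorphic (X × c0 ℝ) := hX.congr e
  let i1 : V →L[ℝ] X × c0 ℝ := (0 : V →L[ℝ] X).prod Θ
  let i2 : V →L[ℝ] X × c0 ℝ := T.prod Θ
  obtain ⟨h1i, h1c⟩ := inj_closed_of_bddBelow i1 hc (fun v => (hΘc v).trans (norm_snd_le (i1 v)))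
  obtain ⟨h2i, h2c⟩ := inj_closed_of_bddBelow i2 hc (fun v => (hΘc v).trans (norm_snd_le (i2 v)))
  let Z1 : Submodule ℝ (X × c0 ℝ) := LinearMap.range (i1 : V →ₗ[ℝ] X × c0 ℝ)
  let Z2 : Submodule ℝ (X × c0 ℝ) := LinearMap.range (i2 : V →ₗ[ℝ] X × c0 ℝ)
  have hZ1 : (Z1 : Set (X × c0 ℝ)) = Set.range i1 := by ext; simp [Z1]
  have hZ2 : (Z2 : Set (X × c0 ℝ)) = Set.range i2 := by ext; simp [Z2]
  have hf : ∀ (Z : Submodule ℝ (X × c0 ℝ)) (i : V →L[ℝ] X × c0 ℝ), (∀ v, (i v).2 = Θ v) →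
      (∀ x, x ∈ Z ↔ ∃ v, i v = x) → ¬ FiniteDimensional ℝ ((X × c0 ℝ) ⧸ Z) := by
    intro Z i hi hZ h
    let L : X →ₗ[ℝ] ((X × c0 ℝ) ⧸ Z) := Z.mkQ.comp (LinearMap.inl ℝ X (c0 ℝ))
    refine hXf (FiniteDimensional.of_injective L ?_)
    rw [injective_iff_map_eq_zero]
    intro x hx
    have h1 : ((x, 0) : X × c0 ℝ) ∈ Z := by
      rw [← Submodule.Quotient.mk_eq_zero]; exact hx
    obtain ⟨v, hv⟩ := (hZ _).1 h1
    have h2 : Θ v = 0 := by rw [← hi, hv]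
    have h3 : v = 0 := hΘ (by rw [h2, map_zero])
    rw [h3, map_zero] at hv
    exact (congrArg Prod.fst hv).symm
  have hf1 : ¬ FiniteDimensional ℝ ((X × c0 ℝ) ⧸ Z1) := hf Z1 i1 (fun v => rfl) (fun x => by
    simp [Z1])
  have hf2 : ¬ FiniteDimensional ℝ ((X × c0 ℝ) ⧸ Z2) := hf Z2 i2 (fun v => rfl) (fun x => by
    simp [Z2])
  obtain ⟨τ, hτ⟩ := hW Z1 Z2 (by rw [hZ1]; exact h1c) (by rw [hZ2]; exact h2c) hf1 hf2
    ⟨(i1.equivRange h1i h1c).symm.trans (i2.equivRange h2i h2c)⟩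
  rw [hZ1, hZ2] at hτ
  -- `ρ v` is the vector with `i1 (ρ v) = τ⁻¹ (i2 v)`
  have hmem : ∀ v, τ.symm (i2 v) ∈ Z1 := by
    intro v
    have : i2 v ∈ τ '' Set.range i1 := by rw [hτ]; exact ⟨v, rfl⟩
    obtain ⟨w, hw, hwv⟩ := this
    rw [← hwv, ContinuousLinearEquiv.symm_apply_apply]
    rw [← SetLike.mem_coe, hZ1]; exact hw
  let ρ : V →L[ℝ] V := ((i1.equivRange h1i h1c).symm : _ →L[ℝ] V).comp
    (((τ.symm : (X × c0 ℝ) →L[ℝ] X × c0 ℝ).comp i2).codRestrict Z1 hmem)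
  have hρ : ∀ v, i1 (ρ v) = τ.symm (i2 v) := by
    intro v
    have : (((i1.equivRange h1i h1c) (ρ v) : _) : X × c0 ℝ) = τ.symm (i2 v) := by
      change (((i1.equivRange h1i h1c) ((i1.equivRange h1i h1c).symm
        (((τ.symm : (X × c0 ℝ) →L[ℝ] X × c0 ℝ).comp i2).codRestrict Z1 hmem v)) : _) :
          X × c0 ℝ) = _
      rw [(i1.equivRange h1i h1c).apply_symm_apply]
      rfl
    exact this
  have := c0_separable
  obtain ⟨S, hS⟩ := sobczyk_embedding Θ hΘ hcl (Θ.comp ρ)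
  refine ⟨((ContinuousLinearMap.fst ℝ X (c0 ℝ)).comp (τ : (X × c0 ℝ) →L[ℝ] X × c0 ℝ)).comp
    ((ContinuousLinearMap.inr ℝ X (c0 ℝ)).comp S), fun v => ?_⟩
  have h1 : S (Θ v) = Θ (ρ v) := hS v
  change (τ ((0 : X), S (Θ v))).1 = T v
  rw [h1]
  have h2 : ((0 : X), Θ (ρ v)) = i1 (ρ v) := rfl
  rw [h2, hρ, ContinuousLinearEquiv.apply_symm_apply]
  rfl

omit [CompleteSpace X] in
/-- A finite-dimensional subspace is 2-normed by finitely many functionals. -/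
theorem fd_norming (E : Submodule ℝ X) [FiniteDimensional ℝ E] :
    ∃ α : X →L[ℝ] c0 ℝ, (∀ x, ‖α x‖ ≤ ‖x‖) ∧ ∀ x ∈ E, 1 / 2 * ‖x‖ ≤ ‖α x‖ := by
  classical
  -- finite net of the sphere
  have hcomp : IsCompact (sphere (0 : E) 1) := isCompact_sphere 0 1
  obtain ⟨t, ht, htc⟩ := hcomp.elim_nhds_subcover (fun x => ball x (1 / 2))
    (fun x _ => ball_mem_nhds x (by norm_num))
  have hg : ∀ x : E, ∃ g : StrongDual ℝ X, ‖g‖ ≤ 1 ∧ g (x : X) = ‖(x : X)‖ := by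
    intro x
    obtain ⟨g, hg1, hg2⟩ := exists_dual_vector'' ℝ (x : X)
    exact ⟨g, hg1, by simpa using hg2⟩
  choose g hg1 hg2 using hg
  -- enumerate the net
  let N := t.card
  let en : Fin N ≃ t := t.equivFin.symm
  let α : X →L[ℝ] c0 ℝ := toC0 (fun k => if h : k < N then g (en ⟨k, h⟩) else 0) 1
    (fun n x => by
      rw [one_mul]
      split_ifs with h
      · exact ((g _).le_opNorm x).trans (by
          calc ‖g (en ⟨n, h⟩)‖ * ‖x‖ ≤ 1 * ‖x‖ :=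
                mul_le_mul_of_nonneg_right (hg1 _) (norm_nonneg _)
            _ = ‖x‖ := one_mul _)
      · simp)
    (fun x => by
      refine tendsto_const_nhds.congr' ?_
      filter_upwards [eventually_ge_atTop N] with k hk
      rw [dif_neg (by omega)]; rfl)
  refine ⟨α, fun x => ?_, fun x hx => ?_⟩
  · refine c0_norm_le (norm_nonneg _) (fun k => ?_)
    change ‖(if h : k < N then g (en ⟨k, h⟩) else 0 : X →L[ℝ] ℝ) x‖ ≤ ‖x‖
    split_ifs with h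
    · exact ((g _).le_opNorm x).trans (by
          calc ‖g (en ⟨k, h⟩)‖ * ‖x‖ ≤ 1 * ‖x‖ :=
                mul_le_mul_of_nonneg_right (hg1 _) (norm_nonneg _)
            _ = ‖x‖ := one_mul _)
    · simp
  · -- by homogeneity
    have key : ∀ y : E, ‖y‖ = 1 → 1 / 2 ≤ ‖α (y : X)‖ := by
      intro y hy
      have hmem : y ∈ ⋃ x ∈ t, ball x (1 / 2 : ℝ) := htc (by simpa using hy)
      simp only [Set.mem_iUnion] at hmem
      obtain ⟨z, hz, hyz⟩ := hmem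
      have hz1 : ‖z‖ = 1 := by simpa using ht z hz
      let k := t.equivFin ⟨z, hz⟩
      have hk : (k : ℕ) < N := k.2
      have hen : en ⟨k, hk⟩ = ⟨z, hz⟩ := by simp [en, k]
      have hval : α (y : X) k = g z (y : X) := by
        change (if h : (k : ℕ) < N then g (en ⟨k, h⟩) else 0 : X →L[ℝ] ℝ) (y : X) = _
        rw [dif_pos hk, hen]
      have h1 : g z (z : X) = 1 := by rw [hg2]; exact hz1
      have h2 : |g z ((z : X) - (y : X))| ≤ 1 / 2 := by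
        refine ((g z).le_opNorm _).trans ?_
        have h3 : ‖(z : X) - (y : X)‖ ≤ 1 / 2 := by
          rw [mem_ball, dist_comm, dist_eq_norm] at hyz
          exact hyz.le
        calc ‖g z‖ * ‖(z : X) - (y : X)‖ ≤ 1 * (1 / 2) :=
              mul_le_mul (hg1 z) h3 (norm_nonneg _) zero_le_one
          _ = 1 / 2 := one_mul _
      rw [map_sub, h1] at h2
      have h4 : 1 / 2 ≤ g z (y : X) := by linarith [(abs_le.1 h2).2]
      calc 1 / 2 ≤ |α (y : X) k| := by rw [hval]; exact h4.trans (le_abs_self _)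
        _ ≤ ‖α (y : X)‖ := c0_norm_apply_le (α (y : X)) k
    rcases eq_or_ne x 0 with rfl | hx0
    · simp
    have hn : 0 < ‖x‖ := norm_pos_iff.2 hx0
    have := key ⟨‖x‖⁻¹ • x, E.smul_mem _ hx⟩ (by
      change ‖‖x‖⁻¹ • x‖ = 1
      rw [norm_smul, norm_inv, norm_norm, inv_mul_cancel₀ hn.ne'])
    change 1 / 2 ≤ ‖α (‖x‖⁻¹ • x)‖ at this
    rw [map_smul, norm_smul, norm_inv, norm_norm, ← div_eq_inv_mul, le_div_iff₀ hn] at this
    exact this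

/-- If all operators extend, they extend with a uniform bound. -/
theorem uniform_ext {V W : Type*} [NormedAddCommGroup V] [NormedSpace ℝ V]
    [NormedAddCommGroup W] [NormedSpace ℝ W] (Θ : V →L[ℝ] W)
    (h : ∀ T : V →L[ℝ] X, ∃ T' : W →L[ℝ] X, ∀ v, T' (Θ v) = T v) :
    ∃ C : ℝ, 0 < C ∧ ∀ T : V →L[ℝ] X, ∃ T' : W →L[ℝ] X, (∀ v, T' (Θ v) = T v) ∧
      ‖T'‖ ≤ C * ‖T‖ := by
  let R : (W →L[ℝ] X) →L[ℝ] (V →L[ℝ] X) := (ContinuousLinearMap.compL ℝ V W X).flip Θ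
  have hR : Surjective R := by
    intro T
    obtain ⟨T', hT'⟩ := h T
    exact ⟨T', by ext v; exact hT' v⟩
  obtain ⟨C0, hC0, hRC⟩ := ContinuousLinearMap.exists_preimage_norm_le R hR
  refine ⟨C0, hC0, fun T => ?_⟩
  obtain ⟨β, hβ, hβn⟩ := hRC T
  exact ⟨β, fun v => congrArg (fun f : V →L[ℝ] X => f v) hβ, hβn⟩

/-- Uniform factorisation for a sequence of finite-dimensional subspaces. -/
theorem factor_seq (hX : Automorphic X) (hXf : ¬ FiniteDimensional ℝ X)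
    (e : X ≃L[ℝ] X × c0 ℝ) (E : ℕ → Submodule ℝ X) (hE : ∀ n, FiniteDimensional ℝ (E n)) :
    ∃ C : ℝ, ∀ n, ∃ (α : X →L[ℝ] c0 ℝ) (β : c0 ℝ →L[ℝ] X), (∀ x ∈ E n, β (α x) = x) ∧
      ‖α‖ ≤ C ∧ ‖β‖ ≤ C := by
  classical
  choose a ha1 ha2 using fun n => @fd_norming X _ _ (E n) (hE n)
  -- the `c₀`-sum of the `E n`
  let V : Submodule ℝ (c0 X) :=
    { carrier := {v | ∀ n, v n ∈ E n}
      add_mem' := fun {u v} hu hv n => (E n).add_mem (hu n) (hv n)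
      zero_mem' := fun n => (E n).zero_mem
      smul_mem' := fun c v hv n => (E n).smul_mem c (hv n) }
  have hVmem : ∀ v : c0 X, v ∈ V ↔ ∀ n, v n ∈ E n := fun v => Iff.rfl
  have hVcl : IsClosed (V : Set (c0 X)) := by
    have : (V : Set (c0 X)) = ⋂ n, (ev n : c0 X →L[ℝ] X) ⁻¹' (E n : Set X) := by
      ext v; simp only [Set.mem_iInter, Set.mem_preimage, SetLike.mem_coe, hVmem, ev_apply]
    rw [this]
    exact isClosed_iInter (fun n => (Submodule.closed_of_finiteDimensional (E n)).preimage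
      (ev n).continuous)
  have : CompleteSpace V := hVcl.completeSpace_coe
  let Θ0 : c0 X →L[ℝ] c0 (c0 ℝ) := toC0 (fun n => (a n).comp (ev n)) 1
    (fun n x => by
      rw [one_mul]
      exact (ha1 n _).trans (c0_norm_apply_le x n))
    (fun x => by
      refine squeeze_zero_norm (fun n => ha1 n (x n)) ?_
      simpa using (c0_tendsto x).norm)
  have hΘ0 : ∀ v ∈ V, 1 / 2 * ‖v‖ ≤ ‖Θ0 v‖ := by
    intro v hv
    have h1 : ‖v‖ ≤ 2 * ‖Θ0 v‖ := by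
      refine c0_norm_le (by positivity) (fun n => ?_)
      have h2 := ha2 n (v n) (hv n)
      have h3 : ‖a n (v n)‖ ≤ ‖Θ0 v‖ := c0_norm_apply_le (Θ0 v) n
      linarith
    linarith
  let Θ1 : c0 X →L[ℝ] c0 ℝ := ((c0c0 : c0 (c0 ℝ) ≃L[ℝ] c0 ℝ) : c0 (c0 ℝ) →L[ℝ] c0 ℝ).comp Θ0
  let Θ : V →L[ℝ] c0 ℝ := Θ1.comp V.subtypeL
  obtain ⟨c1, hc1, hc1'⟩ := bddBelow_of_leftInverse
    ((c0c0 : c0 (c0 ℝ) ≃L[ℝ] c0 ℝ) : c0 (c0 ℝ) →L[ℝ] c0 ℝ)
    ((c0c0 : c0 (c0 ℝ) ≃L[ℝ] c0 ℝ).symm : c0 ℝ →L[ℝ] c0 (c0 ℝ)) (fun x => by simp)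
  obtain ⟨hΘi, hΘcl⟩ := inj_closed_of_bddBelow Θ (c := c1 * (1 / 2)) (by positivity) (fun v => by
    refine le_trans ?_ (hc1' (Θ0 v))
    rw [mul_assoc]
    exact mul_le_mul_of_nonneg_left (hΘ0 v v.2) hc1.le)
  -- the restriction map is onto
  obtain ⟨C0, hC0, hRC⟩ := uniform_ext Θ (fun T => extend_c0 hX hXf e Θ hΘi hΘcl T)
  refine ⟨max C0 ‖Θ1‖, fun n => ?_⟩
  -- the `n`-th coordinate of `V`
  let T : V →L[ℝ] X := (ev n).comp V.subtypeL
  have hT : ‖T‖ ≤ 1 := ContinuousLinearMap.opNorm_le_bound _ zero_le_one (fun v => by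
    rw [one_mul]; exact c0_norm_apply_le (v : c0 X) n)
  obtain ⟨β, hβ, hβn⟩ := hRC T
  -- the inclusion of the `n`-th coordinate
  let δ0 : X →L[ℝ] c0 X := toC0 (fun k => if k = n then ContinuousLinearMap.id ℝ X else 0) 1
    (fun k x => by
      rw [one_mul]
      split_ifs
      · exact le_rfl
      · simp)
    (fun x => by
      refine tendsto_const_nhds.congr' ?_
      filter_upwards [eventually_gt_atTop n] with k hk
      rw [if_neg (by omega)]; rfl)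
  have hδ0 : ∀ (x : X) (k : ℕ), δ0 x k = if k = n then x else 0 := by
    intro x k
    change (if k = n then ContinuousLinearMap.id ℝ X else 0 : X →L[ℝ] X) x = _
    split_ifs <;> rfl
  have hδmem : ∀ x ∈ E n, δ0 x ∈ V := by
    intro x hx k
    rw [hδ0]
    split_ifs with h
    · rw [h]; exact hx
    · exact (E k).zero_mem
  have hδn : ∀ x, ‖δ0 x‖ ≤ ‖x‖ := by
    intro x
    refine c0_norm_le (norm_nonneg _) (fun k => ?_)
    rw [hδ0]
    split_ifs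
    · exact le_rfl
    · simp
  refine ⟨Θ1.comp δ0, β, fun x hx => ?_, ?_, ?_⟩
  · have h1 : β (Θ ⟨δ0 x, hδmem x hx⟩) = T ⟨δ0 x, hδmem x hx⟩ := hβ _
    change β (Θ ⟨δ0 x, hδmem x hx⟩) = x
    rw [h1]
    change δ0 x n = x
    rw [hδ0, if_pos rfl]
  · refine le_trans ?_ (le_max_right _ _)
    refine ContinuousLinearMap.opNorm_le_bound _ Θ1.opNorm_nonneg (fun x => ?_)
    exact (Θ1.le_opNorm _).trans (mul_le_mul_of_nonneg_left (hδn x) Θ1.opNorm_nonneg)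
  · refine le_trans ?_ (le_max_left _ _)
    refine hβn.trans ?_
    calc C0 * ‖T‖ ≤ C0 * 1 := mul_le_mul_of_nonneg_left hT hC0.le
      _ = C0 := mul_one _

/-- Uniform factorisation for all finite-dimensional subspaces. -/
theorem factor_all (hX : Automorphic X) (hXf : ¬ FiniteDimensional ℝ X)
    (e : X ≃L[ℝ] X × c0 ℝ) :
    ∃ C : ℝ, ∀ E : Submodule ℝ X, FiniteDimensional ℝ E →
      ∃ (α : X →L[ℝ] c0 ℝ) (β : c0 ℝ →L[ℝ] X), (∀ x ∈ E, β (α x) = x) ∧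
        ‖α‖ ≤ C ∧ ‖β‖ ≤ C := by
  by_contra hcon
  push Not at hcon
  choose E hE hbad using fun n : ℕ => hcon n
  obtain ⟨C, hC⟩ := factor_seq hX hXf e E hE
  obtain ⟨n, hn⟩ := exists_nat_ge C
  obtain ⟨α, β, h1, h2, h3⟩ := hC n
  exact absurd (h3.trans hn) (not_le.2 (hbad n α β h1 (h2.trans hn)))

/-- If the separable space `X` contains `c₀`, then `X ≅ X × c₀`. -/
theorem absorbs_c0_of_contains [TopologicalSpace.SeparableSpace X]
    (φ : c0 ℝ →L[ℝ] X) (hφ : Injective φ) (hcl : IsClosed (Set.range φ)) :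
    Nonempty (X ≃L[ℝ] X × c0 ℝ) := by
  obtain ⟨ψ, hψ⟩ := sobczyk_leftInverse φ hφ hcl
  have e1 : X ≃L[ℝ] c0 ℝ × ψ.ker := ContinuousLinearEquiv.equivOfRightInverse ψ φ hψ
  obtain ⟨e2⟩ := c0_sq
  have e3 : (c0 ℝ × ψ.ker) ≃L[ℝ] ((c0 ℝ × c0 ℝ) × ψ.ker) :=
    e2.prodCongr (ContinuousLinearEquiv.refl ℝ ψ.ker)
  have e4 : ((c0 ℝ × c0 ℝ) × ψ.ker) ≃L[ℝ] (c0 ℝ × (c0 ℝ × ψ.ker)) :=
    ContinuousLinearEquiv.prodAssoc ℝ _ _ _
  have e5 : (c0 ℝ × (c0 ℝ × ψ.ker)) ≃L[ℝ] (c0 ℝ × X) :=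
    (ContinuousLinearEquiv.refl ℝ (c0 ℝ)).prodCongr e1.symm
  exact ⟨(((e1.trans e3).trans e4).trans e5).trans (ContinuousLinearEquiv.prodComm ℝ _ _)⟩

end ext

end Pool.Agent.H5.Auto
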