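import Pool.Agent.H5.Auto.Ext
import Pool.Agent.H5.Auto.Ell1

/-!
Automorphic spaces with an unconditional basis.
-/

set_option autoImplicit false

namespace Pool.Agent.H5.Auto

open Function Filter Topology Metric

section uncond

variable {X : Type*} [NormedAddCommGroup X] [NormedSpace ℝ X] [CompleteSpace X]
  (b : UnconditionalSchauderBasis ℕ ℝ X)

omit [CompleteSpace X] in
theorem coord_basis (i j : ℕ) : b.coord i (b j) = if i = j then 1 else 0 := by
  rw [b.ortho]
  by_cases h : i = j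
  · subst h; simp
  · simp [h]

omit [CompleteSpace X] in
theorem coord_proj (A : Finset ℕ) (i : ℕ) (x : X) :
    b.coord i (b.proj A x) = if i ∈ A then b.coord i x else 0 := by
  rw [GeneralSchauderBasis.proj_apply, map_sum]
  simp only [map_smul, coord_basis, smul_eq_mul, mul_ite, mul_one, mul_zero]
  rw [Finset.sum_ite_eq]

omit [CompleteSpace X] in
theorem proj_basis (A : Finset ℕ) (i : ℕ) : b.proj A (b i) = if i ∈ A then b i else 0 := by
  rw [GeneralSchauderBasis.proj_apply]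
  simp only [coord_basis, ite_smul, one_smul, zero_smul]
  rw [Finset.sum_ite_eq']

omit [CompleteSpace X] in
theorem proj_proj_self (A : Finset ℕ) (x : X) : b.proj A (b.proj A x) = b.proj A x := by
  rw [GeneralSchauderBasis.proj_apply, GeneralSchauderBasis.proj_apply]
  refine Finset.sum_congr rfl (fun i hi => ?_)
  rw [← GeneralSchauderBasis.proj_apply, coord_proj, if_pos hi]

omit [CompleteSpace X] in
theorem proj_proj_disjoint {A B : Finset ℕ} (h : Disjoint A B) (x : X) :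
    b.proj A (b.proj B x) = 0 := by
  rw [GeneralSchauderBasis.proj_apply]
  refine Finset.sum_eq_zero (fun i hi => ?_)
  rw [coord_proj, if_neg (Finset.disjoint_left.1 h hi), zero_smul]

omit [CompleteSpace X] in
theorem basis_ne_zero (i : ℕ) : b i ≠ 0 := by
  intro h
  have := coord_basis b i i
  rw [h, map_zero, if_pos rfl] at this
  exact zero_ne_one this

theorem exists_K0 : ∃ K : ℝ, 0 < K ∧ ∀ A : Finset ℕ, ‖b.proj A‖ ≤ K := by
  obtain ⟨C, hC⟩ := UnconditionalSchauderBasis.exists_norm_proj_le b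
  exact ⟨max C 1, by positivity, fun A => (hC A).trans (le_max_left _ _)⟩

omit [CompleteSpace X] in
/-- The basic unconditionality estimate. -/
theorem uncond_abs {K : ℝ} (hK : ∀ A : Finset ℕ, ‖b.proj A‖ ≤ K) (u : StrongDual ℝ X) (x : X)
    (s : Finset ℕ) : ∑ i ∈ s, |b.coord i x * u (b i)| ≤ 2 * K * ‖u‖ * ‖x‖ := by
  classical
  have hp : ∀ A : Finset ℕ, u (b.proj A x) = ∑ i ∈ A, b.coord i x * u (b i) := by
    intro A
    rw [GeneralSchauderBasis.proj_apply, map_sum]
    exact Finset.sum_congr rfl (fun i _ => by rw [map_smul, smul_eq_mul])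
  have hb : ∀ A : Finset ℕ, |u (b.proj A x)| ≤ K * ‖u‖ * ‖x‖ := by
    intro A
    calc |u (b.proj A x)| ≤ ‖u‖ * ‖b.proj A x‖ := u.le_opNorm _
      _ ≤ ‖u‖ * (K * ‖x‖) := by
          refine mul_le_mul_of_nonneg_left ?_ (norm_nonneg _)
          exact ((b.proj A).le_opNorm x).trans
            (mul_le_mul_of_nonneg_right (hK A) (norm_nonneg _))
      _ = K * ‖u‖ * ‖x‖ := by ring
  have hsplit := Finset.sum_filter_add_sum_filter_not s (fun i => 0 ≤ b.coord i x * u (b i))
    (fun i => |b.coord i x * u (b i)|)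
  rw [← hsplit]
  have e1 : ∑ i ∈ s with 0 ≤ b.coord i x * u (b i), |b.coord i x * u (b i)| =
      u (b.proj {i ∈ s | 0 ≤ b.coord i x * u (b i)} x) := by
    rw [hp]
    exact Finset.sum_congr rfl (fun i hi => abs_of_nonneg (Finset.mem_filter.1 hi).2)
  have e2 : ∑ i ∈ s with ¬ 0 ≤ b.coord i x * u (b i), |b.coord i x * u (b i)| =
      - u (b.proj {i ∈ s | ¬ 0 ≤ b.coord i x * u (b i)} x) := by
    rw [hp, ← Finset.sum_neg_distrib]
    exact Finset.sum_congr rfl (fun i hi => abs_of_neg (not_le.1 (Finset.mem_filter.1 hi).2))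
  rw [e1, e2]
  have h1 := (abs_le.1 (hb {i ∈ s | 0 ≤ b.coord i x * u (b i)})).2
  have h2 := (abs_le.1 (hb {i ∈ s | ¬ 0 ≤ b.coord i x * u (b i)})).1
  linarith

omit [CompleteSpace X] in
/-- Multipliers on the dual side. -/
theorem uncond_dual {K : ℝ} (hK : ∀ A : Finset ℕ, ‖b.proj A‖ ≤ K) (u : StrongDual ℝ X)
    (s : Finset ℕ) (θ : ℕ → ℝ) {C : ℝ} (hC : 0 ≤ C) (hθ : ∀ i ∈ s, |θ i| ≤ C) :
    ‖∑ i ∈ s, (θ i * u (b i)) • b.coord i‖ ≤ C * (2 * K * ‖u‖) := by
  have hK0 : 0 ≤ K := (norm_nonneg _).trans (hK ∅)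
  refine ContinuousLinearMap.opNorm_le_bound _ (by positivity) (fun x => ?_)
  have h1 : (∑ i ∈ s, (θ i * u (b i)) • b.coord i) x =
      ∑ i ∈ s, θ i * (b.coord i x * u (b i)) := by
    rw [sum_apply]
    refine Finset.sum_congr rfl (fun i _ => ?_)
    change θ i * u (b i) * b.coord i x = _
    ring
  rw [h1]
  calc ‖∑ i ∈ s, θ i * (b.coord i x * u (b i))‖ ≤ ∑ i ∈ s, |θ i * (b.coord i x * u (b i))| :=
        norm_sum_le _ _
    _ ≤ ∑ i ∈ s, C * |b.coord i x * u (b i)| := by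
        refine Finset.sum_le_sum (fun i hi => ?_)
        rw [abs_mul]
        exact mul_le_mul_of_nonneg_right (hθ i hi) (abs_nonneg _)
    _ = C * ∑ i ∈ s, |b.coord i x * u (b i)| := by rw [Finset.mul_sum]
    _ ≤ C * (2 * K * ‖u‖ * ‖x‖) := mul_le_mul_of_nonneg_left (uncond_abs b hK u x s) hC
    _ = C * (2 * K * ‖u‖) * ‖x‖ := by ring

omit [CompleteSpace X] in
/-- Norm of a vector through functionals. -/
theorem norm_le_of_dual {x : X} {M : ℝ} (h : ∀ u : StrongDual ℝ X, ‖u‖ ≤ 1 → u x ≤ M) :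
    ‖x‖ ≤ M := by
  obtain ⟨u, hu, hux⟩ := exists_dual_vector'' ℝ x
  have : u x = ‖x‖ := by simpa using hux
  rw [← this]; exact h u hu

/-! ### The `c₀` part -/

/-- Normalised basis. -/
noncomputable def nb (i : ℕ) : X := ‖b i‖⁻¹ • b i

/-- Normalised coordinate functionals. -/
noncomputable def nc (i : ℕ) : StrongDual ℝ X := ‖b i‖ • b.coord i

theorem norm_nb (i : ℕ) : ‖nb b i‖ = 1 := by
  rw [nb, norm_smul, norm_inv, norm_norm, inv_mul_cancel₀ (norm_ne_zero_iff.2 (basis_ne_zero b i))]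

theorem nc_nb (i j : ℕ) : nc b i (nb b j) = if i = j then 1 else 0 := by
  change ‖b i‖ * b.coord i (‖b j‖⁻¹ • b j) = _
  rw [map_smul, coord_basis, smul_eq_mul]
  split_ifs with h
  · subst h
    rw [mul_one, mul_inv_cancel₀ (norm_ne_zero_iff.2 (basis_ne_zero b i))]
  · rw [mul_zero, mul_zero]

theorem nc_smul_nb (i : ℕ) (x : X) : nc b i x • nb b i = b.coord i x • b i := by
  change (‖b i‖ * b.coord i x) • (‖b i‖⁻¹ • b i) = _
  rw [smul_smul, mul_comm (‖b i‖), mul_assoc,
    mul_inv_cancel₀ (norm_ne_zero_iff.2 (basis_ne_zero b i)), mul_one]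

theorem nc_mul (i : ℕ) (x : X) (u : StrongDual ℝ X) :
    nc b i x * u (nb b i) = b.coord i x * u (b i) := by
  have := congrArg u (nc_smul_nb b i x)
  simpa using this

theorem norm_nc_le {K : ℝ} (hK : ∀ A : Finset ℕ, ‖b.proj A‖ ≤ K) (i : ℕ) (x : X) :
    |nc b i x| ≤ K * ‖x‖ := by
  have h1 : ‖nc b i x • nb b i‖ = |nc b i x| := by
    rw [norm_smul, norm_nb, mul_one, Real.norm_eq_abs]
  rw [← h1, nc_smul_nb]
  have h2 : b.coord i x • b i = b.proj {i} x := by
    rw [GeneralSchauderBasis.proj_apply, Finset.sum_singleton]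
  rw [h2]
  exact ((b.proj {i}).le_opNorm x).trans (mul_le_mul_of_nonneg_right (hK _) (norm_nonneg _))

/-- Signed combinations of coordinate functionals. -/
theorem norm_signed {K : ℝ} (hK : ∀ A : Finset ℕ, ‖b.proj A‖ ≤ K) (u : StrongDual ℝ X)
    (s : Finset ℕ) (θ : ℕ → ℝ) {C : ℝ} (hC : 0 ≤ C) (hθ : ∀ i ∈ s, |θ i| ≤ C) :
    ‖∑ i ∈ s, (θ i * u (nb b i)) • nc b i‖ ≤ C * (2 * K * ‖u‖) := by
  have : ∑ i ∈ s, (θ i * u (nb b i)) • nc b i = ∑ i ∈ s, (θ i * u (b i)) • b.coord i := by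
    refine Finset.sum_congr rfl (fun i _ => ?_)
    ext x
    change θ i * u (nb b i) * nc b i x = θ i * u (b i) * b.coord i x
    have := nc_mul b i x u
    calc θ i * u (nb b i) * nc b i x = θ i * (nc b i x * u (nb b i)) := by ring
      _ = θ i * u (b i) * b.coord i x := by rw [this]; ring
  rw [this]
  exact uncond_dual b hK u s θ hC hθ

/-- The key estimate: the functionals are bounded by `ℓ¹` on the normalised basis. -/
theorem key_l1 {K C : ℝ} (hK0 : 0 < K) (hC0 : 0 < C) (hK : ∀ A : Finset ℕ, ‖b.proj A‖ ≤ K)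
    (hfac : ∀ E : Submodule ℝ X, FiniteDimensional ℝ E →
      ∃ (α : X →L[ℝ] c0 ℝ) (β : c0 ℝ →L[ℝ] X), (∀ x ∈ E, β (α x) = x) ∧ ‖α‖ ≤ C ∧ ‖β‖ ≤ C)
    (s : Finset ℕ) (u : StrongDual ℝ X) :
    ∑ i ∈ s, |u (nb b i)| ≤ (48 * C ^ 4 * K ^ 2) * ‖u‖ := by
  classical
  -- the finite-dimensional subspace
  let E : Submodule ℝ X := Submodule.span ℝ (b '' (s : Set ℕ))
  have hE : FiniteDimensional ℝ E :=
    FiniteDimensional.span_of_finite ℝ (s.finite_toSet.image _)
  obtain ⟨α, β, hβα, hα, hβ⟩ := hfac E hE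
  have hnbE : ∀ i ∈ s, nb b i ∈ E := fun i hi =>
    E.smul_mem _ (Submodule.subset_span ⟨i, hi, rfl⟩)
  have hα' : ∀ i ∈ s, β (α (nb b i)) = nb b i := fun i hi => hβα _ (hnbE i hi)
  -- matrix entries
  let A : ℕ → ℕ → ℝ := fun k i => α (nb b i) k
  let B : ℕ → ℕ → ℝ := fun k i => nc b i (β (e0 k))
  have hAle : ∀ k, ∀ i ∈ s, |A k i| ≤ C := by
    intro k i hi
    refine (c0_norm_apply_le (α (nb b i)) k).trans ?_
    refine (α.le_opNorm _).trans ?_
    rw [norm_nb, mul_one]; exact hα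
  have hsum : ∀ i ∈ s, Tendsto (fun N => ∑ k ∈ Finset.range N, A k i * B k i) atTop (𝓝 1) := by
    intro i hi
    have h1 := c0_hasSum (α (nb b i))
    have h2 : Tendsto (fun N => nc b i (β (∑ k ∈ Finset.range N, (α (nb b i)) k • e0 k))) atTop
        (𝓝 (nc b i (β (α (nb b i))))) := (((nc b i).comp β).continuous.tendsto _).comp h1
    rw [hα' i hi, nc_nb, if_pos rfl] at h2
    refine h2.congr (fun N => ?_)
    rw [map_sum, map_sum]
    refine Finset.sum_congr rfl (fun k _ => ?_)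
    rw [map_smul, map_smul, smul_eq_mul]
  obtain ⟨N, hN⟩ : ∃ N, ∀ i ∈ s, 1 / 2 ≤ ∑ k ∈ Finset.range N, A k i * B k i := by
    have h1 : ∀ i ∈ s, ∀ᶠ N in atTop, (1 / 2 : ℝ) < ∑ k ∈ Finset.range N, A k i * B k i :=
      fun i hi => (hsum i hi).eventually_const_lt (by norm_num)
    obtain ⟨N, hN⟩ := ((Filter.eventually_all_finset s).2 h1).exists
    exact ⟨N, fun i hi => (hN i hi).le⟩
  set κ := Finset.range N with hκ
  have h2pos : (0 : ℝ) < 2 ^ s.card := by positivity
  have hcard : (s.powerset.card : ℝ) = 2 ^ s.card := by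
    rw [Finset.card_powerset]; push_cast; rfl
  -- (A)
  have stepA : ∀ w : StrongDual ℝ X, ∑ k ∈ κ, √(∑ i ∈ s, (w (nb b i) * B k i) ^ 2) ≤
      √3 * (C * (2 * K * ‖w‖)) := by
    intro w
    have hup : ∀ t ∈ s.powerset, ∑ k ∈ κ, |ssum (fun i => w (nb b i) * B k i) s t| ≤
        C * (2 * K * ‖w‖) := by
      intro t _
      let θ : ℕ → ℝ := fun i => if i ∈ t then 1 else -1
      let v : StrongDual ℝ X := ∑ i ∈ s, (θ i * w (nb b i)) • nc b i
      have hv : ‖v‖ ≤ 1 * (2 * K * ‖w‖) := norm_signed b hK w s θ zero_le_one (fun i _ => by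
        simp only [θ]; split_ifs <;> simp)
      have h1 : ∀ k, v (β (e0 k)) = ssum (fun i => w (nb b i) * B k i) s t := by
        intro k
        rw [show v (β (e0 k)) = ∑ i ∈ s, ((θ i * w (nb b i)) • nc b i) (β (e0 k)) from
          sum_apply _ _ _]
        unfold ssum
        refine Finset.sum_congr rfl (fun i _ => ?_)
        change θ i * w (nb b i) * nc b i (β (e0 k)) = _
        simp only [θ, B]
        split_ifs <;> ring
      calc ∑ k ∈ κ, |ssum (fun i => w (nb b i) * B k i) s t| =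
            ∑ k ∈ κ, |(v.comp β) (e0 k)| :=
            Finset.sum_congr rfl (fun k _ => by rw [← h1 k]; rfl)
        _ ≤ ‖v.comp β‖ := c0_dual_sum_le (v.comp β) κ
        _ ≤ ‖v‖ * ‖β‖ := v.opNorm_comp_le β
        _ ≤ (1 * (2 * K * ‖w‖)) * C :=
            mul_le_mul hv hβ β.opNorm_nonneg (by positivity)
        _ = C * (2 * K * ‖w‖) := by ring
    have hup2 : ∑ t ∈ s.powerset, ∑ k ∈ κ, |ssum (fun i => w (nb b i) * B k i) s t| ≤
        2 ^ s.card * (C * (2 * K * ‖w‖)) := by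
      calc _ ≤ ∑ t ∈ s.powerset, C * (2 * K * ‖w‖) := Finset.sum_le_sum hup
        _ = 2 ^ s.card * (C * (2 * K * ‖w‖)) := by
            rw [Finset.sum_const, nsmul_eq_mul, hcard]
    rw [Finset.sum_comm] at hup2
    have hlow : 2 ^ s.card * ∑ k ∈ κ, √(∑ i ∈ s, (w (nb b i) * B k i) ^ 2) ≤
        √3 * ∑ k ∈ κ, ∑ t ∈ s.powerset, |ssum (fun i => w (nb b i) * B k i) s t| := by
      rw [Finset.mul_sum, Finset.mul_sum]
      exact Finset.sum_le_sum (fun k _ => khintchine (fun i => w (nb b i) * B k i) s)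
    have : 2 ^ s.card * ∑ k ∈ κ, √(∑ i ∈ s, (w (nb b i) * B k i) ^ 2) ≤
        2 ^ s.card * (√3 * (C * (2 * K * ‖w‖))) := by
      refine hlow.trans ?_
      calc _ ≤ √3 * (2 ^ s.card * (C * (2 * K * ‖w‖))) :=
            mul_le_mul_of_nonneg_left hup2 (Real.sqrt_nonneg _)
        _ = 2 ^ s.card * (√3 * (C * (2 * K * ‖w‖))) := by ring
    exact le_of_mul_le_mul_left this h2pos
  -- (B)
  have hBlow : ∀ i ∈ s, 1 / (2 * C) ≤ ∑ k ∈ κ, |B k i| := by
    intro i hi
    have h1 := hN i hi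
    have h2 : ∑ k ∈ κ, A k i * B k i ≤ C * ∑ k ∈ κ, |B k i| := by
      rw [Finset.mul_sum]
      refine Finset.sum_le_sum (fun k _ => ?_)
      calc A k i * B k i ≤ |A k i * B k i| := le_abs_self _
        _ = |A k i| * |B k i| := abs_mul _ _
        _ ≤ C * |B k i| := mul_le_mul_of_nonneg_right (hAle k i hi) (abs_nonneg _)
    rw [div_le_iff₀ (by positivity)]
    nlinarith
  have stepB : ∀ w : StrongDual ℝ X, √(∑ i ∈ s, (w (nb b i)) ^ 2) ≤
      2 * C * (√3 * (C * (2 * K * ‖w‖))) := by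
    intro w
    have h1 := mink s κ (fun k i => |w (nb b i) * B k i|)
    have e1 : ∑ k ∈ κ, √(∑ i ∈ s, |w (nb b i) * B k i| ^ 2) =
        ∑ k ∈ κ, √(∑ i ∈ s, (w (nb b i) * B k i) ^ 2) := by simp only [sq_abs]
    rw [e1] at h1
    have h2 := h1.trans (stepA w)
    have h3 : √(∑ i ∈ s, ((1 / (2 * C)) * |w (nb b i)|) ^ 2) ≤
        √(∑ i ∈ s, (∑ k ∈ κ, |w (nb b i) * B k i|) ^ 2) := by
      refine Real.sqrt_le_sqrt (Finset.sum_le_sum (fun i hi => ?_))
      refine pow_le_pow_left₀ (by positivity) ?_ 2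
      have : ∑ k ∈ κ, |w (nb b i) * B k i| = |w (nb b i)| * ∑ k ∈ κ, |B k i| := by
        rw [Finset.mul_sum]
        exact Finset.sum_congr rfl (fun k _ => abs_mul _ _)
      rw [this, mul_comm]
      exact mul_le_mul_of_nonneg_left (hBlow i hi) (abs_nonneg _)
    have h4 : √(∑ i ∈ s, ((1 / (2 * C)) * |w (nb b i)|) ^ 2) =
        1 / (2 * C) * √(∑ i ∈ s, (w (nb b i)) ^ 2) := by
      have : ∑ i ∈ s, ((1 / (2 * C)) * |w (nb b i)|) ^ 2 =
          (1 / (2 * C)) ^ 2 * ∑ i ∈ s, (w (nb b i)) ^ 2 := by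
        rw [Finset.mul_sum]
        exact Finset.sum_congr rfl (fun i _ => by rw [mul_pow, sq_abs])
      rw [this, Real.sqrt_mul (by positivity), Real.sqrt_sq (by positivity)]
    rw [h4] at h3
    have h5 := h3.trans h2
    rw [one_div, inv_mul_le_iff₀ (by positivity)] at h5
    exact h5
  -- (B') rows of `A`
  have stepB' : ∀ k, √(∑ i ∈ s, (A k i) ^ 2) ≤ 2 * C * (√3 * (C * (2 * K * C))) := by
    intro k
    let w : StrongDual ℝ X := (ev k).comp α
    have hw : ‖w‖ ≤ C := by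
      refine ContinuousLinearMap.opNorm_le_bound _ hC0.le (fun x => ?_)
      exact (c0_norm_apply_le (α x) k).trans ((α.le_opNorm x).trans
        (mul_le_mul_of_nonneg_right hα (norm_nonneg _)))
    have h1 := stepB w
    have h2 : ∑ i ∈ s, (w (nb b i)) ^ 2 = ∑ i ∈ s, (A k i) ^ 2 := rfl
    rw [h2] at h1
    refine h1.trans ?_
    have : 0 ≤ √3 := Real.sqrt_nonneg 3
    gcongr
  -- (C)
  have hC1 : ∑ i ∈ s, |u (nb b i)| * (1 / 2) ≤ ∑ k ∈ κ, ∑ i ∈ s, |A k i| * |u (nb b i) * B k i| := by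
    rw [Finset.sum_comm]
    refine Finset.sum_le_sum (fun i hi => ?_)
    calc |u (nb b i)| * (1 / 2) ≤ |u (nb b i)| * ∑ k ∈ κ, A k i * B k i :=
          mul_le_mul_of_nonneg_left (hN i hi) (abs_nonneg _)
      _ ≤ ∑ k ∈ κ, |A k i| * |u (nb b i) * B k i| := by
          rw [Finset.mul_sum]
          refine Finset.sum_le_sum (fun k _ => ?_)
          calc |u (nb b i)| * (A k i * B k i) ≤ |u (nb b i)| * |A k i * B k i| :=
                mul_le_mul_of_nonneg_left (le_abs_self _) (abs_nonneg _)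
            _ = |A k i| * |u (nb b i) * B k i| := by rw [abs_mul, abs_mul]; ring
  have hC2 : ∑ k ∈ κ, ∑ i ∈ s, |A k i| * |u (nb b i) * B k i| ≤
      ∑ k ∈ κ, √(∑ i ∈ s, (A k i) ^ 2) * √(∑ i ∈ s, (u (nb b i) * B k i) ^ 2) := by
    refine Finset.sum_le_sum (fun k _ => ?_)
    have := Real.sum_mul_le_sqrt_mul_sqrt s (fun i => |A k i|) (fun i => |u (nb b i) * B k i|)
    simpa only [sq_abs] using this
  have hC3 : ∑ k ∈ κ, √(∑ i ∈ s, (A k i) ^ 2) * √(∑ i ∈ s, (u (nb b i) * B k i) ^ 2) ≤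
      (2 * C * (√3 * (C * (2 * K * C)))) * (√3 * (C * (2 * K * ‖u‖))) := by
    calc _ ≤ ∑ k ∈ κ, (2 * C * (√3 * (C * (2 * K * C)))) *
          √(∑ i ∈ s, (u (nb b i) * B k i) ^ 2) :=
          Finset.sum_le_sum (fun k _ => mul_le_mul_of_nonneg_right (stepB' k) (Real.sqrt_nonneg _))
      _ = (2 * C * (√3 * (C * (2 * K * C)))) *
          ∑ k ∈ κ, √(∑ i ∈ s, (u (nb b i) * B k i) ^ 2) := by rw [Finset.mul_sum]
      _ ≤ _ := mul_le_mul_of_nonneg_left (stepA u) (by positivity)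
  have h3 : √3 * √3 = (3 : ℝ) := Real.mul_self_sqrt (by norm_num)
  have hfin : (2 * C * (√3 * (C * (2 * K * C)))) * (√3 * (C * (2 * K * ‖u‖))) =
      24 * C ^ 4 * K ^ 2 * ‖u‖ := by
    calc _ = (√3 * √3) * (8 * C ^ 4 * K ^ 2 * ‖u‖) := by ring
      _ = 24 * C ^ 4 * K ^ 2 * ‖u‖ := by rw [h3]; ring
  rw [hfin] at hC3
  rw [← Finset.sum_mul] at hC1
  linarith

include b in
/-- Uniform factorisation through `c₀` forces `X ≅ c₀` in the presence of an unconditional
basis. -/
theorem equiv_c0_of_factor {C : ℝ}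
    (hfac : ∀ E : Submodule ℝ X, FiniteDimensional ℝ E →
      ∃ (α : X →L[ℝ] c0 ℝ) (β : c0 ℝ →L[ℝ] X), (∀ x ∈ E, β (α x) = x) ∧ ‖α‖ ≤ C ∧ ‖β‖ ≤ C) :
    Nonempty (X ≃L[ℝ] c0 ℝ) := by
  obtain ⟨K, hK0, hK⟩ := exists_K0 b
  have hfac' : ∀ E : Submodule ℝ X, FiniteDimensional ℝ E →
      ∃ (α : X →L[ℝ] c0 ℝ) (β : c0 ℝ →L[ℝ] X), (∀ x ∈ E, β (α x) = x) ∧ ‖α‖ ≤ max C 1 ∧
        ‖β‖ ≤ max C 1 := by
    intro E hE
    obtain ⟨α, β, h1, h2, h3⟩ := hfac E hE
    exact ⟨α, β, h1, h2.trans (le_max_left _ _), h3.trans (le_max_left _ _)⟩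
  have hC0 : 0 < max C 1 := by positivity
  set D := 48 * (max C 1) ^ 4 * K ^ 2 with hD
  have hD0 : 0 < D := by positivity
  have hkey := key_l1 b hK0 hC0 hK hfac'
  have hpart : ∀ (a : ℕ → ℝ) (M : ℝ) (s : Finset ℕ), 0 ≤ M → (∀ n ∈ s, |a n| ≤ M) →
      ‖∑ n ∈ s, a n • nb b n‖ ≤ D * M := by
    intro a M s hM ha
    refine norm_le_of_dual (fun u hu => ?_)
    rw [map_sum]
    calc ∑ n ∈ s, u (a n • nb b n) ≤ ∑ n ∈ s, M * |u (nb b n)| := by
          refine Finset.sum_le_sum (fun n hn => ?_)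
          rw [map_smul, smul_eq_mul]
          calc a n * u (nb b n) ≤ |a n * u (nb b n)| := le_abs_self _
            _ = |a n| * |u (nb b n)| := abs_mul _ _
            _ ≤ M * |u (nb b n)| := mul_le_mul_of_nonneg_right (ha n hn) (abs_nonneg _)
      _ = M * ∑ n ∈ s, |u (nb b n)| := by rw [Finset.mul_sum]
      _ ≤ M * (D * ‖u‖) := mul_le_mul_of_nonneg_left (hkey s u) hM
      _ ≤ M * (D * 1) := by gcongr
      _ = D * M := by ring
  obtain ⟨S, hS⟩ := exists_c0_map (nb b) hD0 hpart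
  have hterm : ∀ x, Tendsto (fun n => nc b n x) atTop (𝓝 0) := by
    intro x
    have h1 := (b.expansion x).summable.tendsto_cofinite_zero
    rw [Nat.cofinite_eq_atTop] at h1
    refine squeeze_zero_norm (fun n => ?_) (tendsto_zero_iff_norm_tendsto_zero.1 h1)
    rw [← nc_smul_nb, norm_smul, norm_nb, mul_one]
  let P : X →L[ℝ] c0 ℝ := toC0 (nc b) K (fun n x => norm_nc_le b hK n x) hterm
  refine ⟨ContinuousLinearEquiv.equivOfInverse P S (fun x => ?_) (fun a => ?_)⟩
  · have h1 := hS (P x)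
    have h2 : HasSum (fun n => P x n • nb b n) x := by
      have e : (fun n => P x n • nb b n) = fun n => b.coord n x • b n := by
        funext n; exact nc_smul_nb b n x
      rw [e]; exact b.expansion x
    exact h1.unique h2
  · ext j
    change nc b j (S a) = a j
    have h1 := (hS a).mapL (nc b j)
    have h2 : HasSum (fun n => nc b j (a n • nb b n)) (a j) := by
      have : (fun n => nc b j (a n • nb b n)) = fun n => if n = j then a j else 0 := by
        funext n
        rw [map_smul, nc_nb, smul_eq_mul]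
        by_cases h : j = n
        · subst h; simp
        · rw [if_neg h, if_neg (fun h' => h h'.symm), mul_zero]
      rw [this]
      exact hasSum_ite_eq j (a j)
    exact h1.unique h2

/-! ### James-type lemmas -/

/-- Pairwise disjoint choices. -/
theorem exists_disjoint_seq {P : Finset ℕ → Prop} (h : ∀ s : Finset ℕ, ∃ t, Disjoint t s ∧ P t) :
    ∃ t : ℕ → Finset ℕ, (∀ n, P (t n)) ∧ Pairwise (fun i j => Disjoint (t i) (t j)) := by
  classical
  choose f hf1 hf2 using h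
  -- `g n` = union of the first `n` sets
  let g : ℕ → Finset ℕ := fun n => Nat.rec ∅ (fun _ s => s ∪ f s) n
  have hg : ∀ n, g (n + 1) = g n ∪ f (g n) := fun n => rfl
  have hmono : Monotone g := monotone_nat_of_le_succ (fun n => by
    rw [hg]; exact Finset.subset_union_left)
  refine ⟨fun n => f (g n), fun n => hf2 _, ?_⟩
  have key : ∀ i j, i < j → Disjoint (f (g i)) (f (g j)) := by
    intro i j hij
    have h1 : f (g i) ⊆ g j := by
      refine Finset.Subset.trans ?_ (hmono (Nat.succ_le_of_lt hij))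
      rw [Nat.succ_eq_add_one, hg]; exact Finset.subset_union_right
    exact ((hf1 (g j)).mono_right h1).symm
  intro i j hij
  rcases lt_or_gt_of_ne hij with h | h
  · exact key i j h
  · exact (key j i h).symm

/-- If `X` has an unconditional basis and a bounded functional on the dual does not define a
convergent series, `X` contains `c₀`. -/
theorem c0_of_not_summable (F : StrongDual ℝ (StrongDual ℝ X))
    (hF : ¬ Summable (fun i => F (b.coord i) • b i)) :
    ∃ φ : c0 ℝ →L[ℝ] X, Injective φ ∧ IsClosed (Set.range φ) := by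
  classical
  obtain ⟨K, hK0, hK⟩ := exists_K0 b
  rw [summable_iff_vanishing_norm] at hF
  push Not at hF
  obtain ⟨ε, hε, hF⟩ := hF
  obtain ⟨t, ht, htd⟩ := exists_disjoint_seq
    (P := fun t => ε ≤ ‖∑ i ∈ t, F (b.coord i) • b i‖) hF
  let v : ℕ → X := fun n => ∑ i ∈ t n, F (b.coord i) • b i
  set D := 2 * K * ‖F‖ + 1 with hD
  have hD0 : 0 < D := by positivity
  have hpart : ∀ (a : ℕ → ℝ) (M : ℝ) (s : Finset ℕ), 0 ≤ M → (∀ n ∈ s, |a n| ≤ M) →
      ‖∑ n ∈ s, a n • v n‖ ≤ D * M := by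
    intro a M s hM ha
    refine norm_le_of_dual (fun u hu => ?_)
    -- rewrite as a signed sum over the union
    let θ : ℕ → ℝ := fun i => if h : ∃ n ∈ s, i ∈ t n then a h.choose else 0
    have hθn : ∀ n ∈ s, ∀ i ∈ t n, θ i = a n := by
      intro n hn i hi
      have h : ∃ m ∈ s, i ∈ t m := ⟨n, hn, hi⟩
      simp only [θ]
      rw [dif_pos h]
      congr 1
      by_contra hne
      exact (Finset.disjoint_left.1 (htd hne) h.choose_spec.2) hi
    have h1 : u (∑ n ∈ s, a n • v n) =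
        F (∑ i ∈ s.biUnion t, (θ i * u (b i)) • b.coord i) := by
      rw [map_sum, map_sum, Finset.sum_biUnion (fun i _ j _ hij => htd hij)]
      refine Finset.sum_congr rfl (fun n hn => ?_)
      simp only [v]
      rw [map_smul, map_sum, smul_eq_mul, Finset.mul_sum]
      refine Finset.sum_congr rfl (fun i hi => ?_)
      rw [map_smul, map_smul, hθn n hn i hi, smul_eq_mul, smul_eq_mul]
      ring
    have h2 : ‖∑ i ∈ s.biUnion t, (θ i * u (b i)) • b.coord i‖ ≤ M * (2 * K * ‖u‖) := by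
      refine uncond_dual b hK u _ θ hM (fun i hi => ?_)
      obtain ⟨n, hn, hi⟩ := Finset.mem_biUnion.1 hi
      rw [hθn n hn i hi]; exact ha n hn
    rw [h1]
    calc F (∑ i ∈ s.biUnion t, (θ i * u (b i)) • b.coord i)
        ≤ ‖F (∑ i ∈ s.biUnion t, (θ i * u (b i)) • b.coord i)‖ := le_abs_self _
      _ ≤ ‖F‖ * ‖∑ i ∈ s.biUnion t, (θ i * u (b i)) • b.coord i‖ := F.le_opNorm _
      _ ≤ ‖F‖ * (M * (2 * K * ‖u‖)) := mul_le_mul_of_nonneg_left h2 F.opNorm_nonneg
      _ ≤ ‖F‖ * (M * (2 * K * 1)) := by gcongr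
      _ ≤ D * M := by rw [hD]; nlinarith [norm_nonneg F]
  obtain ⟨S, hS⟩ := exists_c0_map v hD0 hpart
  have hlow : ∀ a, (ε / K) * ‖a‖ ≤ ‖S a‖ := by
    intro a
    have h1 : ‖a‖ ≤ K / ε * ‖S a‖ := by
      refine c0_norm_le (by positivity) (fun j => ?_)
      have h2 : b.proj (t j) (S a) = a j • v j := by
        have h3 := (hS a).mapL (b.proj (t j))
        have h4 : HasSum (fun n => b.proj (t j) (a n • v n)) (a j • v j) := by
          have : (fun n => b.proj (t j) (a n • v n)) = fun n => if n = j then a j • v j else 0 := by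
            funext n
            rw [map_smul]
            have h5 : b.proj (t j) (v n) = ∑ i ∈ t n, F (b.coord i) • (if i ∈ t j then b i else 0) := by
              simp only [v]
              rw [map_sum]
              exact Finset.sum_congr rfl (fun i _ => by
                rw [map_smul, proj_basis])
            by_cases h : n = j
            · subst h
              rw [if_pos rfl, h5]
              congr 1
              exact Finset.sum_congr rfl (fun i hi => by rw [if_pos hi])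
            · rw [if_neg h, h5]
              have : ∑ i ∈ t n, F (b.coord i) • (if i ∈ t j then b i else 0) = 0 :=
                Finset.sum_eq_zero (fun i hi => by
                  rw [if_neg (Finset.disjoint_left.1 (htd h) hi), smul_zero])
              rw [this, smul_zero]
          rw [this]
          exact hasSum_ite_eq j (a j • v j)
        exact h3.unique h4
      have h6 : ‖a j • v j‖ ≤ K * ‖S a‖ := by
        rw [← h2]
        exact ((b.proj (t j)).le_opNorm _).trans (mul_le_mul_of_nonneg_right (hK _) (norm_nonneg _))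
      rw [norm_smul] at h6
      have h7 : ‖a j‖ * ε ≤ K * ‖S a‖ :=
        (mul_le_mul_of_nonneg_left (ht j) (norm_nonneg _)).trans h6
      rw [div_mul_eq_mul_div, le_div_iff₀ hε]
      exact h7
    rw [div_mul_eq_mul_div, div_le_iff₀ hK0, mul_comm]
    rw [div_mul_eq_mul_div, le_div_iff₀ hε] at h1
    linarith
  obtain ⟨h1, h2⟩ := inj_closed_of_bddBelow S (c := ε / K) (by positivity) hlow
  exact ⟨S, h1, h2⟩

/-- If the unconditional basis is not shrinking, `ℓ¹` is complemented in `X`. -/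
theorem l1_of_not_shrinking (f : StrongDual ℝ X)
    (hf : ¬ Tendsto (fun s : Finset ℕ => f.comp (b.proj s)) atTop (𝓝 f)) :
    ∃ (S : l1 →L[ℝ] X) (P : X →L[ℝ] l1), ∀ a, P (S a) = a := by
  classical
  obtain ⟨K, hK0, hK⟩ := exists_K0 b
  rw [Metric.tendsto_atTop] at hf
  push Not at hf
  obtain ⟨ε, hε, hf⟩ := hf
  -- blocks
  have hblock : ∀ s : Finset ℕ, ∃ t, Disjoint t s ∧
      ∃ x : X, ‖x‖ ≤ 1 ∧ ε / 2 ≤ f (b.proj t x) := by
    intro s
    obtain ⟨s', hs', hd⟩ := hf s
    rw [dist_eq_norm] at hd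
    -- a vector where the difference is large
    obtain ⟨x, hx1, hx2⟩ : ∃ x : X, ‖x‖ ≤ 1 ∧ 3 * ε / 4 < |f (b.proj s' x) - f x| := by
      obtain ⟨x, hx1, hx2⟩ := ContinuousLinearMap.exists_lt_apply_of_lt_opNorm
        (f.comp (b.proj s') - f) (r := 3 * ε / 4) (by linarith)
      exact ⟨x, hx1.le, hx2⟩
    have hlim : Tendsto (fun A => f (b.proj A x)) atTop (𝓝 (f x)) :=
      (f.continuous.tendsto _).comp (GeneralSchauderBasis.tendsto_proj b x)
    rw [Metric.tendsto_atTop] at hlim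
    obtain ⟨A0, hA0⟩ := hlim (ε / 4) (by positivity)
    set A := A0 ∪ s' with hA
    have hAd : |f (b.proj A x) - f x| < ε / 4 := by
      have := hA0 A Finset.subset_union_left
      rwa [Real.dist_eq] at this
    have hsplit : b.proj A x = b.proj (A \ s') x + b.proj s' x := by
      rw [GeneralSchauderBasis.proj_apply, GeneralSchauderBasis.proj_apply,
        GeneralSchauderBasis.proj_apply, Finset.sum_sdiff Finset.subset_union_right]
    have hbig : ε / 2 ≤ |f (b.proj (A \ s') x)| := by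
      have h1 : f (b.proj (A \ s') x) = (f (b.proj A x) - f x) - (f (b.proj s' x) - f x) := by
        rw [hsplit, map_add]; ring
      rw [h1]
      have h2 := abs_sub_abs_le_abs_sub (f (b.proj s' x) - f x) (f (b.proj A x) - f x)
      rw [abs_sub_comm (f (b.proj s' x) - f x)] at h2
      linarith
    refine ⟨A \ s', ?_, ?_⟩
    · exact Finset.disjoint_left.2 (fun i hi his => (Finset.mem_sdiff.1 hi).2 (hs' his))
    · rcases le_total 0 (f (b.proj (A \ s') x)) with h | h
      · exact ⟨x, hx1, by rwa [abs_of_nonneg h] at hbig⟩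
      · exact ⟨-x, by rwa [norm_neg], by rw [map_neg, map_neg]; rwa [abs_of_nonpos h] at hbig⟩
  obtain ⟨t, ht, htd⟩ := exists_disjoint_seq hblock
  choose x hx1 hx2 using ht
  let y : ℕ → X := fun n => b.proj (t n) (x n)
  have hyn : ∀ n, ‖y n‖ ≤ K := by
    intro n
    calc ‖b.proj (t n) (x n)‖ ≤ ‖b.proj (t n)‖ * ‖x n‖ := (b.proj (t n)).le_opNorm _
      _ ≤ K * 1 := mul_le_mul (hK _) (hx1 n) (norm_nonneg _) hK0.le
      _ = K := mul_one _
  have hfy : ∀ n, ε / 2 ≤ f (y n) := hx2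
  have hfy0 : ∀ n, 0 < f (y n) := fun n => lt_of_lt_of_le (by positivity) (hfy n)
  obtain ⟨S, hS⟩ := exists_fromL1 y hK0.le hyn
  let g : ℕ → X →L[ℝ] ℝ := fun n => (f (y n))⁻¹ • f.comp (b.proj (t n))
  have hgval : ∀ n z, g n z = (f (y n))⁻¹ * f (b.proj (t n) z) := fun n z => rfl
  have hg : ∀ (z : X) (s : Finset ℕ), ∑ n ∈ s, |g n z| ≤ (2 / ε * (2 * K * ‖f‖)) * ‖z‖ := by
    intro z s
    calc ∑ n ∈ s, |g n z| ≤ ∑ n ∈ s, 2 / ε * ∑ i ∈ t n, |b.coord i z * f (b i)| := by
          refine Finset.sum_le_sum (fun n _ => ?_)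
          rw [hgval, abs_mul, abs_inv, abs_of_pos (hfy0 n)]
          have h1 : (f (y n))⁻¹ ≤ 2 / ε := by
            rw [inv_le_comm₀ (hfy0 n) (by positivity), inv_div]
            exact hfy n
          have h2 : |f (b.proj (t n) z)| ≤ ∑ i ∈ t n, |b.coord i z * f (b i)| := by
            rw [GeneralSchauderBasis.proj_apply, map_sum]
            refine (Finset.abs_sum_le_sum_abs _ _).trans_eq (Finset.sum_congr rfl (fun i _ => ?_))
            rw [map_smul, smul_eq_mul]
          exact mul_le_mul h1 h2 (abs_nonneg _) (by positivity)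
      _ = 2 / ε * ∑ i ∈ s.biUnion t, |b.coord i z * f (b i)| := by
          rw [← Finset.mul_sum, Finset.sum_biUnion (fun i _ j _ hij => htd hij)]
      _ ≤ 2 / ε * (2 * K * ‖f‖ * ‖z‖) :=
          mul_le_mul_of_nonneg_left (uncond_abs b hK f z _) (by positivity)
      _ = (2 / ε * (2 * K * ‖f‖)) * ‖z‖ := by ring
  let P : X →L[ℝ] l1 := toL1 g _ hg
  refine ⟨S, P, fun a => ?_⟩
  ext n
  change g n (S a) = a n
  have h1 := (hS a).mapL (g n)
  have h2 : HasSum (fun m => g n (a m • y m)) (a n) := by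
    have : (fun m => g n (a m • y m)) = fun m => if m = n then a n else 0 := by
      funext m
      rw [map_smul, smul_eq_mul, hgval]
      by_cases h : m = n
      · subst h
        have h3 : b.proj (t m) (y m) = y m := proj_proj_self b (t m) (x m)
        rw [if_pos rfl, h3, inv_mul_cancel₀ (hfy0 m).ne', mul_one]
      · have h3 : b.proj (t n) (y m) = 0 :=
          proj_proj_disjoint b (htd (fun h' => h h'.symm)) (x m)
        rw [if_neg h, h3, map_zero, mul_zero, mul_zero]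
    rw [this]
    exact hasSum_ite_eq n (a n)
  exact h1.unique h2

end uncond

section main

variable {X : Type*} [NormedAddCommGroup X] [NormedSpace ℝ X] [CompleteSpace X]

omit [CompleteSpace X] in
/-- If `ℓ¹` is complemented in `X`, then `X ≅ X × ℓ¹`. -/
theorem absorbs_l1 (S : l1 →L[ℝ] X) (P : X →L[ℝ] l1) (h : ∀ a, P (S a) = a) :
    Nonempty (X ≃L[ℝ] X × l1) := by
  have e1 : X ≃L[ℝ] l1 × P.ker := ContinuousLinearEquiv.equivOfRightInverse P S h
  obtain ⟨e2⟩ := l1_sq
  have e3 : (l1 × P.ker) ≃L[ℝ] ((l1 × l1) × P.ker) :=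
    e2.prodCongr (ContinuousLinearEquiv.refl ℝ P.ker)
  have e4 : ((l1 × l1) × P.ker) ≃L[ℝ] (l1 × (l1 × P.ker)) :=
    ContinuousLinearEquiv.prodAssoc ℝ _ _ _
  have e5 : (l1 × (l1 × P.ker)) ≃L[ℝ] (l1 × X) :=
    (ContinuousLinearEquiv.refl ℝ l1).prodCongr e1.symm
  exact ⟨(((e1.trans e3).trans e4).trans e5).trans (ContinuousLinearEquiv.prodComm ℝ _ _)⟩

/-- The Rademacher functionals on `ℓ¹`. -/
theorem exists_rademacher : ∃ r : ℕ → StrongDual ℝ l1, (∀ n, ‖r n‖ ≤ 1) ∧
    ∀ (s : Finset ℕ) (c : ℕ → ℝ), ∃ k : ℕ, ∑ n ∈ s, |c n| = ∑ n ∈ s, c n * r n (s1 k) := by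
  classical
  obtain ⟨D, hD⟩ := exists_surjective_nat (Finset ℕ)
  let sg : ℕ → ℕ → ℝ := fun n k => if n ∈ D k then 1 else -1
  have hr : ∀ n, ∃ r : StrongDual ℝ l1, ‖r‖ ≤ 1 ∧ ∀ k, r (s1 k) = sg n k := by
    intro n
    obtain ⟨S, hS⟩ := exists_fromL1 (V := ℝ) (sg n) zero_le_one (fun k => by
      simp only [sg]; split_ifs <;> simp)
    refine ⟨S, ContinuousLinearMap.opNorm_le_bound _ zero_le_one (fun a => ?_), fun k => ?_⟩
    · have h1 := (hS a).tendsto_sum_nat
      refine le_of_tendsto h1.norm (Eventually.of_forall (fun N => ?_))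
      rw [one_mul]
      refine le_trans (norm_sum_le _ _) (le_trans (Finset.sum_le_sum (fun i _ => ?_))
        (l1_sum_le a (Finset.range N)))
      rw [norm_smul]
      have : ‖sg n i‖ = 1 := by simp only [sg]; split_ifs <;> simp
      rw [this, mul_one]; exact le_rfl
    · have h1 := hS (s1 k)
      have h2 : HasSum (fun m => s1 k m • sg n m) (sg n k) := by
        have : (fun m => s1 k m • sg n m) = fun m => if m = k then sg n k else 0 := by
          funext m
          rw [s1_apply]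
          by_cases h : m = k
          · subst h; simp
          · simp [h]
        rw [this]
        exact hasSum_ite_eq k (sg n k)
      exact h1.unique h2
  choose r hr1 hr2 using hr
  refine ⟨r, hr1, fun s c => ?_⟩
  obtain ⟨k, hk⟩ := hD (s.filter (fun n => 0 ≤ c n))
  refine ⟨k, Finset.sum_congr rfl (fun n hn => ?_)⟩
  rw [hr2]
  simp only [sg]
  rw [hk]
  by_cases h : 0 ≤ c n
  · have h1 : n ∈ s.filter (fun n => 0 ≤ c n) := Finset.mem_filter.2 ⟨hn, h⟩
    rw [if_pos h1, mul_one, abs_of_nonneg h]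
  · have h1 : n ∉ s.filter (fun n => 0 ≤ c n) := fun h' => h (Finset.mem_filter.1 h').2
    rw [if_neg h1, abs_of_neg (not_le.1 h)]
    ring

omit [CompleteSpace X] in
/-- If `ℓ¹` is complemented in `X`, then `X*` contains `ℓ¹`. -/
theorem dual_l1_of_l1 (S : l1 →L[ℝ] X) (P : X →L[ℝ] l1) (h : ∀ a, P (S a) = a) :
    ∃ (f : ℕ → StrongDual ℝ X) (M c : ℝ), (∀ n, ‖f n‖ ≤ M) ∧ 0 < c ∧
      ∀ (s : Finset ℕ) (a : ℕ → ℝ), c * ∑ n ∈ s, |a n| ≤ ‖∑ n ∈ s, a n • f n‖ := by
  obtain ⟨r, hr1, hr2⟩ := exists_rademacher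
  refine ⟨fun n => (r n).comp P, ‖P‖, (‖S‖ + 1)⁻¹, fun n => ?_, by positivity, fun s a => ?_⟩
  · refine ContinuousLinearMap.opNorm_le_bound _ P.opNorm_nonneg (fun x => ?_)
    calc ‖r n (P x)‖ ≤ ‖r n‖ * ‖P x‖ := (r n).le_opNorm _
      _ ≤ 1 * (‖P‖ * ‖x‖) := mul_le_mul (hr1 n) (P.le_opNorm x) (norm_nonneg _) zero_le_one
      _ = ‖P‖ * ‖x‖ := one_mul _
  · obtain ⟨k, hk⟩ := hr2 s a
    have h1 : (∑ n ∈ s, a n • (r n).comp P) (S (s1 k)) = ∑ n ∈ s, |a n| := by
      rw [hk, sum_apply]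
      refine Finset.sum_congr rfl (fun n _ => ?_)
      change a n * r n (P (S (s1 k))) = _
      rw [h]
    have h2 : ‖S (s1 k)‖ ≤ ‖S‖ := by
      have h3 : ‖(s1 k : l1)‖ = 1 := by
        have := l1_sum_norm {k} (fun _ => 1)
        simpa using this
      calc ‖S (s1 k)‖ ≤ ‖S‖ * ‖(s1 k : l1)‖ := S.le_opNorm _
        _ = ‖S‖ := by rw [h3, mul_one]
    have h4 : ∑ n ∈ s, |a n| ≤ ‖∑ n ∈ s, a n • (r n).comp P‖ * ‖S‖ := by
      rw [← h1]
      refine (le_abs_self _).trans ?_
      refine ((∑ n ∈ s, a n • (r n).comp P).le_opNorm _).trans ?_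
      exact mul_le_mul_of_nonneg_left h2 (ContinuousLinearMap.opNorm_nonneg _)
    rw [inv_mul_le_iff₀ (by positivity)]
    have h5 : 0 ≤ ‖∑ n ∈ s, a n • (r n).comp P‖ := ContinuousLinearMap.opNorm_nonneg _
    nlinarith

/-- A separable automorphic space has no complemented copy of `ℓ¹`. -/
theorem no_complemented_l1 [TopologicalSpace.SeparableSpace X] (hX : Automorphic X)
    (S : l1 →L[ℝ] X) (P : X →L[ℝ] l1) (h : ∀ a, P (S a) = a) : False := by
  obtain ⟨f, M, c, hM, hc, hf⟩ := dual_l1_of_l1 S P h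
  obtain ⟨T, hT⟩ := c0_quotient_of_l1 f hM hc hf
  obtain ⟨e⟩ := absorbs_l1 S P h
  obtain ⟨e1⟩ := absorb hX e T hT c0_not_fd
  obtain ⟨e2⟩ := equiv_c0_of_complemented (e1.trans (ContinuousLinearEquiv.prodComm ℝ _ _))
    l1_not_fd
  exact not_equiv_c0_l1 e2.symm

omit [CompleteSpace X] in
theorem separable_of_basis (b : UnconditionalSchauderBasis ℕ ℝ X) :
    TopologicalSpace.SeparableSpace X := by
  have hdense : Dense ((Submodule.span ℝ (Set.range b.basis) : Submodule ℝ X) : Set X) := by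
    intro x
    refine mem_closure_of_tendsto (GeneralSchauderBasis.tendsto_proj b x)
      (Eventually.of_forall (fun A => ?_))
    rw [GeneralSchauderBasis.proj_apply]
    exact Submodule.sum_mem _ (fun n _ => Submodule.smul_mem _ _
      (Submodule.subset_span ⟨n, rfl⟩))
  have hs : TopologicalSpace.IsSeparable (Set.range b.basis) :=
    (Set.countable_range _).isSeparable
  have h2 : TopologicalSpace.IsSeparable
      ((Submodule.span ℝ (Set.range b.basis) : Submodule ℝ X) : Set X) := hs.span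
  have h3 := h2.closure
  rw [hdense.closure_eq] at h3
  exact TopologicalSpace.isSeparable_univ_iff.1 h3

omit [CompleteSpace X] in
theorem not_fd_of_basis (b : UnconditionalSchauderBasis ℕ ℝ X) : ¬ FiniteDimensional ℝ X := by
  intro h
  have := b.linearIndependent.finite
  exact absurd this (by rw [not_finite_iff_infinite]; infer_instance)

/-- **Main theorem.** An automorphic space with an unconditional basis is isomorphic to `c₀` or
reflexive. -/
theorem uncond_main (hX : Automorphic X) (b : UnconditionalSchauderBasis ℕ ℝ X) :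
    Nonempty (X ≃L[ℝ] c0 ℝ) ∨ Surjective (NormedSpace.inclusionInDoubleDual ℝ X) := by
  by_cases hc : Nonempty (X ≃L[ℝ] c0 ℝ)
  · exact Or.inl hc
  right
  have hsep := separable_of_basis b
  have hXf := not_fd_of_basis b
  -- no copy of `c₀`
  have hnoc0 : ∀ φ : c0 ℝ →L[ℝ] X, Injective φ → IsClosed (Set.range φ) → False := by
    intro φ hφ hcl
    obtain ⟨e⟩ := absorbs_c0_of_contains φ hφ hcl
    obtain ⟨C, hC⟩ := factor_all hX hXf e
    exact hc (equiv_c0_of_factor b hC)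
  intro F
  have hsum : Summable (fun i => F (b.coord i) • b i) := by
    by_contra hcon
    obtain ⟨φ, hφ, hcl⟩ := c0_of_not_summable b F hcon
    exact hnoc0 φ hφ hcl
  have hshr : ∀ f : StrongDual ℝ X, Tendsto (fun s : Finset ℕ => f.comp (b.proj s)) atTop
      (𝓝 f) := by
    intro f
    by_contra hcon
    obtain ⟨S, P, h⟩ := l1_of_not_shrinking b f hcon
    exact no_complemented_l1 hX S P h
  refine ⟨∑' i, F (b.coord i) • b i, ?_⟩
  ext f
  rw [NormedSpace.dual_def]
  have h1 : Tendsto (fun s : Finset ℕ => F (f.comp (b.proj s))) atTop (𝓝 (F f)) :=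
    (F.continuous.tendsto _).comp (hshr f)
  have h2 : Tendsto (fun s : Finset ℕ => f (∑ i ∈ s, F (b.coord i) • b i)) atTop
      (𝓝 (f (∑' i, F (b.coord i) • b i))) := (f.continuous.tendsto _).comp hsum.hasSum
  refine tendsto_nhds_unique h2 (h1.congr (fun s => ?_))
  have h3 : f.comp (b.proj s) = ∑ i ∈ s, f (b i) • b.coord i := by
    ext x
    rw [ContinuousLinearMap.comp_apply, GeneralSchauderBasis.proj_apply, map_sum, sum_apply]
    refine Finset.sum_congr rfl (fun i _ => ?_)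
    change f (b.coord i x • b i) = f (b i) * b.coord i x
    rw [map_smul, smul_eq_mul, mul_comm]
  rw [h3, map_sum, map_sum]
  refine Finset.sum_congr rfl (fun i _ => ?_)
  rw [map_smul, map_smul, smul_eq_mul, smul_eq_mul, mul_comm]

end main

end Pool.Agent.H5.Auto
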