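import Pool.Agent.H5.Auto.Linf
import Pool.Agent.H5.Auto.Uncond

/-!
Final forms.
-/

set_option autoImplicit false

namespace Pool.Agent.H5.Auto

open Function Filter Topology

variable {X : Type*} [NormedAddCommGroup X] [NormedSpace ℝ X] [CompleteSpace X]

/-- An embedding of `ℓ¹` in the dual gives the quotient `c₀`. -/
theorem c0_quotient_of_embedding [TopologicalSpace.SeparableSpace X]
    (J : l1 →L[ℝ] StrongDual ℝ X) {c : ℝ} (hc : 0 < c) (hJ : ∀ a, c * ‖a‖ ≤ ‖J a‖) :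
    ∃ T : X →L[ℝ] c0 ℝ, Surjective T := by
  refine c0_quotient_of_l1 (fun n => J (s1 n)) (M := ‖J‖) (c := c) (fun n => ?_) hc
    (fun s a => ?_)
  · have h1 : ‖(s1 n : l1)‖ = 1 := by
      have := l1_sum_norm {n} (fun _ => 1)
      simpa using this
    calc ‖J (s1 n)‖ ≤ ‖J‖ * ‖(s1 n : l1)‖ := J.le_opNorm _
      _ = ‖J‖ := by rw [h1, mul_one]
  · have h1 := hJ (∑ n ∈ s, a n • s1 n)
    rw [l1_sum_norm, map_sum] at h1
    simpa only [map_smul] using h1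

theorem doubling [TopologicalSpace.SeparableSpace X] (hXf : ¬ FiniteDimensional ℝ X)
    (hX : Automorphic X)
    (hsq : ∃ k : (X × X) →L[ℝ] X, Injective k ∧ IsClosed (Set.range k))
    (h : (∃ (J : l1 →L[ℝ] StrongDual ℝ X) (c : ℝ), 0 < c ∧ ∀ a, c * ‖a‖ ≤ ‖J a‖) ∨
      (∃ T : X →L[ℝ] l2, Surjective T)) :
    Nonempty (X ≃L[ℝ] c0 ℝ) ∨ Nonempty (X ≃L[ℝ] l2) := by
  obtain ⟨k, hk, hkcl⟩ := hsq
  rcases h with ⟨J, c, hc, hJ⟩ | ⟨T, hT⟩
  · obtain ⟨T, hT⟩ := c0_quotient_of_embedding J hc hJ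
    exact Or.inl (double_c0 hX hXf T hT k hk hkcl)
  · right
    have hH : ¬ FiniteDimensional ℝ l2 := by
      intro hfd
      have hli : LinearIndependent ℝ (fun n : ℕ => (lp.single 2 n (1 : ℝ) : l2)) := by
        rw [linearIndependent_iff']
        intro s g hg i hi
        have := congrArg (fun f : l2 => f i) hg
        simp only [lp.coeFn_sum, Finset.sum_apply, lp.coeFn_smul, Pi.smul_apply,
          lp.single_apply] at this
        rw [Finset.sum_eq_single i] at this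
        · simpa using this
        · intro j _ hji
          simp [Pi.single_apply, hji.symm]
        · intro h; exact absurd hi h
      exact absurd hli.finite (by rw [not_finite_iff_infinite]; infer_instance)
    exact double_hilb hX hXf hH T hT k hk hkcl

theorem self_copies [TopologicalSpace.SeparableSpace X] (hX : Automorphic X)
    (J : l1 →L[ℝ] StrongDual ℝ X) {c : ℝ} (hc : 0 < c) (hJ : ∀ a, c * ‖a‖ ≤ ‖J a‖)
    (Z : Submodule ℝ X) (hZ : IsClosed (Z : Set X)) (hZf : ¬ FiniteDimensional ℝ (X ⧸ Z))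
    (hiso : Nonempty (Z ≃L[ℝ] X)) :
    ∃ T : X →L[ℝ] c0 ℝ, Surjective T ∧ ∀ x, T x = 0 ↔ x ∈ Z := by
  obtain ⟨T, hT⟩ := c0_quotient_of_embedding J hc hJ
  obtain ⟨f⟩ := hiso
  have : IsClosed (Z : Set X) := hZ
  let j : X →L[ℝ] X := Z.subtypeL.comp (f.symm : X →L[ℝ] Z)
  have hj : Injective j := Subtype.val_injective.comp f.symm.injective
  have hmk : Surjective (Z.mkQL : X →L[ℝ] X ⧸ Z) := Submodule.mkQ_surjective Z
  have hmk0 : ∀ x, Z.mkQL x = 0 ↔ x ∈ Z := by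
    intro x
    rw [Submodule.mkQL_apply, Submodule.mkQ_apply, Submodule.Quotient.mk_eq_zero]
  have hjr : ∀ x, Z.mkQL x = 0 ↔ ∃ y, j y = x := by
    intro x
    rw [hmk0]
    constructor
    · intro hx
      exact ⟨f ⟨x, hx⟩, by
        change ((f.symm (f ⟨x, hx⟩) : Z) : X) = x
        rw [f.symm_apply_apply]⟩
    · rintro ⟨y, rfl⟩
      exact (f.symm y).2
  obtain ⟨e⟩ := selfquot_c0 hX T hT hZf j hj (Z.mkQL : X →L[ℝ] X ⧸ Z) hmk hjr
  refine ⟨(e : (X ⧸ Z) →L[ℝ] c0 ℝ).comp (Z.mkQL : X →L[ℝ] X ⧸ Z), e.surjective.comp hmk,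
    fun x => ?_⟩
  rw [← hmk0 x]
  change e (Z.mkQL x) = 0 ↔ _
  exact e.map_eq_zero_iff

theorem contains_c0 [TopologicalSpace.SeparableSpace X] (hX : Automorphic X)
    (φ : c0 ℝ →L[ℝ] X) (hφ : Injective φ) (hcl : IsClosed (Set.range φ)) :
    ∃ Λ : ℝ, ∀ E : Submodule ℝ X, FiniteDimensional ℝ E →
      ∃ (N : ℕ) (u : (Fin N → ℝ) →L[ℝ] X), (∀ x ∈ E, ∃ a, u a = x) ∧
        ∀ a, ‖a‖ ≤ ‖u a‖ ∧ ‖u a‖ ≤ Λ * ‖a‖ := by
  have hXf : ¬ FiniteDimensional ℝ X := fun h =>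
    c0_not_fd (FiniteDimensional.of_injective (φ : c0 ℝ →ₗ[ℝ] X) hφ)
  obtain ⟨e⟩ := absorbs_c0_of_contains φ hφ hcl
  obtain ⟨C, hC⟩ := factor_all hX hXf e
  exact linfty_of_factor e hC

end Pool.Agent.H5.Auto
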