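import Pool.Agent.H5.Auto.Ext

/-!
Automorphic spaces that contain `c₀` are `ℒ_∞`-spaces.
-/

set_option autoImplicit false

namespace Pool.Agent.H5.Auto

open Function Filter Topology

section fd

variable {V Y Z : Type*} [NormedAddCommGroup V] [NormedSpace ℝ V]
  [NormedAddCommGroup Y] [NormedSpace ℝ Y] [NormedAddCommGroup Z] [NormedSpace ℝ Z]

/-- On a finite-dimensional space, pointwise convergence to zero implies norm convergence. -/
theorem fd_norm_tendsto [FiniteDimensional ℝ V] (S : ℕ → V →L[ℝ] Z)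
    (h : ∀ v, Tendsto (fun n => S n v) atTop (𝓝 0)) : Tendsto (fun n => ‖S n‖) atTop (𝓝 0) := by
  let b := Module.finBasis ℝ V
  let φ : Fin (Module.finrank ℝ V) → V →L[ℝ] ℝ := fun i => LinearMap.toContinuousLinearMap (b.coord i)
  have hb : ∀ v : V, v = ∑ i, φ i v • b i := fun v => (b.sum_repr v).symm
  have hle : ∀ n, ‖S n‖ ≤ ∑ i, ‖φ i‖ * ‖S n (b i)‖ := by
    intro n
    refine ContinuousLinearMap.opNorm_le_bound _ (Finset.sum_nonneg (fun i _ => by positivity))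
      (fun v => ?_)
    calc ‖S n v‖ = ‖∑ i, φ i v • S n (b i)‖ := by
          conv_lhs => rw [hb v]
          rw [map_sum]
          simp only [map_smul]
      _ ≤ ∑ i, ‖φ i v • S n (b i)‖ := norm_sum_le _ _
      _ ≤ ∑ i, (‖φ i‖ * ‖S n (b i)‖) * ‖v‖ := by
          refine Finset.sum_le_sum (fun i _ => ?_)
          rw [norm_smul]
          have := (φ i).le_opNorm v
          nlinarith [norm_nonneg (S n (b i))]
      _ = (∑ i, ‖φ i‖ * ‖S n (b i)‖) * ‖v‖ := by rw [Finset.sum_mul]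
  refine squeeze_zero (fun n => norm_nonneg _) hle ?_
  have : (0 : ℝ) = ∑ i : Fin (Module.finrank ℝ V), ‖φ i‖ * 0 := by simp
  rw [this]
  refine tendsto_finsetSum _ (fun i _ => ?_)
  have h1 : Tendsto (fun n => ‖S n (b i)‖) atTop (𝓝 0) := tendsto_zero_iff_norm_tendsto_zero.1 (h _)
  exact h1.const_mul _

end fd

section c0fd

/-- Truncation to the first `N` coordinates. -/
noncomputable def trunc (N : ℕ) : c0 ℝ →L[ℝ] c0 ℝ :=
  toC0 (fun k => if k < N then ev k else 0) 1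
    (fun k x => by
      rw [one_mul]
      split_ifs
      · exact c0_norm_apply_le x k
      · simp)
    (fun x => by
      refine tendsto_const_nhds.congr' ?_
      filter_upwards [eventually_ge_atTop N] with k hk
      rw [if_neg (by omega)]; rfl)

theorem trunc_apply (N : ℕ) (x : c0 ℝ) (k : ℕ) : trunc N x k = if k < N then x k else 0 := by
  change (if k < N then ev k else 0 : c0 ℝ →L[ℝ] ℝ) x = _
  split_ifs <;> rfl

theorem trunc_tendsto (x : c0 ℝ) : Tendsto (fun N => x - trunc N x) atTop (𝓝 0) := by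
  rw [Metric.tendsto_atTop]
  intro ε hε
  have := c0_tendsto x
  rw [Metric.tendsto_atTop] at this
  obtain ⟨N, hN⟩ := this (ε / 2) (half_pos hε)
  refine ⟨N, fun n hn => ?_⟩
  rw [dist_zero_right]
  refine lt_of_le_of_lt (c0_norm_le (half_pos hε).le (fun k => ?_)) (half_lt_self hε)
  change ‖x k - trunc n x k‖ ≤ ε / 2
  rw [trunc_apply]
  split_ifs with h
  · rw [sub_self, norm_zero]; positivity
  · rw [sub_zero]
    have := hN k (by omega)
    rw [dist_zero_right] at this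
    exact this.le

/-- The embedding of `ℓ_∞^N` in `c₀`. -/
noncomputable def incl (N : ℕ) : (Fin N → ℝ) →L[ℝ] c0 ℝ :=
  toC0 (fun k => if h : k < N then ContinuousLinearMap.proj (⟨k, h⟩ : Fin N) else 0) 1
    (fun k x => by
      rw [one_mul]
      split_ifs with h
      · exact norm_le_pi_norm x _
      · simp)
    (fun x => by
      refine tendsto_const_nhds.congr' ?_
      filter_upwards [eventually_ge_atTop N] with k hk
      rw [dif_neg (by omega)]; rfl)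

theorem incl_apply (N : ℕ) (x : Fin N → ℝ) (k : ℕ) :
    incl N x k = if h : k < N then x ⟨k, h⟩ else 0 := by
  change (if h : k < N then ContinuousLinearMap.proj (⟨k, h⟩ : Fin N) else 0 :
    (Fin N → ℝ) →L[ℝ] ℝ) x = _
  split_ifs <;> rfl

theorem norm_incl (N : ℕ) (x : Fin N → ℝ) : ‖incl N x‖ = ‖x‖ := by
  refine le_antisymm (c0_norm_le (norm_nonneg _) (fun k => ?_)) ?_
  · rw [incl_apply]
    split_ifs with h
    · exact norm_le_pi_norm x _
    · simp
  · refine (pi_norm_le_iff_of_nonneg (norm_nonneg _)).2 (fun i => ?_)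
    have := c0_norm_apply_le (incl N x) i
    rwa [incl_apply, dif_pos i.2] at this

theorem trunc_eq_incl (N : ℕ) (x : c0 ℝ) : trunc N x = incl N (fun i => x i) := by
  ext k
  rw [trunc_apply, incl_apply]
  split_ifs <;> rfl

/-- A finite-dimensional subspace of `c₀` is contained in a subspace which is 3-isomorphic to
`ℓ_∞^N`. -/
theorem c0_local (E : Submodule ℝ (c0 ℝ)) [FiniteDimensional ℝ E] :
    ∃ (N : ℕ) (v : (Fin N → ℝ) →L[ℝ] c0 ℝ), (∀ x ∈ E, ∃ a, v a = x) ∧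
      ∀ a, ‖a‖ ≤ 3 / 2 * ‖v a‖ ∧ ‖v a‖ ≤ 2 * ‖a‖ := by
  -- a continuous projection onto `E`
  obtain ⟨π, hπ⟩ : ∃ π : c0 ℝ →L[ℝ] E, ∀ x : E, π x = x :=
    Submodule.ClosedComplemented.of_finiteDimensional E
  have hlim : Tendsto (fun N => ‖(ContinuousLinearMap.id ℝ (c0 ℝ) - trunc N).comp E.subtypeL‖)
      atTop (𝓝 0) := fd_norm_tendsto _ (fun x => trunc_tendsto (x : c0 ℝ))
  obtain ⟨N, hN⟩ : ∃ N, ‖(ContinuousLinearMap.id ℝ (c0 ℝ) - trunc N).comp E.subtypeL‖ * ‖π‖ ≤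
      1 / 2 := by
    have h1 : Tendsto (fun N => ‖(ContinuousLinearMap.id ℝ (c0 ℝ) - trunc N).comp E.subtypeL‖ * ‖π‖)
        atTop (𝓝 0) := by simpa using hlim.mul_const ‖π‖
    rw [Metric.tendsto_atTop] at h1
    obtain ⟨N, hN⟩ := h1 (1 / 2) (by norm_num)
    refine ⟨N, ?_⟩
    have := hN N le_rfl
    rw [Real.dist_eq, sub_zero] at this
    exact (le_abs_self _).trans this.le
  let B : c0 ℝ →L[ℝ] c0 ℝ := ((ContinuousLinearMap.id ℝ (c0 ℝ) - trunc N).comp E.subtypeL).comp π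
  have hB : ‖B‖ ≤ 1 / 2 := (ContinuousLinearMap.opNorm_comp_le _ _).trans hN
  let u := Units.oneSub B (by linarith)
  have hu : (u : c0 ℝ →L[ℝ] c0 ℝ) = 1 - B := rfl
  -- the inverse
  let A' : c0 ℝ →L[ℝ] c0 ℝ := ((u⁻¹ : (c0 ℝ →L[ℝ] c0 ℝ)ˣ) : c0 ℝ →L[ℝ] c0 ℝ)
  have h1 : ∀ x, A' ((1 - B) x) = x := by
    intro x
    have := congrArg (fun f : c0 ℝ →L[ℝ] c0 ℝ => f x) u.inv_mul
    exact this
  have h2 : ∀ x, (1 - B) (A' x) = x := by
    intro x
    have := congrArg (fun f : c0 ℝ →L[ℝ] c0 ℝ => f x) u.mul_inv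
    exact this
  have hBx : ∀ x, ‖B x‖ ≤ 1 / 2 * ‖x‖ := fun x =>
    (B.le_opNorm x).trans (mul_le_mul_of_nonneg_right hB (norm_nonneg _))
  have h3 : ∀ x, x = A' x - B (A' x) := fun x => (h2 x).symm
  refine ⟨N, A'.comp (incl N), fun x hx => ?_, fun a => ?_⟩
  · refine ⟨fun i => x i, ?_⟩
    have h4 : (1 - B) x = incl N (fun i => x i) := by
      rw [← trunc_eq_incl]
      change x - (ContinuousLinearMap.id ℝ (c0 ℝ) - trunc N) (E.subtypeL (π x)) = trunc N x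
      have h5 : E.subtypeL (π x) = x := by
        have := hπ ⟨x, hx⟩
        exact congrArg Subtype.val this
      rw [h5]
      change x - (x - trunc N x) = trunc N x
      abel
    change A' (incl N (fun i => x i)) = x
    rw [← h4, h1]
  · change ‖a‖ ≤ 3 / 2 * ‖A' (incl N a)‖ ∧ ‖A' (incl N a)‖ ≤ 2 * ‖a‖
    rw [← norm_incl N a]
    set y := incl N a
    have h4 := h3 y
    have h5 := hBx (A' y)
    constructor
    · calc ‖y‖ = ‖A' y - B (A' y)‖ := by rw [← h4]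
        _ ≤ ‖A' y‖ + ‖B (A' y)‖ := norm_sub_le _ _
        _ ≤ 3 / 2 * ‖A' y‖ := by linarith
    · have h6 : ‖A' y‖ ≤ ‖y‖ + ‖B (A' y)‖ := by
        have h7 : A' y = y + B (A' y) := by
          have := h4; rw [eq_sub_iff_add_eq] at this; exact this.symm
        calc ‖A' y‖ = ‖y + B (A' y)‖ := by rw [← h7]
          _ ≤ _ := norm_add_le _ _
      linarith

end c0fd

section shift

/-- Left shift by `M`. -/
noncomputable def lshift (M : ℕ) : c0 ℝ →L[ℝ] c0 ℝ :=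
  toC0 (fun k => ev (k + M)) 1
    (fun k x => by rw [one_mul]; exact c0_norm_apply_le x _)
    (fun x => (c0_tendsto x).comp (tendsto_add_atTop_nat M))

/-- Right shift by `M`. -/
noncomputable def rshift (M : ℕ) : c0 ℝ →L[ℝ] c0 ℝ :=
  toC0 (fun k => if M ≤ k then ev (k - M) else 0) 1
    (fun k x => by
      rw [one_mul]
      split_ifs
      · exact c0_norm_apply_le x _
      · simp)
    (fun x => by
      rw [← tendsto_add_atTop_iff_nat M]
      refine (c0_tendsto x).congr (fun k => ?_)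
      rw [if_pos (by omega), Nat.add_sub_cancel]; rfl)

theorem lshift_apply (M : ℕ) (x : c0 ℝ) (k : ℕ) : lshift M x k = x (k + M) := rfl

theorem rshift_apply (M : ℕ) (x : c0 ℝ) (k : ℕ) :
    rshift M x k = if M ≤ k then x (k - M) else 0 := by
  change (if M ≤ k then ev (k - M) else 0 : c0 ℝ →L[ℝ] ℝ) x = _
  split_ifs <;> rfl

theorem lshift_rshift (M : ℕ) (x : c0 ℝ) : lshift M (rshift M x) = x := by
  ext k
  rw [lshift_apply, rshift_apply, if_pos (by omega), Nat.add_sub_cancel]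

theorem norm_lshift_le (M : ℕ) (x : c0 ℝ) : ‖lshift M x‖ ≤ ‖x‖ :=
  c0_norm_le (norm_nonneg _) (fun k => c0_norm_apply_le x _)

theorem norm_rshift_le (M : ℕ) (x : c0 ℝ) : ‖rshift M x‖ ≤ ‖x‖ :=
  c0_norm_le (norm_nonneg _) (fun k => by
    rw [rshift_apply]
    split_ifs
    · exact c0_norm_apply_le x _
    · simp)

theorem lshift_tendsto (x : c0 ℝ) : Tendsto (fun M => lshift M x) atTop (𝓝 0) := by
  rw [Metric.tendsto_atTop]
  intro ε hε
  have := c0_tendsto x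
  rw [Metric.tendsto_atTop] at this
  obtain ⟨N, hN⟩ := this (ε / 2) (half_pos hε)
  refine ⟨N, fun n hn => ?_⟩
  rw [dist_zero_right]
  refine lt_of_le_of_lt (c0_norm_le (half_pos hε).le (fun k => ?_)) (half_lt_self hε)
  rw [lshift_apply]
  have := hN (k + n) (by omega)
  rw [dist_zero_right] at this
  exact this.le

end shift

section main

variable {X : Type*} [NormedAddCommGroup X] [NormedSpace ℝ X] [CompleteSpace X]

/-- If `X ≅ X × c₀` and the finite-dimensional subspaces of `X` factor uniformly through `c₀`, then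
`X` is an `ℒ_∞`-space. -/
theorem linfty_of_factor (e : X ≃L[ℝ] X × c0 ℝ) {C : ℝ}
    (hfac : ∀ E : Submodule ℝ X, FiniteDimensional ℝ E →
      ∃ (α : X →L[ℝ] c0 ℝ) (β : c0 ℝ →L[ℝ] X), (∀ x ∈ E, β (α x) = x) ∧ ‖α‖ ≤ C ∧ ‖β‖ ≤ C) :
    ∃ Λ : ℝ, ∀ E : Submodule ℝ X, FiniteDimensional ℝ E →
      ∃ (N : ℕ) (u : (Fin N → ℝ) →L[ℝ] X), (∀ x ∈ E, ∃ a, u a = x) ∧
        ∀ a, ‖a‖ ≤ ‖u a‖ ∧ ‖u a‖ ≤ Λ * ‖a‖ := by
  set p : ℝ := ‖(e : X →L[ℝ] X × c0 ℝ)‖ with hp
  set J : ℝ := ‖(e.symm : (X × c0 ℝ) →L[ℝ] X)‖ with hJ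
  have hp0 : 0 ≤ p := (e : X →L[ℝ] X × c0 ℝ).opNorm_nonneg
  have hJ0 : 0 ≤ J := (e.symm : (X × c0 ℝ) →L[ℝ] X).opNorm_nonneg
  set K : ℝ := max C 0 with hK
  have hK0 : 0 ≤ K := le_max_right _ _
  -- the constants
  set m : ℝ := 3 * (K + (1 + K * J) * p) with hm
  have hm0 : 0 ≤ m := by positivity
  set U : ℝ := K * 2 + J * (2 + K * (K * 2)) with hU
  have hU0 : 0 ≤ U := by positivity
  refine ⟨(m + 1) * U, fun E hE => ?_⟩
  obtain ⟨α, β, hβα, hα', hβ'⟩ := hfac E hE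
  have hα : ‖α‖ ≤ K := hα'.trans (le_max_left _ _)
  have hβ : ‖β‖ ≤ K := hβ'.trans (le_max_left _ _)
  have hαx : ∀ x, ‖α x‖ ≤ K * ‖x‖ := fun x =>
    (α.le_opNorm x).trans (mul_le_mul_of_nonneg_right hα (norm_nonneg _))
  have hβx : ∀ x, ‖β x‖ ≤ K * ‖x‖ := fun x =>
    (β.le_opNorm x).trans (mul_le_mul_of_nonneg_right hβ (norm_nonneg _))
  -- the finite-dimensional subspace `α E` of `c₀`
  have hfd : FiniteDimensional ℝ (E.map (α : X →ₗ[ℝ] c0 ℝ)) := inferInstance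
  obtain ⟨N, v, hvE, hv⟩ := c0_local (E.map (α : X →ₗ[ℝ] c0 ℝ))
  -- far away copy of `c₀`
  let T : ℕ → X →L[ℝ] c0 ℝ := fun M =>
    (lshift M).comp ((ContinuousLinearMap.snd ℝ X (c0 ℝ)).comp (e : X →L[ℝ] X × c0 ℝ))
  let j : ℕ → c0 ℝ →L[ℝ] X := fun M =>
    (e.symm : (X × c0 ℝ) →L[ℝ] X).comp ((ContinuousLinearMap.inr ℝ X (c0 ℝ)).comp (rshift M))
  have hTj : ∀ M a, T M (j M a) = a := by
    intro M a
    change lshift M (e (e.symm ((0 : X), rshift M a))).2 = a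
    rw [e.apply_symm_apply, lshift_rshift]
  have hTn : ∀ M x, ‖T M x‖ ≤ p * ‖x‖ := by
    intro M x
    refine (norm_lshift_le M _).trans ((norm_snd_le (e x)).trans ?_)
    exact (e : X →L[ℝ] X × c0 ℝ).le_opNorm x
  have hjn : ∀ M a, ‖j M a‖ ≤ J * ‖a‖ := by
    intro M a
    refine ((e.symm : (X × c0 ℝ) →L[ℝ] X).le_opNorm _).trans ?_
    refine mul_le_mul_of_nonneg_left ?_ hJ0
    change ‖((0 : X), rshift M a)‖ ≤ ‖a‖
    rw [Prod.norm_def, norm_zero, max_eq_right (norm_nonneg _)]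
    exact norm_rshift_le M a
  have hlim : Tendsto (fun M => ‖(T M).comp (β.comp v)‖) atTop (𝓝 0) :=
    fd_norm_tendsto _ (fun a => lshift_tendsto _)
  obtain ⟨M, hM⟩ : ∃ M, (1 + K * J) * ‖(T M).comp (β.comp v)‖ ≤ 1 / 3 := by
    have h1 : Tendsto (fun M => (1 + K * J) * ‖(T M).comp (β.comp v)‖) atTop (𝓝 0) := by
      simpa using hlim.const_mul (1 + K * J)
    rw [Metric.tendsto_atTop] at h1
    obtain ⟨N, hN⟩ := h1 (1 / 3) (by norm_num)
    refine ⟨N, ?_⟩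
    have := hN N le_rfl
    rw [Real.dist_eq, sub_zero] at this
    exact (le_abs_self _).trans this.le
  -- the map
  let u0 : (Fin N → ℝ) →L[ℝ] X := β.comp v + (j M).comp (v - α.comp (β.comp v))
  have hu0 : ∀ a, u0 a = β (v a) + j M (v a - α (β (v a))) := fun a => rfl
  have hlow : ∀ a, ‖a‖ ≤ m * ‖u0 a‖ := by
    intro a
    set y := u0 a with hy
    set D := v a - α (β (v a)) with hD
    have e1 : T M y = T M (β (v a)) + D := by rw [hy, hu0, map_add, hTj]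
    have e2 : ‖D‖ ≤ p * ‖y‖ + ‖(T M).comp (β.comp v)‖ * ‖a‖ := by
      have : D = T M y - (T M).comp (β.comp v) a := by
        rw [e1]; change D = T M (β (v a)) + D - T M (β (v a)); abel
      rw [this]
      exact (norm_sub_le _ _).trans (add_le_add (hTn M y) (ContinuousLinearMap.le_opNorm _ _))
    have e3 : ‖β (v a)‖ ≤ ‖y‖ + J * ‖D‖ := by
      have : β (v a) = y - j M D := by rw [hy, hu0]; abel
      rw [this]
      exact (norm_sub_le _ _).trans (add_le_add le_rfl (hjn M D))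
    have e4 : ‖v a‖ ≤ ‖D‖ + K * ‖β (v a)‖ := by
      have : v a = D + α (β (v a)) := by rw [hD]; abel
      calc ‖v a‖ = ‖D + α (β (v a))‖ := by rw [← this]
        _ ≤ ‖D‖ + ‖α (β (v a))‖ := norm_add_le _ _
        _ ≤ ‖D‖ + K * ‖β (v a)‖ := add_le_add le_rfl (hαx _)
    have e5 : ‖a‖ ≤ 3 / 2 * ‖v a‖ := (hv a).1
    -- combine
    have e6 : ‖v a‖ ≤ K * ‖y‖ + (1 + K * J) * ‖D‖ := by nlinarith
    have e7 : (1 + K * J) * ‖D‖ ≤ (1 + K * J) * (p * ‖y‖) + 1 / 3 * ‖a‖ := by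
      calc (1 + K * J) * ‖D‖ ≤ (1 + K * J) * (p * ‖y‖ + ‖(T M).comp (β.comp v)‖ * ‖a‖) :=
            mul_le_mul_of_nonneg_left e2 (by positivity)
        _ = (1 + K * J) * (p * ‖y‖) + ((1 + K * J) * ‖(T M).comp (β.comp v)‖) * ‖a‖ := by ring
        _ ≤ (1 + K * J) * (p * ‖y‖) + 1 / 3 * ‖a‖ :=
            add_le_add le_rfl (mul_le_mul_of_nonneg_right hM (norm_nonneg _))
    have e8 : 1 / 2 * ‖a‖ ≤ 3 / 2 * (K * ‖y‖ + (1 + K * J) * (p * ‖y‖)) := by nlinarith
    rw [hm]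
    nlinarith
  have hup : ∀ a, ‖u0 a‖ ≤ U * ‖a‖ := by
    intro a
    have h1 : ‖v a‖ ≤ 2 * ‖a‖ := (hv a).2
    have h2 : ‖β (v a)‖ ≤ K * 2 * ‖a‖ := by
      refine (hβx _).trans ?_
      nlinarith
    have h3 : ‖α (β (v a))‖ ≤ K * (K * 2) * ‖a‖ := by
      refine (hαx _).trans ?_
      nlinarith
    have h4 : ‖v a - α (β (v a))‖ ≤ (2 + K * (K * 2)) * ‖a‖ :=
      (norm_sub_le _ _).trans (by linarith)
    rw [hu0]
    refine (norm_add_le _ _).trans ?_
    have h5 := hjn M (v a - α (β (v a)))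
    rw [hU]
    nlinarith
  refine ⟨N, (m + 1) • u0, fun x hx => ?_, fun a => ⟨?_, ?_⟩⟩
  · obtain ⟨a, ha⟩ := hvE (α x) ⟨x, hx, rfl⟩
    refine ⟨(m + 1)⁻¹ • a, ?_⟩
    change (m + 1) • u0 ((m + 1)⁻¹ • a) = x
    rw [map_smul, smul_smul, mul_inv_cancel₀ (by positivity), one_smul, hu0, ha, hβα x hx,
      sub_self, map_zero, add_zero]
  · change ‖a‖ ≤ ‖(m + 1) • u0 a‖
    rw [norm_smul, Real.norm_eq_abs, abs_of_nonneg (by positivity)]
    refine (hlow a).trans ?_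
    nlinarith [norm_nonneg (u0 a)]
  · change ‖(m + 1) • u0 a‖ ≤ _
    rw [norm_smul, Real.norm_eq_abs, abs_of_nonneg (by positivity), mul_assoc]
    exact mul_le_mul_of_nonneg_left (hup a) (by positivity)

end main

end Pool.Agent.H5.Auto
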